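import Pool.Agent.H194.CG.Defs

/-!
B1 (helper77): shift invariance of the Bernoulli measure, and the integrals of the Walsh functions.
-/

set_option autoImplicit false
open MeasureTheory
open scoped ENNReal

namespace Pool.Agent.H194.CG

namespace B1

theorem act_eq (g : Gam) : act g = MeasurableEquiv.piCongrLeft (fun _ : Gam => Bool)
    (Equiv.mulLeft g) := by
  funext x
  funext d
  have h := Equiv.piCongrLeft_apply_apply (P := fun _ : Gam => Bool) (Equiv.mulLeft g) x (g⁻¹ * d)
  have e : (Equiv.mulLeft g) (g⁻¹ * d) = d := mul_inv_cancel_left g d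
  rw [e] at h
  exact h.symm

theorem fair_singleton (b : Bool) : fair {b} = 2⁻¹ := by
  unfold fair
  rw [PMF.toMeasure_apply_singleton _ _ (measurableSet_singleton b)]
  simp

theorem map_not : fair.map (fun b => !b) = fair := by
  refine Measure.ext_of_singleton fun b => ?_
  rw [Measure.map_apply (measurable_of_finite _) (measurableSet_singleton b), fair_singleton]
  have : (fun b => !b) ⁻¹' {b} = {!b} := by
    ext c
    cases b <;> cases c <;> simp
  rw [this, fair_singleton]

/-- the flip of one coordinate -/
noncomputable def flp (d : Gam) (x : X) : X :=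
  open Classical in fun e => (if e = d then (fun b => !b) else id : Bool → Bool) (x e)

theorem flp_mp (d : Gam) : MeasurePreserving (flp d) mu mu := by
  classical
  have hm : ∀ e : Gam, Measurable (if e = d then (fun b => !b) else id : Bool → Bool) :=
    fun e => measurable_of_finite _
  refine ⟨?_, ?_⟩
  · unfold flp
    exact measurable_pi_iff.2 fun e => (hm e).comp (measurable_pi_apply e)
  · have h := Measure.infinitePi_map_pi (fun _ : Gam => fair) (Y := fun _ => Bool)
      (f := fun e => (if e = d then (fun b => !b) else id : Bool → Bool)) hm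
    unfold mu
    refine Eq.trans ?_ (h.trans ?_)
    · rfl
    · congr 1
      funext e
      by_cases he : e = d
      · rw [if_pos he, map_not]
      · rw [if_neg he, Measure.map_id]

theorem flp_self (d : Gam) (x : X) : flp d x d = !x d := by
  unfold flp
  simp

theorem flp_ne {d e : Gam} (h : e ≠ d) (x : X) : flp d x e = x e := by
  unfold flp
  simp [h]

theorem chi_flp {F : Finset Gam} {d : Gam} (hd : d ∈ F) (x : X) :
    chi F (flp d x) = - chi F x := by
  classical
  unfold chi
  rw [← Finset.mul_prod_erase F _ hd, ← Finset.mul_prod_erase F (fun d => if x d then (-1 : ℝ)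
    else 1) hd, flp_self]
  have : ∏ e ∈ F.erase d, (if flp d x e then (-1 : ℝ) else 1) =
      ∏ e ∈ F.erase d, (if x e then (-1 : ℝ) else 1) := by
    refine Finset.prod_congr rfl fun e he => ?_
    rw [flp_ne (Finset.ne_of_mem_erase he)]
  rw [this]
  cases x d <;> simp

theorem chi_meas (F : Finset Gam) : Measurable (chi F) := by
  unfold chi
  refine Finset.measurable_prod _ fun d _ => ?_
  exact (measurable_of_finite (fun b : Bool => if b then (-1 : ℝ) else 1)).comp
    (measurable_pi_apply d)

end B1

theorem thm_mp : S_mp := by
  intro g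
  rw [B1.act_eq]
  exact ⟨(MeasurableEquiv.piCongrLeft _ _).measurable,
    Measure.infinitePi_map_piCongrLeft (fun _ : Gam => fair) (Equiv.mulLeft g)⟩

theorem thm_chiInt : S_chiInt := by
  intro F hF
  obtain ⟨d, hd⟩ := hF
  have h := (B1.flp_mp d).map_eq
  have h1 : ∫ x, chi F x ∂mu = ∫ x, chi F (B1.flp d x) ∂mu := by
    conv_lhs => rw [← h]
    exact integral_map (B1.flp_mp d).measurable.aemeasurable
      (B1.chi_meas F).aestronglyMeasurable
  have h2 : ∫ x, chi F (B1.flp d x) ∂mu = - ∫ x, chi F x ∂mu := by
    rw [← integral_neg]
    exact integral_congr_ae (Filter.Eventually.of_forall fun x => B1.chi_flp hd x)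
  linarith

end Pool.Agent.H194.CG
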