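import Pool.Agent.H194.CG.Defs

set_option autoImplicit false
open MeasureTheory
open scoped ENNReal

namespace Pool.Agent.H194.CG

namespace B2

open Submodule

theorem chi_cont (F : Finset Gam) : Continuous (chi F) := by
  unfold chi
  refine continuous_finsetProd _ fun d _ => ?_
  have h : Continuous fun b : Bool => if b then (-1 : ℝ) else 1 := continuous_of_discreteTopology
  exact h.comp (continuous_apply d)

theorem chi_sq (F : Finset Gam) (x : X) : chi F x * chi F x = 1 := by
  unfold chi
  rw [← Finset.prod_mul_distrib]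
  refine Finset.prod_eq_one fun d _ => ?_
  split_ifs <;> norm_num

open scoped symmDiff in
theorem chi_mul (F F' : Finset Gam) (x : X) : chi F x * chi F' x = chi (symmDiff F F') x := by
  have e1 : chi F x = chi (F \ F') x * chi (F ∩ F') x := by
    unfold chi
    rw [← Finset.prod_union (Finset.disjoint_sdiff_inter F F'), Finset.sdiff_union_inter]
  have e2 : chi F' x = chi (F' \ F) x * chi (F ∩ F') x := by
    unfold chi
    rw [Finset.inter_comm, ← Finset.prod_union (Finset.disjoint_sdiff_inter F' F),
      Finset.sdiff_union_inter]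
  have e3 : chi (symmDiff F F') x = chi (F \ F') x * chi (F' \ F) x := by
    unfold chi
    rw [← Finset.prod_union (disjoint_sdiff_sdiff), symmDiff_def, Finset.sup_eq_union]
  rw [e1, e2, e3]
  calc chi (F \ F') x * chi (F ∩ F') x * (chi (F' \ F) x * chi (F ∩ F') x)
      = chi (F \ F') x * chi (F' \ F) x * (chi (F ∩ F') x * chi (F ∩ F') x) := by ring
    _ = chi (F \ F') x * chi (F' \ F) x := by rw [chi_sq, mul_one]

/-- the Walsh functions as continuous functions -/
def chiC (F : Finset Gam) : C(X, ℝ) := ⟨chi F, chi_cont F⟩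

/-- the algebra of the Walsh functions -/
def walsh : Subalgebra ℝ C(X, ℝ) := Algebra.adjoin ℝ (Set.range chiC)

theorem walsh_coe : Subalgebra.toSubmodule walsh = span ℝ (Set.range chiC) := by
  apply Algebra.adjoin_eq_span_of_subset
  refine Set.Subset.trans ?_ Submodule.subset_span
  intro x hx
  refine Submonoid.closure_induction (fun _ => id) ⟨∅, ?_⟩ ?_ hx
  · ext1 z
    change chi ∅ z = 1
    simp [chi]
  · rintro - - - - ⟨m, rfl⟩ ⟨n, rfl⟩
    refine ⟨symmDiff m n, ?_⟩
    ext1 z
    exact (chi_mul m n z).symm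

theorem walsh_sep : walsh.SeparatesPoints := by
  intro x y hxy
  obtain ⟨d, hd⟩ := Function.ne_iff.1 hxy
  refine ⟨_, ⟨chiC {d}, Algebra.subset_adjoin ⟨{d}, rfl⟩, rfl⟩, ?_⟩
  change chi {d} x ≠ chi {d} y
  unfold chi
  rw [Finset.prod_singleton, Finset.prod_singleton]
  cases h1 : x d <;> cases h2 : y d <;> simp_all <;> norm_num

theorem walsh_top : (span ℝ (Set.range chiC)).topologicalClosure = ⊤ := by
  rw [← walsh_coe]
  exact congr_arg Subalgebra.toSubmodule
    (ContinuousMap.subalgebra_topologicalClosure_eq_top_of_separatesPoints walsh walsh_sep)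

/-- the Walsh functions in `L²` -/
noncomputable def chiL (F : Finset Gam) : Lp ℝ 2 mu :=
  ContinuousMap.toLp (E := ℝ) 2 mu ℝ (chiC F)

theorem span_chiL : (span ℝ (Set.range chiL)).topologicalClosure = ⊤ := by
  convert!
    (ContinuousMap.toLp_denseRange ℝ mu ℝ
      (ENNReal.ofNat_ne_top (n := 2))).topologicalClosure_map_submodule walsh_top
  rw [map_span]
  unfold chiL
  rw [Set.range_comp']
  simp only [ContinuousLinearMap.coe_coe]

theorem chiL_orth (h : S_chiInt) : Orthonormal ℝ chiL := by
  rw [orthonormal_iff_ite]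
  intro F F'
  unfold chiL
  rw [ContinuousMap.inner_toLp mu (chiC F) (chiC F')]
  have e : (fun x => chiC F' x * (starRingEnd ℝ) (chiC F x)) = chi (symmDiff F' F) := by
    funext x
    change chi F' x * chi F x = _
    rw [chi_mul]
  rw [e]
  split_ifs with hF
  · subst hF
    rw [symmDiff_self]
    have e1 : chi (⊥ : Finset Gam) = fun _ => (1 : ℝ) := by
      funext x
      simp [chi]
    rw [e1]
    simp
  · refine h _ ?_
    rw [Finset.nonempty_iff_ne_empty]
    intro hc
    rw [← Finset.bot_eq_empty, symmDiff_eq_bot] at hc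
    exact hF hc.symm

end B2

open B2 in
theorem thm_parseval (h : S_chiInt) : S_parseval := by
  intro f hf
  set b : HilbertBasis (Finset Gam) ℝ (Lp ℝ 2 mu) :=
    HilbertBasis.mk (chiL_orth h) (by rw [span_chiL]) with hb
  have hbF : ∀ F, b F = chiL F := by
    intro F
    rw [hb, HilbertBasis.coe_mk]
  set fL : Lp ℝ 2 mu := hf.toLp f with hfL
  have hs := b.hasSum_inner_mul_inner fL fL
  have hae : (fL : X → ℝ) =ᵐ[mu] f := hf.coeFn_toLp
  have e1 : inner ℝ fL fL = ∫ x, f x ^ 2 ∂mu := by
    rw [L2.inner_def]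
    refine integral_congr_ae ?_
    filter_upwards [hae] with x hx
    rw [hx, real_inner_self_eq_norm_sq, Real.norm_eq_abs, sq_abs]
  have e2 : ∀ F, inner ℝ (b F) fL = ∫ x, f x * chi F x ∂mu := by
    intro F
    rw [hbF, L2.inner_def]
    refine integral_congr_ae ?_
    have hc : (chiL F : X → ℝ) =ᵐ[mu] chi F := ContinuousMap.coeFn_toLp mu (chiC F)
    filter_upwards [hae, hc] with x hx hx'
    rw [hx, hx']
    rfl
  rw [e1] at hs
  have e3 : (fun F => inner ℝ fL (b F) * inner ℝ (b F) fL) =
      fun F => (∫ x, f x * chi F x ∂mu) ^ 2 := by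
    funext F
    rw [real_inner_comm, e2]
    ring
  rw [e3] at hs
  exact hs

end Pool.Agent.H194.CG
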