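import Pool.Agent.H194.CG.Defs

/-! Task B3: Walsh coefficients of a translate. -/

set_option autoImplicit false
open MeasureTheory
open scoped ENNReal

namespace Pool.Agent.H194.CG

namespace B3

theorem lmul_prod (g : Gam) (F : Finset Gam) (h : Gam → ℝ) :
    ∏ d ∈ lmul g F, h d = ∏ d ∈ F, h (g * d) := by
  unfold lmul
  exact Finset.prod_image fun a _ b _ hab => mul_left_cancel hab

theorem chi_act (g : Gam) (F : Finset Gam) (x : X) : chi (lmul g F) (act g x) = chi F x := by
  unfold chi
  rw [lmul_prod]
  refine Finset.prod_congr rfl fun d _ => ?_
  simp [act]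

theorem measurable_chi (F : Finset Gam) : Measurable (chi F) := by
  unfold chi
  refine Finset.measurable_prod F fun d _ => ?_
  have h : Measurable (fun b : Bool => if b = true then (-1 : ℝ) else 1) := measurable_of_finite _
  exact h.comp (measurable_pi_apply d)

end B3

theorem thm_coef (h : S_mp) : S_coef := by
  intro f hf g F
  have h1 : AEStronglyMeasurable (fun x => f x * chi (lmul g F) x) (Measure.map (act g) mu) := by
    rw [(h g).map_eq]
    exact hf.1.mul (B3.measurable_chi _).aestronglyMeasurable
  have h2 := integral_map (h g).measurable.aemeasurable h1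
  rw [(h g).map_eq] at h2
  rw [h2]
  refine integral_congr_ae (Filter.Eventually.of_forall fun x => ?_)
  simp only [B3.chi_act]

end Pool.Agent.H194.CG
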