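import Pool.Agent.H194.CG.Defs

set_option autoImplicit false
open MeasureTheory
open scoped ENNReal

namespace Pool.Agent.H194.CG

namespace B4

theorem cntX_sum (i : Fin 2) (L : ℕ) (M : Set X) (x : X) :
    (cntX i L M x : ℝ) =
      ∑ j ∈ Finset.Icc 1 L, M.indicator (fun _ => (1 : ℝ)) (act (ww i j) x) := by
  classical
  unfold cntX
  rw [Finset.card_filter]
  push_cast
  refine Finset.sum_congr rfl fun j _ => ?_
  by_cases h : act (ww i j) x ∈ M
  · rw [Set.indicator_of_mem h]; simp [h]
  · rw [Set.indicator_of_notMem h]; simp [h]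

theorem chi_meas (F : Finset Gam) : Measurable (chi F) := by
  unfold chi
  refine Finset.measurable_prod _ fun d _ => ?_
  have h : MeasurableSet {x : X | x d = true} :=
    measurableSet_eq_fun (measurable_pi_apply d) measurable_const
  exact Measurable.ite h measurable_const measurable_const

theorem chi_abs (F : Finset Gam) (x : X) : |chi F x| = 1 := by
  unfold chi
  rw [Finset.abs_prod]
  refine Finset.prod_eq_one fun d _ => ?_
  split_ifs <;> simp

end B4

open B4 in
theorem thm_var (h1 : S_mp) (h2 : S_parseval) (h3 : S_coef) (h4 : S_pp) : S_var := by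
  intro i L M hM
  set m := mu.real M with hm
  have hm1 : m ≤ 1 := measureReal_le_one
  have hm0 : 0 ≤ m := measureReal_nonneg
  set f : X → ℝ := fun x => M.indicator (fun _ => (1 : ℝ)) x - m with hf
  have hfm : Measurable f := (measurable_const.indicator hM).sub_const _
  have hfb : ∀ x, |f x| ≤ 1 := by
    intro x
    rw [hf, abs_le]
    by_cases h : x ∈ M
    · simp only [Set.indicator_of_mem h]; constructor <;> linarith
    · simp only [Set.indicator_of_notMem h]; constructor <;> linarith
  have hfL : MemLp f 2 mu := by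
    refine MemLp.of_bound hfm.aestronglyMeasurable 1 ?_
    exact Filter.Eventually.of_forall fun x => by rw [Real.norm_eq_abs]; exact hfb x
  -- the sum
  set S : X → ℝ := fun x => ∑ j ∈ Finset.Icc 1 L, f (act (ww i j) x) with hS
  have hSeq : ∀ x, S x = (cntX i L M x : ℝ) - L * m := by
    intro x
    rw [hS, cntX_sum]
    simp only [hf, Finset.sum_sub_distrib, Finset.sum_const, Nat.card_Icc, nsmul_eq_mul]
    congr 1
  have hfam : ∀ g : Gam, Measurable fun x => f (act g x) := fun g => hfm.comp (h1 g).measurable
  have hSm : Measurable S := Finset.measurable_sum _ fun j _ => hfam _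
  have hSL : MemLp S 2 mu := by
    refine MemLp.of_bound hSm.aestronglyMeasurable (L : ℝ) ?_
    refine Filter.Eventually.of_forall fun x => ?_
    rw [Real.norm_eq_abs]
    refine (Finset.abs_sum_le_sum_abs _ _).trans ?_
    refine (Finset.sum_le_sum fun j _ => hfb _).trans ?_
    simp
  set φ : Finset Gam → ℝ := fun F => ∫ x, f x * chi F x ∂mu with hφ
  have hφ0 : φ ∅ = 0 := by
    rw [hφ]
    simp only [chi, Finset.prod_empty, mul_one]
    rw [hf]
    have hi : Integrable (fun x => M.indicator (fun _ => (1 : ℝ)) x) mu :=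
      (integrable_const (1 : ℝ)).indicator hM
    rw [integral_sub hi (integrable_const m), integral_indicator_const _ hM]
    simp [hm]
  have hP := h2 f hfL
  have hPS := h2 S hSL
  obtain ⟨hs1, hs2⟩ := h4 i L φ hφ0 hP.summable
  have hcoef : ∀ F : Finset Gam, ∫ x, S x * chi F x ∂mu =
      ∑ j ∈ Finset.Icc 1 L, φ (lmul (ww i j) F) := by
    intro F
    have e1 : (fun x => S x * chi F x) = fun x =>
        ∑ j ∈ Finset.Icc 1 L, f (act (ww i j) x) * chi F x := by
      funext x
      rw [hS, Finset.sum_mul]
    rw [e1, integral_finsetSum]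
    · refine Finset.sum_congr rfl fun j _ => ?_
      exact h3 f hfL (ww i j) F
    · intro j _
      refine Integrable.of_bound (C := 1) ((hfam _).mul (chi_meas F)).aestronglyMeasurable ?_
      refine Filter.Eventually.of_forall fun x => ?_
      rw [Real.norm_eq_abs, abs_mul, chi_abs, mul_one]
      exact hfb _
  have hint : ∫ x, ((cntX i L M x : ℝ) - L * m) ^ 2 ∂mu =
      ∑' F, (∑ j ∈ Finset.Icc 1 L, φ (lmul (ww i j) F)) ^ 2 := by
    have e2 : ∫ x, ((cntX i L M x : ℝ) - L * m) ^ 2 ∂mu = ∫ x, S x ^ 2 ∂mu := by
      refine integral_congr_ae (Filter.Eventually.of_forall fun x => ?_)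
      simp only [hSeq]
    rw [e2, ← hPS.tsum_eq]
    exact tsum_congr fun F => by rw [hcoef]
  rw [hint]
  refine hs2.trans ?_
  have hf2 : ∑' F, φ F ^ 2 = m - m ^ 2 := by
    rw [hP.tsum_eq]
    have e3 : (fun x => f x ^ 2) = fun x => M.indicator (fun _ => (1 - 2 * m : ℝ)) x + m ^ 2 := by
      funext x
      rw [hf]
      by_cases h : x ∈ M
      · simp only [Set.indicator_of_mem h]; ring
      · simp only [Set.indicator_of_notMem h]; ring
    rw [e3]
    have hi : Integrable (fun x => M.indicator (fun _ => (1 - 2 * m : ℝ)) x) mu :=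
      (integrable_const (1 - 2 * m : ℝ)).indicator hM
    rw [integral_add hi (integrable_const _), integral_indicator_const _ hM]
    simp only [integral_const, probReal_univ, smul_eq_mul, one_mul, ← hm]
    ring
  rw [hf2]
  have hL : (0 : ℝ) ≤ 9 * L := by positivity
  refine mul_le_mul_of_nonneg_left ?_ hL
  nlinarith [sq_nonneg m]

end Pool.Agent.H194.CG
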