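import Pool.Agent.H194.CG.Defs

set_option autoImplicit false
open MeasureTheory
open scoped ENNReal

namespace Pool.Agent.H194.CG

namespace B5

theorem cntX_sum (i : Fin 2) (L : ℕ) (M : Set X) (x : X) :
    (cntX i L M x : ℝ) =
      ∑ j ∈ Finset.Icc 1 L, M.indicator (fun _ => (1 : ℝ)) (act (ww i j) x) := by
  classical
  unfold cntX
  rw [Finset.card_filter]
  push_cast
  refine Finset.sum_congr rfl fun j _ => ?_
  by_cases h : act (ww i j) x ∈ M
  · rw [Set.indicator_of_mem h]; simp [h]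
  · rw [Set.indicator_of_notMem h]; simp [h]

theorem cntX_meas (h0 : S_mp) (i : Fin 2) (L : ℕ) (M : Set X) (hM : MeasurableSet M) :
    Measurable fun x => (cntX i L M x : ℝ) := by
  have h1 : (fun x => (cntX i L M x : ℝ)) = fun x =>
      ∑ j ∈ Finset.Icc 1 L, M.indicator (fun _ => (1 : ℝ)) (act (ww i j) x) := by
    funext x
    exact cntX_sum i L M x
  rw [h1]
  refine Finset.measurable_sum _ fun j _ => ?_
  exact (measurable_const.indicator hM).comp (h0 (ww i j)).measurable

theorem cntX_le (i : Fin 2) (L : ℕ) (M : Set X) (x : X) : cntX i L M x ≤ L := by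
  classical
  unfold cntX
  refine (Finset.card_filter_le _ _).trans ?_
  simp

end B5

theorem thm_bad (h0 : S_mp) (h : S_var) : S_bad := by
  intro i L M hM hL hm
  set m := mu.real M with hmdef
  have hm1 : m ≤ 1 := measureReal_le_one
  have hL' : (40 : ℝ) ≤ L := by exact_mod_cast hL
  have hLm : 4 ≤ (L : ℝ) * m := by nlinarith
  have hv := h i L M hM
  have hmeas := B5.cntX_meas h0 i L M hM
  have hint : Integrable (fun x => ((cntX i L M x : ℝ) - L * m) ^ 2) mu := by
    refine Integrable.of_bound (C := (L : ℝ) ^ 2) ?_ ?_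
    · exact ((hmeas.sub_const _).pow_const 2).aestronglyMeasurable
    · refine Filter.Eventually.of_forall fun x => ?_
      rw [Real.norm_eq_abs, abs_of_nonneg (sq_nonneg _)]
      have h1 : (cntX i L M x : ℝ) ≤ L := by exact_mod_cast B5.cntX_le i L M x
      have h2 : (0 : ℝ) ≤ cntX i L M x := Nat.cast_nonneg _
      have h3 : (0 : ℝ) ≤ L * m := by linarith
      have h4 : (L : ℝ) * m ≤ L := by nlinarith
      refine sq_le_sq' ?_ ?_ <;> linarith
  have hmk := mul_meas_ge_le_integral_of_nonneg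
    (μ := mu) (f := fun x => ((cntX i L M x : ℝ) - L * m) ^ 2)
    (Filter.Eventually.of_forall fun x => sq_nonneg _) hint ((L * m / 2) ^ 2)
  have hsub : {x | cntX i L M x ≤ 2} ⊆
      {x | (L * m / 2) ^ 2 ≤ ((cntX i L M x : ℝ) - L * m) ^ 2} := by
    intro x hx
    have hx' : (cntX i L M x : ℝ) ≤ 2 := by exact_mod_cast hx
    have h2 : (0 : ℝ) ≤ cntX i L M x := Nat.cast_nonneg _
    change (L * m / 2) ^ 2 ≤ ((cntX i L M x : ℝ) - L * m) ^ 2
    nlinarith
  have hle : mu.real {x | cntX i L M x ≤ 2} ≤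
      mu.real {x | (L * m / 2) ^ 2 ≤ ((cntX i L M x : ℝ) - L * m) ^ 2} :=
    measureReal_mono hsub
  have h5 : (L * m / 2) ^ 2 * mu.real {x | cntX i L M x ≤ 2} ≤ 9 * L * m := by
    refine (mul_le_mul_of_nonneg_left hle (sq_nonneg _)).trans (hmk.trans hv)
  have hLpos : (0 : ℝ) < L := by linarith
  rw [le_div_iff₀ hLpos]
  set q := mu.real {x | cntX i L M x ≤ 2} with hq
  have hq0 : 0 ≤ q := measureReal_nonneg
  have h6 : (L : ℝ) * m * ((L : ℝ) * m * q) ≤ (L * m) * 36 := by nlinarith
  have h7 : (L : ℝ) * m * q ≤ 36 := le_of_mul_le_mul_left h6 (by linarith)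
  have h8 : (L : ℝ) * q * (1 / 10) ≤ L * q * m := by
    refine mul_le_mul_of_nonneg_left hm (by positivity)
  nlinarith

end Pool.Agent.H194.CG
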