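import Pool.Agent.H194.CG.Defs

/-! Task B6 (helper439): shrinking. -/

set_option autoImplicit false
open MeasureTheory
open scoped ENNReal

namespace Pool.Agent.H194.CG

namespace B6

theorem act_inv_act (g : Gam) (x : X) : act g⁻¹ (act g x) = x := by
  funext d
  simp [act]

theorem act_act_inv (g : Gam) (x : X) : act g (act g⁻¹ x) = x := by
  funext d
  simp [act]

theorem cnt_mono (i : Fin 2) (L : ℕ) {M M' : Set X} (h : M ⊆ M') (x : X) :
    cntX i L M x ≤ cntX i L M' x := by
  classical
  unfold cntX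
  apply Finset.card_le_card
  intro j hj
  rw [Finset.mem_filter] at hj ⊢
  exact ⟨hj.1, h hj.2⟩

/-- the bad points -/
def bad (i : Fin 2) (L : ℕ) (M : Set X) : Set X := {x | cntX i L M x ≤ 2}

/-- one step of the shrinking -/
def stp (i : Fin 2) (L : ℕ) (M : Set X) : Set X :=
  {y | y ∈ M ∧ y ∉ bad i L M ∧ ∀ j ∈ Finset.Icc 1 L, act (ww i j)⁻¹ y ∉ bad i L M}

/-- the shrinking sequence -/
def seq (i : Fin 2) (L : ℕ) (M : Set X) : ℕ → Set X
  | 0 => M
  | n + 1 => stp i L (seq i L M n)

theorem stp_sub (i : Fin 2) (L : ℕ) (M : Set X) : stp i L M ⊆ M := fun _ h => h.1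

theorem seq_anti (i : Fin 2) (L : ℕ) (M : Set X) : Antitone (seq i L M) :=
  antitone_nat_of_succ_le fun n => stp_sub i L (seq i L M n)

theorem bad_mono (i : Fin 2) (L : ℕ) {M M' : Set X} (h : M ⊆ M') : bad i L M' ⊆ bad i L M :=
  fun x hx => (cnt_mono i L h x).trans hx

theorem meas_cnt (h1 : S_mp) (i : Fin 2) (L : ℕ) {M : Set X} (hM : MeasurableSet M) :
    Measurable (cntX i L M) := by
  classical
  have e : cntX i L M = fun x => ∑ j ∈ Finset.Icc 1 L, if act (ww i j) x ∈ M then 1 else 0 := by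
    funext x
    unfold cntX
    rw [Finset.card_filter]
  rw [e]
  refine Finset.measurable_sum _ fun j _ => ?_
  exact Measurable.ite ((h1 (ww i j)).measurable hM) measurable_const measurable_const

theorem meas_bad (h1 : S_mp) (i : Fin 2) (L : ℕ) {M : Set X} (hM : MeasurableSet M) :
    MeasurableSet (bad i L M) :=
  meas_cnt h1 i L hM (measurableSet_Iic (a := 2))

theorem meas_stp (h1 : S_mp) (i : Fin 2) (L : ℕ) {M : Set X} (hM : MeasurableSet M) :
    MeasurableSet (stp i L M) := by
  have hb := meas_bad h1 i L hM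
  have e : stp i L M = M ∩ ((bad i L M)ᶜ ∩
      ⋂ j ∈ Finset.Icc 1 L, (act (ww i j)⁻¹) ⁻¹' (bad i L M)ᶜ) := by
    ext y
    simp only [stp, Set.mem_inter_iff, Set.mem_compl_iff, Set.mem_iInter, Set.mem_preimage]
    rfl
  rw [e]
  refine hM.inter (hb.compl.inter ?_)
  exact Finset.measurableSet_biInter _ fun j _ => (h1 _).measurable hb.compl

theorem meas_seq (h1 : S_mp) (i : Fin 2) (L : ℕ) {M : Set X} (hM : MeasurableSet M) (n : ℕ) :
    MeasurableSet (seq i L M n) := by
  induction n with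
  | zero => exact hM
  | succ n ih => exact meas_stp h1 i L ih

theorem not_stp {i : Fin 2} {L : ℕ} {M : Set X} {x : X} (hx : x ∈ bad i L M) :
    x ∉ stp i L M ∧ ∀ j ∈ Finset.Icc 1 L, act (ww i j) x ∉ stp i L M := by
  refine ⟨fun h => h.2.1 hx, fun j hj h => ?_⟩
  have := h.2.2 j hj
  rw [act_inv_act] at this
  exact this hx

theorem cnt_zero {i : Fin 2} {L : ℕ} {M : Set X} {x : X}
    (h : ∀ j ∈ Finset.Icc 1 L, act (ww i j) x ∉ M) : cntX i L M x = 0 := by
  classical
  unfold cntX
  rw [Finset.card_eq_zero, Finset.filter_eq_empty_iff]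
  intro j hj
  exact h j hj

/-- the measure of the set removed in one step -/
theorem removed (h1 : S_mp) (i : Fin 2) (L : ℕ) {M C : Set X} (hM : MeasurableSet M)
    (hC : MeasurableSet C)
    (hCM : ∀ x ∈ C, x ∉ M ∧ ∀ j ∈ Finset.Icc 1 L, act (ww i j) x ∉ M) :
    mu (M \ stp i L M) ≤ 3 * mu (bad i L M \ C) := by
  classical
  set D : Set X := bad i L M \ C with hD
  have hDm : MeasurableSet D := (meas_bad h1 i L hM).diff hC
  set S : ℕ → Set X := fun j => M ∩ (act (ww i j)⁻¹) ⁻¹' D with hS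
  have hSm : ∀ j, MeasurableSet (S j) := fun j => hM.inter ((h1 _).measurable hDm)
  have hsub : M \ stp i L M ⊆ D ∪ ⋃ j ∈ Finset.Icc 1 L, S j := by
    rintro y ⟨hyM, hy⟩
    by_cases hyb : y ∈ bad i L M
    · left
      exact ⟨hyb, fun hyC => (hCM y hyC).1 hyM⟩
    · have : ¬ ∀ j ∈ Finset.Icc 1 L, act (ww i j)⁻¹ y ∉ bad i L M := fun hall =>
        hy ⟨hyM, hyb, hall⟩
      push Not at this
      obtain ⟨j, hj, hjb⟩ := this
      right
      simp only [Set.mem_iUnion]
      refine ⟨j, hj, hyM, hjb, fun hc => ?_⟩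
      have := (hCM _ hc).2 j hj
      rw [act_act_inv] at this
      exact this hyM
  have hpre : ∀ j, mu (S j) = mu ((act (ww i j)) ⁻¹' M ∩ D) := by
    intro j
    rw [← (h1 (ww i j)).measure_preimage (hSm j).nullMeasurableSet]
    congr 1
    ext x
    simp only [hS, Set.mem_preimage, Set.mem_inter_iff, act_inv_act]
  have hsum : ∑ j ∈ Finset.Icc 1 L, mu (S j) ≤ 2 * mu D := by
    have hE : ∀ j, MeasurableSet ((act (ww i j)) ⁻¹' M) := fun j => (h1 _).measurable hM
    have e1 : ∀ j ∈ Finset.Icc 1 L, mu (S j) =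
        ∫⁻ x, ((act (ww i j)) ⁻¹' M).indicator 1 x ∂(mu.restrict D) := by
      intro j _
      rw [lintegral_indicator_one (hE j), Measure.restrict_apply (hE j), hpre]
    rw [Finset.sum_congr rfl e1, ← lintegral_finsetSum _ fun j _ =>
      measurable_one.indicator (hE j)]
    have e2 : ∫⁻ x in D, (2 : ℝ≥0∞) ∂mu = 2 * mu D := by
      rw [setLIntegral_const]
    rw [← e2]
    refine setLIntegral_mono' hDm fun x hx => ?_
    have e3 : ∑ j ∈ Finset.Icc 1 L, ((act (ww i j)) ⁻¹' M).indicator (1 : X → ℝ≥0∞) x =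
        (cntX i L M x : ℝ≥0∞) := by
      unfold cntX
      rw [Finset.card_filter]
      push_cast
      refine Finset.sum_congr rfl fun j _ => ?_
      by_cases h : act (ww i j) x ∈ M
      · rw [Set.indicator_of_mem (show x ∈ (act (ww i j)) ⁻¹' M from h), if_pos h]
        rfl
      · rw [Set.indicator_of_notMem (show x ∉ (act (ww i j)) ⁻¹' M from h), if_neg h]
    rw [e3]
    have : cntX i L M x ≤ 2 := hx.1
    exact_mod_cast this
  calc mu (M \ stp i L M) ≤ mu (D ∪ ⋃ j ∈ Finset.Icc 1 L, S j) := measure_mono hsub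
    _ ≤ mu D + mu (⋃ j ∈ Finset.Icc 1 L, S j) := measure_union_le _ _
    _ ≤ mu D + ∑ j ∈ Finset.Icc 1 L, mu (S j) :=
        add_le_add le_rfl (measure_biUnion_finset_le _ _)
    _ ≤ mu D + 2 * mu D := add_le_add le_rfl hsum
    _ = 3 * mu D := by ring

theorem removed_real (h1 : S_mp) (i : Fin 2) (L : ℕ) {M C : Set X} (hM : MeasurableSet M)
    (hC : MeasurableSet C)
    (hCM : ∀ x ∈ C, x ∉ M ∧ ∀ j ∈ Finset.Icc 1 L, act (ww i j) x ∉ M) :
    mu.real (M \ stp i L M) ≤ 3 * mu.real (bad i L M \ C) := by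
  have h := removed h1 i L hM hC hCM
  unfold Measure.real
  calc (mu (M \ stp i L M)).toReal ≤ (3 * mu (bad i L M \ C)).toReal :=
        ENNReal.toReal_mono (by finiteness) h
    _ = _ := by rw [ENNReal.toReal_mul]; simp

/-- total measure of the removed sets -/
theorem total (h1 : S_mp) (i : Fin 2) (L : ℕ) {M : Set X} (hM : MeasurableSet M) (n : ℕ) :
    mu.real (M \ seq i L M (n + 1)) ≤ 3 * mu.real (bad i L (seq i L M n)) := by
  induction n with
  | zero =>
    have h := removed_real h1 i L hM MeasurableSet.empty (C := ∅) (by simp)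
    rw [Set.sdiff_empty] at h
    exact h
  | succ n ih =>
    have hm1 := meas_seq h1 i L hM (n + 1)
    have hm0 := meas_seq h1 i L hM n
    have hb0 := meas_bad h1 i L hm0
    have hb1 := meas_bad h1 i L hm1
    have h := removed_real h1 i L hm1 hb0 (fun x hx => not_stp hx)
    have hsub : bad i L (seq i L M n) ⊆ bad i L (seq i L M (n + 1)) :=
      bad_mono i L (seq_anti i L M (Nat.le_succ n))
    have e1 : mu.real (bad i L (seq i L M (n + 1)) \ bad i L (seq i L M n)) =
        mu.real (bad i L (seq i L M (n + 1))) - mu.real (bad i L (seq i L M n)) :=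
      measureReal_sdiff hsub hb0
    rw [e1] at h
    have hcov : M \ seq i L M (n + 1 + 1) ⊆ (M \ seq i L M (n + 1)) ∪
        (seq i L M (n + 1) \ seq i L M (n + 1 + 1)) := by
      rintro y ⟨h1, h2⟩
      by_cases h3 : y ∈ seq i L M (n + 1)
      · exact Or.inr ⟨h3, h2⟩
      · exact Or.inl ⟨h1, h3⟩
    have h3 := (measureReal_mono hcov (by finiteness)).trans
      (measureReal_union_le (μ := mu) (M \ seq i L M (n + 1))
        (seq i L M (n + 1) \ seq i L M (n + 1 + 1)))
    have h4 : mu.real (seq i L M (n + 1) \ seq i L M (n + 1 + 1)) ≤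
        3 * (mu.real (bad i L (seq i L M (n + 1))) - mu.real (bad i L (seq i L M n))) := h
    linarith

end B6

open B6 in
theorem thm_clos (h1 : S_mp) (h2 : S_bad) : S_clos := by
  classical
  intro i L hL M₀ hM₀ hmass
  have hLR : (10800 : ℝ) ≤ L := by exact_mod_cast hL
  have hmeas := meas_seq h1 i L hM₀
  -- the masses stay large
  have hlarge : ∀ n, (1 : ℝ) / 10 ≤ mu.real (seq i L M₀ n) := by
    intro n
    induction n with
    | zero =>
      show (1 : ℝ) / 10 ≤ mu.real M₀
      linarith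
    | succ n ih =>
      have hb := h2 i L (seq i L M₀ n) (hmeas n) (by omega) ih
      have hb' : mu.real (bad i L (seq i L M₀ n)) ≤ 1 / 30 := by
        refine hb.trans ?_
        rw [div_le_iff₀ (by linarith)]
        linarith
      have ht := total h1 i L hM₀ n
      have hcov : M₀ ⊆ (M₀ \ seq i L M₀ (n + 1)) ∪ seq i L M₀ (n + 1) := by
        intro y hy
        by_cases h3 : y ∈ seq i L M₀ (n + 1)
        · exact Or.inr h3
        · exact Or.inl ⟨hy, h3⟩
      have h3 := (measureReal_mono hcov (by finiteness)).trans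
        (measureReal_union_le (μ := mu) (M₀ \ seq i L M₀ (n + 1)) (seq i L M₀ (n + 1)))
      linarith
  refine ⟨⋂ n, seq i L M₀ n, Set.iInter_subset _ 0, MeasurableSet.iInter hmeas, ?_, ?_⟩
  · have ht : Filter.Tendsto (fun n => mu (seq i L M₀ n)) Filter.atTop
        (nhds (mu (⋂ n, seq i L M₀ n))) :=
      tendsto_measure_iInter_atTop (fun n => (hmeas n).nullMeasurableSet) (seq_anti i L M₀)
        ⟨0, by finiteness⟩
    have hge : ENNReal.ofReal (1 / 10) ≤ mu (⋂ n, seq i L M₀ n) := by
      refine ge_of_tendsto' ht fun n => ?_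
      have := hlarge n
      rw [Measure.real] at this
      exact (ENNReal.ofReal_le_iff_le_toReal (by finiteness)).2 this
    exact lt_of_lt_of_le (by simp) hge
  · intro x hx
    -- a level at which the count is the same
    have hlev : ∃ n, ∀ j ∈ Finset.Icc 1 L, act (ww i j) x ∈ seq i L M₀ n →
        act (ww i j) x ∈ ⋂ n, seq i L M₀ n := by
      have hj : ∀ j : ℕ, ∃ n, act (ww i j) x ∈ seq i L M₀ n →
          act (ww i j) x ∈ ⋂ n, seq i L M₀ n := by
        intro j
        by_cases h : act (ww i j) x ∈ ⋂ n, seq i L M₀ n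
        · exact ⟨0, fun _ => h⟩
        · rw [Set.mem_iInter] at h
          push Not at h
          obtain ⟨n, hn⟩ := h
          exact ⟨n, fun h' => absurd h' hn⟩
      choose N hN using hj
      refine ⟨(Finset.Icc 1 L).sup N, fun j hj h => ?_⟩
      exact hN j (seq_anti i L M₀ (Finset.le_sup hj) h)
    obtain ⟨n, hn⟩ := hlev
    have hxb : x ∈ bad i L (seq i L M₀ n) := by
      show cntX i L (seq i L M₀ n) x ≤ 2
      refine le_trans ?_ hx
      unfold cntX
      apply Finset.card_le_card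
      intro j hj
      rw [Finset.mem_filter] at hj ⊢
      exact ⟨hj.1, hn j hj.1 hj.2⟩
    obtain ⟨g1, g2⟩ := not_stp hxb
    constructor
    · have h3 : cntX i L (seq i L M₀ (n + 1)) x = 0 := cnt_zero g2
      have h4 := cnt_mono i L (Set.iInter_subset (seq i L M₀) (n + 1)) x
      omega
    · intro h
      rw [Set.mem_iInter] at h
      exact g1 (h (n + 1))

end Pool.Agent.H194.CG
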