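import Pool.Agent.H194.CG.Defs2

/-!
Task C0 (helper978): the last letter of the reduced word under left multiplication by a letter.
-/

set_option autoImplicit false

namespace Pool.Agent.H194.CG

namespace C0

theorem toWord_el (l : Fin 3 × Bool) : (el l).toWord = [l] := by
  unfold el
  simp [FreeGroup.toWord_mk]

theorem inv_el (l : Fin 3 × Bool) : (el l)⁻¹ = el (l.1, !l.2) := by
  unfold el
  rw [FreeGroup.inv_mk]
  rfl

theorem el_mul (l : Fin 3 × Bool) (g : Gam) : (el l * g).toWord =
    FreeGroup.reduce (l :: g.toWord) := by
  rw [FreeGroup.toWord_mul, toWord_el, List.singleton_append]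

theorem toWord_cons (l : Fin 3 × Bool) (g : Gam) (hd : Fin 3 × Bool) (tl : List (Fin 3 × Bool))
    (hw : g.toWord = hd :: tl) :
    (el l * g).toWord = if l.1 = hd.1 ∧ l.2 = !hd.2 then tl else l :: hd :: tl := by
  rw [el_mul, FreeGroup.reduce.cons, FreeGroup.reduce_toWord, hw]

end C0

theorem thm_last : S_last := by
  refine ⟨?_, ?_, C0.inv_el, ?_⟩
  · unfold lst
    rw [FreeGroup.toWord_one]
    rfl
  · intro l
    unfold lst
    rw [C0.toWord_el]
    rfl
  · intro l g h1 h2
    unfold lst
    cases hw : g.toWord with
    | nil => exact absurd (FreeGroup.toWord_eq_nil_iff.1 hw) h1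
    | cons hd tl =>
      rw [C0.toWord_cons l g hd tl hw]
      split_ifs with h3
      · cases tl with
        | nil =>
          exfalso
          apply h2
          apply FreeGroup.toWord_injective
          rw [C0.inv_el, C0.toWord_el, hw]
          congr 1
          refine Prod.ext_iff.2 ⟨h3.1.symm, ?_⟩
          simp only
          rw [h3.2, Bool.not_not]
        | cons x t => simp
      · simp

end Pool.Agent.H194.CG
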