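import Pool.Agent.H194.CG.Defs2

/-!
C1: gradient along the treeing
-/

set_option autoImplicit false
open MeasureTheory
open scoped ENNReal

namespace Pool.Agent.H194.CG

namespace C1

theorem act_act (g h : Gam) (x : X) : act g (act h x) = act (g * h) x := by
  funext d
  simp [act, mul_assoc]

theorem act_one (x : X) : act 1 x = x := by
  funext d
  simp [act]

theorem act_inj {x : X} (hx : x ∈ Fr) {p q : Gam} (h : act p x = act q x) : p = q := by
  have h1 : act (q⁻¹ * p) x = x := by
    rw [← act_act, h, act_act, inv_mul_cancel, act_one]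
  have h2 := hx _ h1
  exact (inv_mul_eq_one.1 h2).symm

open Classical in
theorem sg_self (T : Set (X × X)) (a b : X) : sg T a b b = 1 := by
  unfold sg
  rw [if_pos Relation.ReflTransGen.refl]

open Classical in
theorem sg_eq {T : Set (X × X)} (hs : ∀ x y, (x, y) ∈ T → (y, x) ∈ T) {a b c d : X}
    (hcd : (c, d) ∈ T) (h1 : ¬ (c = a ∧ d = b)) (h2 : ¬ (c = b ∧ d = a)) :
    sg T a b d = sg T a b c := by
  unfold sg
  have hc : cutRel T a b c d := ⟨hcd, h1, h2⟩
  have hd : cutRel T a b d c :=
    ⟨hs _ _ hcd, fun h => h2 ⟨h.2, h.1⟩, fun h => h1 ⟨h.2, h.1⟩⟩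
  have : Relation.ReflTransGen (cutRel T a b) d b ↔ Relation.ReflTransGen (cutRel T a b) c b :=
    ⟨fun h => Relation.ReflTransGen.head hc h, fun h => Relation.ReflTransGen.head hd h⟩
  by_cases h : Relation.ReflTransGen (cutRel T a b) c b
  · rw [if_pos h, if_pos (this.2 h)]
  · rw [if_neg h, if_neg (fun h' => h (this.1 h'))]

end C1

open C1

open Classical in
theorem thm_TG (hb : S_bridge) : S_TG := by
  intro T hTE hs hacy x hx hconn κ P hP
  set F : Gam → Gam → ℝ := fun v v' => ∑ e ∈ P, (if (act e.1 x, act e.2 x) ∈ T then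
      (κ e.2 - κ e.1) * (sg T (act e.1 x) (act e.2 x) (act v' x) -
        sg T (act e.1 x) (act e.2 x) (act v x)) else 0) with hF
  have hself : ∀ v, F v v = 0 := by
    intro v
    simp [hF]
  have hadd : ∀ u v w, F u v + F v w = F u w := by
    intro u v w
    simp only [hF]
    rw [← Finset.sum_add_distrib]
    refine Finset.sum_congr rfl fun e _ => ?_
    split_ifs <;> ring
  have hsg0 : ∀ p q : Gam, (act p x, act q x) ∈ T → p ≠ q →
      sg T (act p x) (act q x) (act p x) = 0 := by
    intro p q hpq hne
    unfold sg
    rw [if_neg]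
    exact hb T hs hacy _ _ hpq fun h => hne (act_inj hx h)
  have hedge : ∀ v v' : Gam, (act v x, act v' x) ∈ T → v ≠ v' → F v v' = 2 * (κ v' - κ v) := by
    intro v v' hT hne
    have hterm : ∀ e ∈ P, (if (act e.1 x, act e.2 x) ∈ T then
      (κ e.2 - κ e.1) * (sg T (act e.1 x) (act e.2 x) (act v' x) -
        sg T (act e.1 x) (act e.2 x) (act v x)) else 0) =
        (if e = (v, v') then κ v' - κ v else 0) + (if e = (v', v) then κ v' - κ v else 0) := by
      rintro ⟨p, q⟩ _
      by_cases h1 : (p, q) = (v, v')
      · have h2 : ¬ (p, q) = (v', v) := by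
          rw [h1]
          intro h
          rw [Prod.mk.injEq] at h
          exact hne h.1
        rw [if_pos h1, if_neg h2]
        rw [Prod.mk.injEq] at h1
        obtain ⟨rfl, rfl⟩ := h1
        simp only
        rw [if_pos hT, sg_self, hsg0 _ _ hT hne]
        ring
      · by_cases h2 : (p, q) = (v', v)
        · rw [if_neg h1, if_pos h2]
          rw [Prod.mk.injEq] at h2
          obtain ⟨rfl, rfl⟩ := h2
          simp only
          rw [if_pos (hs _ _ hT), sg_self, hsg0 _ _ (hs _ _ hT) (Ne.symm hne)]
          ring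
        · rw [if_neg h1, if_neg h2]
          simp only
          split_ifs with h3
          · have h4 : sg T (act p x) (act q x) (act v' x) = sg T (act p x) (act q x) (act v x) := by
              apply sg_eq hs hT
              · rintro ⟨h5, h6⟩
                exact h1 (by rw [act_inj hx h5, act_inj hx h6])
              · rintro ⟨h5, h6⟩
                exact h2 (by rw [act_inj hx h5, act_inj hx h6])
            rw [h4]; ring
          · simp
    simp only [hF]
    rw [Finset.sum_congr rfl hterm, Finset.sum_add_distrib, Finset.sum_ite_eq', Finset.sum_ite_eq']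
    by_cases hk : κ v = κ v'
    · rw [hk]; simp
    · rw [if_pos (hP v v' hT hk), if_pos (hP v' v (hs _ _ hT) (Ne.symm hk))]
      ring
  have hpath : ∀ v : Gam, ∀ c : X, Relation.ReflTransGen (fun a b => (a, b) ∈ T) (act v x) c →
      ∃ w : Gam, c = act w x ∧ F v w = 2 * (κ w - κ v) := by
    intro v c hc
    induction hc with
    | refl => exact ⟨v, rfl, by rw [hself]; ring⟩
    | @tail c d _ hcd ih =>
      obtain ⟨w, rfl, hw⟩ := ih
      by_cases hne : act w x = d
      · exact ⟨w, hne.symm, hw⟩
      · rcases hTE hcd with h | ⟨_, g, hg⟩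
        · exact absurd h hne
        · have hg' : d = act (g * w) x := by
            rw [← act_act]; exact hg
          subst hg'
          refine ⟨g * w, rfl, ?_⟩
          have h1 := hedge w (g * w) hcd (fun h => hne (by rw [← h]))
          rw [← hadd v w (g * w), hw, h1]
          ring
  have hsym : ∀ c d : X, Relation.ReflTransGen (fun a b => (a, b) ∈ T) c d →
      Relation.ReflTransGen (fun a b => (a, b) ∈ T) d c := by
    intro c d h
    induction h with
    | refl => exact Relation.ReflTransGen.refl
    | tail _ h ih => exact Relation.ReflTransGen.head (hs _ _ h) ih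
  intro v v'
  obtain ⟨w, hw, hF'⟩ := hpath v (act v' x) ((hsym _ _ (hconn v)).trans (hconn v'))
  have : v' = w := act_inj hx hw
  subst this
  exact hF'

end Pool.Agent.H194.CG
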