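import Pool.Agent.H194.CG.Defs

/-!
Second part (MP_cc4ad1_lc): a treeing contained in the expensive graphing would have integral of the
degree equal to 6 (mass transport between two treeings), contradicting the lower bound `32/5`.
-/

set_option autoImplicit false
open MeasureTheory
open scoped ENNReal

namespace Pool.Agent.H194.CG

/-- a letter as a group element -/
def el (l : Fin 3 × Bool) : Gam := FreeGroup.mk [l]

open Classical in
/-- indicator that the last letter of `g` is `l` -/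
noncomputable def kap (l : Fin 3 × Bool) (g : Gam) : ℝ := if lst g = some l then 1 else 0

/-- left multiplication by a letter and the last letter -/
def S_last : Prop := lst (1 : Gam) = none ∧ (∀ l, lst (el l) = some l) ∧
  (∀ l : Fin 3 × Bool, (el l)⁻¹ = el (l.1, !l.2)) ∧
  (∀ (l : Fin 3 × Bool) (g : Gam), g ≠ 1 → g ≠ (el l)⁻¹ → lst (el l * g) = lst g)

/-- gradient along the words: the cheap treeing -/
def S_KG : Prop := ∀ t : Gam, ∃ A : Finset Gam,
  (∀ v, v ∉ A → ∀ l, kap l (t * v⁻¹) = kap l v⁻¹) ∧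
  ∀ B : Finset Gam, A ⊆ B → ∀ κ : Gam → ℝ,
    ∑ v ∈ B, ∑ l : Fin 3 × Bool, (kap l (t * v⁻¹) - kap l v⁻¹) * (κ (el l * v) - κ v) =
      2 * (κ t - κ 1)

/-- the graph of a symmetric relation -/
def gr (T : Set (X × X)) : SimpleGraph X := SimpleGraph.fromRel (fun x y => (x, y) ∈ T)

/-- `T` without the edge `{a,b}` -/
def cutRel (T : Set (X × X)) (a b : X) : X → X → Prop :=
  fun c d => (c, d) ∈ T ∧ ¬ (c = a ∧ d = b) ∧ ¬ (c = b ∧ d = a)

open Classical in
/-- 1 if `c` is connected to `b` in `T` without the edge `{a,b}` -/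
noncomputable def sg (T : Set (X × X)) (a b c : X) : ℝ :=
  if Relation.ReflTransGen (cutRel T a b) c b then 1 else 0

/-- edges of an acyclic graph are bridges -/
def S_bridge : Prop := ∀ T : Set (X × X), (∀ x y, (x, y) ∈ T → (y, x) ∈ T) → (gr T).IsAcyclic →
  ∀ a b : X, (a, b) ∈ T → a ≠ b → ¬ Relation.ReflTransGen (cutRel T a b) a b

open Classical in
/-- gradient along the treeing `T` -/
def S_TG : Prop := ∀ T : Set (X × X), T ⊆ EE → (∀ x y, (x, y) ∈ T → (y, x) ∈ T) →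
  (gr T).IsAcyclic → ∀ x ∈ Fr,
  (∀ g : Gam, Relation.ReflTransGen (fun a b => (a, b) ∈ T) x (act g x)) →
  ∀ (κ : Gam → ℝ) (P : Finset (Gam × Gam)),
  (∀ p q, (act p x, act q x) ∈ T → κ p ≠ κ q → (p, q) ∈ P) →
  ∀ v v' : Gam,
    ∑ e ∈ P, (if (act e.1 x, act e.2 x) ∈ T then
      (κ e.2 - κ e.1) * (sg T (act e.1 x) (act e.2 x) (act v' x) -
        sg T (act e.1 x) (act e.2 x) (act v x)) else 0) = 2 * (κ v' - κ v)

def S_cutM : Prop := ∀ T : Set (X × X), MeasurableSet T → T ⊆ EE → ∀ p q v : Gam,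
  Measurable (fun x => sg T (act p x) (act q x) (act v x))

open Classical in
/-- the generators of the expensive graphing and their inverses -/
noncomputable def Spm (L : ℕ) : Finset Gam :=
  {ga, ga⁻¹} ∪ Finset.univ.biUnion (fun i : Fin 2 => {cc i L, (cc i L)⁻¹, dd i L, (dd i L)⁻¹})

/-- mass transport -/
def S_mass : Prop := ∀ (L : ℕ), 2 ≤ L → ∀ (T : Set (X × X)), T ⊆ Cay (SG L) → MeasurableSet T →
  (∀ x y, (x, y) ∈ T → (y, x) ∈ T) →
  (∀ᵐ x ∂mu, ∀ g : Gam, Relation.ReflTransGen (fun a b => (a, b) ∈ T) x (act g x)) →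
  (gr T).IsAcyclic →
  ∑ t ∈ Spm L, mu.real {x | (x, act t x) ∈ T} = 6

def S_treeT : Prop := ∀ (L : ℕ), 2 ≤ L → ∀ (T : Set (X × X)), T ⊆ Cay (SG L) → MeasurableSet T →
  (∀ x y, (x, y) ∈ T → (y, x) ∈ T) →
  (∀ᵐ x ∂mu, ∀ g : Gam, Relation.ReflTransGen (fun a b => (a, b) ∈ T) x (act g x)) →
  (gr T).IsAcyclic →
  ∫⁻ x, ENat.toENNReal (Set.encard {y | (x, y) ∈ T}) ∂mu ≤ 6

/-- the cheap graphing is a treeing -/
def S_acyK : Prop := (gr (Cay SK)).IsAcyclic

end Pool.Agent.H194.CG
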