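import Pool.Agent.H194.CG.Defs
import Pool.Agent.H194.CG.Defs2

/-!
Gradient along words (the cheap treeing).
-/

set_option autoImplicit false
open MeasureTheory
open scoped ENNReal

namespace Pool.Agent.H194.CG

namespace C2

theorem kap_one (h1 : lst (1 : Gam) = none) (l : Fin 3 × Bool) : kap l 1 = 0 := by
  unfold kap
  rw [h1]
  simp

theorem kap_el (h2 : ∀ l, lst (el l) = some l) (l l0 : Fin 3 × Bool) :
    kap l (el l0) = if l = l0 then 1 else 0 := by
  unfold kap
  rw [h2]
  by_cases h : l = l0
  · rw [if_pos h, if_pos (by rw [h])]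
  · rw [if_neg h, if_neg (fun h' => h (Option.some_injective _ h').symm)]

theorem el_ne (h1 : lst (1 : Gam) = none) (h2 : ∀ l, lst (el l) = some l) (l : Fin 3 × Bool) :
    el l ≠ 1 := by
  intro h
  have h3 := h2 l
  rw [h, h1] at h3
  cases h3

end C2

open C2 in
theorem thm_KG (h : S_last) : S_KG := by
  classical
  obtain ⟨h1, h2, h3, h4⟩ := h
  have key : ∀ L : List (Fin 3 × Bool), ∃ A : Finset Gam,
      (∀ v, v ∉ A → ∀ l, kap l (FreeGroup.mk L * v⁻¹) = kap l v⁻¹) ∧
      ∀ B : Finset Gam, A ⊆ B → ∀ κ : Gam → ℝ,
      ∑ v ∈ B, ∑ l : Fin 3 × Bool, (kap l (FreeGroup.mk L * v⁻¹) - kap l v⁻¹) *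
        (κ (el l * v) - κ v) = 2 * (κ (FreeGroup.mk L) - κ 1) := by
    intro L
    induction L with
    | nil =>
        have e : (FreeGroup.mk [] : Gam) = 1 := rfl
        rw [e]
        refine ⟨∅, fun v _ l => by rw [one_mul], fun B _ κ => ?_⟩
        simp
    | cons l0 L ih =>
        obtain ⟨A, hA1, hA2⟩ := ih
        have e : (FreeGroup.mk (l0 :: L) : Gam) = el l0 * FreeGroup.mk L := by
          unfold el
          rw [FreeGroup.mul_mk]
          rfl
        rw [e]
        generalize (FreeGroup.mk L : Gam) = t' at hA1 hA2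
        have hne : t' ≠ el l0 * t' := by
          intro h
          exact el_ne h1 h2 l0 (mul_eq_right.1 h.symm)
        have hz : ∀ v, v ≠ t' → v ≠ el l0 * t' → ∀ l,
            kap l (el l0 * t' * v⁻¹) = kap l (t' * v⁻¹) := by
          intro v hv1 hv2 l
          unfold kap
          rw [mul_assoc, h4 l0 (t' * v⁻¹)]
          · intro h
            exact hv1 (mul_inv_eq_one.1 h).symm
          · intro h
            apply hv2
            have h5 : t' = (el l0)⁻¹ * v := by
              rw [← h]; group
            rw [h5]; group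
        refine ⟨A ∪ {t', el l0 * t'}, ?_, ?_⟩
        · intro v hv l
          simp only [Finset.mem_union, Finset.mem_insert, Finset.mem_singleton, not_or] at hv
          rw [hz v hv.2.1 hv.2.2 l, hA1 v hv.1 l]
        · intro B hB κ
          have hBA : A ⊆ B := fun v hv => hB (by simp [hv])
          have hB1 : t' ∈ B := hB (by simp)
          have hB2 : el l0 * t' ∈ B := hB (by simp)
          have h6 := hA2 B hBA κ
          have h7 : ∑ v ∈ B, ∑ l : Fin 3 × Bool, (kap l (el l0 * t' * v⁻¹) - kap l v⁻¹) *
              (κ (el l * v) - κ v) =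
              ∑ v ∈ B, ∑ l : Fin 3 × Bool, (kap l (el l0 * t' * v⁻¹) - kap l (t' * v⁻¹)) *
                (κ (el l * v) - κ v) +
              ∑ v ∈ B, ∑ l : Fin 3 × Bool, (kap l (t' * v⁻¹) - kap l v⁻¹) *
                (κ (el l * v) - κ v) := by
            rw [← Finset.sum_add_distrib]
            refine Finset.sum_congr rfl fun v _ => ?_
            rw [← Finset.sum_add_distrib]
            refine Finset.sum_congr rfl fun l _ => ?_
            ring
          rw [h7, h6]
          have h8 : ∑ v ∈ B, ∑ l : Fin 3 × Bool,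
              (kap l (el l0 * t' * v⁻¹) - kap l (t' * v⁻¹)) * (κ (el l * v) - κ v) =
              (∑ l : Fin 3 × Bool, (kap l (el l0 * t' * t'⁻¹) - kap l (t' * t'⁻¹)) *
                (κ (el l * t') - κ t')) +
              (∑ l : Fin 3 × Bool, (kap l (el l0 * t' * (el l0 * t')⁻¹) -
                kap l (t' * (el l0 * t')⁻¹)) * (κ (el l * (el l0 * t')) - κ (el l0 * t'))) := by
            refine Finset.sum_eq_add_of_mem t' (el l0 * t') hB1 hB2 hne ?_
            intro v _ hv
            refine Finset.sum_eq_zero fun l _ => ?_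
            rw [hz v hv.1 hv.2 l, sub_self, zero_mul]
          rw [h8]
          have e1 : el l0 * t' * t'⁻¹ = el l0 := by group
          have e2 : t' * t'⁻¹ = 1 := by group
          have e3 : el l0 * t' * (el l0 * t')⁻¹ = 1 := by group
          have e4 : t' * (el l0 * t')⁻¹ = el (l0.1, !l0.2) := by
            rw [← h3]; group
          rw [e1, e2, e3, e4]
          simp only [kap_one h1, kap_el h2, sub_zero, zero_sub, ite_mul, one_mul, zero_mul,
            neg_mul, Finset.sum_neg_distrib, Finset.sum_ite_eq',
            Finset.mem_univ, if_true]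
          have e5 : el (l0.1, !l0.2) * (el l0 * t') = t' := by
            rw [← h3]; group
          rw [e5]
          ring
  intro t
  have h9 := key t.toWord
  rw [FreeGroup.mk_toWord] at h9
  exact h9

end Pool.Agent.H194.CG
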