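import Pool.Agent.H194.CG.Defs2

/-!
Measurability of the cut functions.
-/

set_option autoImplicit false
open MeasureTheory
open scoped ENNReal

namespace Pool.Agent.H194.CG

namespace C3

theorem act_mul (g h : Gam) (x : X) : act (g * h) x = act g (act h x) := by
  funext d
  simp [act, mul_assoc]

theorem measurable_act (g : Gam) : Measurable (act g) := by
  rw [measurable_pi_iff]
  intro d
  exact measurable_pi_apply _

theorem countable_Gam : Countable Gam := by
  have h : Function.Injective (FreeGroup.toWord : Gam → List (Fin 3 × Bool)) :=
    FreeGroup.toWord_injective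
  exact h.countable

theorem measurableSet_eq (g h : Gam) : MeasurableSet {x : X | act g x = act h x} := by
  have := countable_Gam
  have : {x : X | act g x = act h x} = ⋂ d : Gam, {x | x (g⁻¹ * d) = x (h⁻¹ * d)} := by
    ext x
    simp [funext_iff, act]
  rw [this]
  exact MeasurableSet.iInter fun d =>
    measurableSet_eq_fun (measurable_pi_apply _) (measurable_pi_apply _)

/-- the points at which there is a step from `act h x` to `act g x` -/
def cutS (T : Set (X × X)) (p q h g : Gam) : Set X :=
  {x | cutRel T (act p x) (act q x) (act h x) (act g x)}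

theorem measurableSet_cutS (T : Set (X × X)) (hT : MeasurableSet T) (p q h g : Gam) :
    MeasurableSet (cutS T p q h g) := by
  have h1 : MeasurableSet {x : X | (act h x, act g x) ∈ T} :=
    ((measurable_act h).prodMk (measurable_act g)) hT
  have e : cutS T p q h g = {x : X | (act h x, act g x) ∈ T} ∩
      (({x | act h x = act p x} ∩ {x | act g x = act q x})ᶜ ∩
        ({x | act h x = act q x} ∩ {x | act g x = act p x})ᶜ) := by
    ext x
    simp [cutS, cutRel]
  rw [e]
  exact h1.inter ((((measurableSet_eq h p).inter (measurableSet_eq g q)).compl).inter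
    (((measurableSet_eq h q).inter (measurableSet_eq g p)).compl))

/-- the points `x` such that `act g x` is reached from `act v x` in at most `n` steps -/
def Rn (T : Set (X × X)) (p q v : Gam) : ℕ → Gam → Set X
  | 0, g => {x | act v x = act g x}
  | (n + 1), g => Rn T p q v n g ∪ ⋃ h : Gam, (Rn T p q v n h ∩ cutS T p q h g)

theorem measurableSet_Rn (T : Set (X × X)) (hT : MeasurableSet T) (p q v : Gam) (n : ℕ) :
    ∀ g, MeasurableSet (Rn T p q v n g) := by
  have := countable_Gam
  induction n with
  | zero => intro g; exact measurableSet_eq v g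
  | succ n ih =>
    intro g
    exact (ih g).union (MeasurableSet.iUnion fun h =>
      (ih h).inter (measurableSet_cutS T hT p q h g))

theorem reach_of_mem (T : Set (X × X)) (p q v : Gam) (x : X) (n : ℕ) :
    ∀ g, x ∈ Rn T p q v n g →
      Relation.ReflTransGen (cutRel T (act p x) (act q x)) (act v x) (act g x) := by
  induction n with
  | zero =>
    intro g hg
    have : act v x = act g x := hg
    rw [this]
  | succ n ih =>
    intro g hg
    rcases hg with hg | hg
    · exact ih g hg
    · obtain ⟨h, hh1, hh2⟩ := Set.mem_iUnion.1 hg
      exact (ih h hh1).tail hh2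

theorem mem_of_reach (T : Set (X × X)) (hE : T ⊆ EE) (p q v : Gam) (x : X) (c : X)
    (h : Relation.ReflTransGen (cutRel T (act p x) (act q x)) (act v x) c) :
    ∃ n g, c = act g x ∧ x ∈ Rn T p q v n g := by
  induction h with
  | refl => exact ⟨0, v, rfl, rfl⟩
  | tail h1 h2 ih =>
    rename_i c d
    obtain ⟨n, g, rfl, hg⟩ := ih
    have h3 := hE h2.1
    rcases h3 with h3 | ⟨_, k, hk⟩
    · exact ⟨n, g, h3.symm, hg⟩
    · simp only at hk
      rw [← act_mul] at hk
      refine ⟨n + 1, k * g, hk, Or.inr ?_⟩
      rw [Set.mem_iUnion]
      refine ⟨g, hg, ?_⟩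
      rw [hk] at h2
      exact h2

end C3

open C3 in
theorem thm_cutM : S_cutM := by
  intro T hT hE p q v
  have := countable_Gam
  have hs : MeasurableSet {x : X |
      Relation.ReflTransGen (cutRel T (act p x) (act q x)) (act v x) (act q x)} := by
    have e : {x : X |
        Relation.ReflTransGen (cutRel T (act p x) (act q x)) (act v x) (act q x)} =
        ⋃ n : ℕ, ⋃ g : Gam, ({x | act q x = act g x} ∩ Rn T p q v n g) := by
      ext x
      simp only [Set.mem_ofPred_eq, Set.mem_iUnion, Set.mem_inter_iff]
      constructor
      · exact mem_of_reach T hE p q v x _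
      · rintro ⟨n, g, h1, h2⟩
        rw [h1]
        have := reach_of_mem T p q v x n g h2
        rw [h1] at this
        exact this
    rw [e]
    exact MeasurableSet.iUnion fun n => MeasurableSet.iUnion fun g =>
      (measurableSet_eq q g).inter (measurableSet_Rn T hT p q v n g)
  unfold sg
  exact Measurable.ite hs measurable_const measurable_const

end Pool.Agent.H194.CG
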