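import Pool.Agent.H194.CG.Defs2

/-! Task C4 (helper613): edges of an acyclic graph are bridges. -/

set_option autoImplicit false

namespace Pool.Agent.H194.CG

theorem thm_bridge : S_bridge := by
  intro T hsym hac a b hab hne hr
  have hadj : (gr T).Adj a b := by
    unfold gr
    rw [SimpleGraph.fromRel_adj]
    exact ⟨hne, Or.inl hab⟩
  have hbr := (SimpleGraph.isAcyclic_iff_forall_edge_isBridge.mp hac)
    ((SimpleGraph.mem_edgeSet _).mpr hadj)
  rw [SimpleGraph.isBridge_iff] at hbr
  apply hbr
  clear hbr hac hab hadj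
  have key : ∀ c, Relation.ReflTransGen (cutRel T a b) a c →
      ((gr T).deleteEdges {s(a, b)}).Reachable a c := by
    intro c hc
    induction hc with
    | refl => exact SimpleGraph.Reachable.refl _
    | @tail c d _ hcd ih =>
      by_cases hcd' : c = d
      · rw [← hcd']; exact ih
      · refine ih.trans (SimpleGraph.Adj.reachable ?_)
        rw [SimpleGraph.deleteEdges_adj]
        refine ⟨?_, ?_⟩
        · unfold gr
          rw [SimpleGraph.fromRel_adj]
          exact ⟨hcd', Or.inl hcd.1⟩
        · rw [Set.mem_singleton_iff, Sym2.eq_iff]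
          rintro (⟨h1, h2⟩ | ⟨h1, h2⟩)
          · exact hcd.2.1 ⟨h1, h2⟩
          · exact hcd.2.2 ⟨h1, h2⟩
  exact key b hr

end Pool.Agent.H194.CG
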