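import Pool.Agent.H194.CG.Defs2

set_option autoImplicit false
open MeasureTheory
open scoped ENNReal

namespace Pool.Agent.H194.CG

namespace C5

theorem act_act (g h : Gam) (x : X) : act g (act h x) = act (g * h) x := by
  funext d
  simp only [act, mul_inv_rev, mul_assoc]

theorem act_one (x : X) : act 1 x = x := by
  funext d
  simp only [act, inv_one, one_mul]

/-- the exponent sum of `a` -/
def ea : Gam →* Multiplicative ℤ :=
  FreeGroup.lift (fun j : Fin 3 => if j = 0 then Multiplicative.ofAdd 1 else 1)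

/-- additive form -/
def en (g : Gam) : ℤ := Multiplicative.toAdd (ea g)

theorem en_mul (g h : Gam) : en (g * h) = en g + en h := by
  unfold en
  rw [map_mul, toAdd_mul]

theorem en_one : en 1 = 0 := by
  unfold en
  rw [map_one, toAdd_one]

theorem en_inv (g : Gam) : en g⁻¹ = - en g := by
  unfold en
  rw [map_inv, toAdd_inv]

theorem en_pow (g : Gam) (n : ℕ) : en (g ^ n) = n * en g := by
  unfold en
  rw [map_pow, toAdd_pow, nsmul_eq_mul]

theorem en_ga : en ga = 1 := by
  unfold en ea ga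
  rw [FreeGroup.lift_apply_of]
  simp

theorem en_gb (i : Fin 2) : en (gb i) = 0 := by
  unfold en ea gb
  rw [FreeGroup.lift_apply_of, if_neg (Fin.succ_ne_zero i), toAdd_one]

theorem en_ww (i : Fin 2) (L : ℕ) : 1 ≤ en (ww i (L + 1)) := by
  induction L with
  | zero =>
    show 1 ≤ en (ga ^ nn 0 * gb i * ww i 0)
    have e0 : ww i 0 = (gb i)⁻¹ := rfl
    rw [e0, en_mul, en_mul, en_pow, en_inv, en_ga, en_gb]
    have : nn 0 = 1 := by decide
    rw [this]
    norm_num
  | succ L ih =>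
    show 1 ≤ en (ga ^ nn (L + 1) * gb i * ww i (L + 1))
    rw [en_mul, en_mul, en_pow, en_ga, en_gb]
    have : (0 : ℤ) ≤ (nn (L + 1) : ℤ) := Int.natCast_nonneg _
    linarith

theorem en_cc (i : Fin 2) (L : ℕ) (hL : 1 ≤ L) : 1 ≤ en (cc i L) := by
  obtain ⟨m, rfl⟩ : ∃ m, L = m + 1 := ⟨L - 1, by omega⟩
  unfold cc
  rw [en_mul, en_gb, zero_add]
  exact en_ww i m

theorem en_dd (i : Fin 2) (L : ℕ) (hL : 1 ≤ L) : en (dd i L) ≤ -1 := by
  unfold dd
  rw [en_mul, en_inv, en_gb]
  have := en_cc i L hL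
  linarith

theorem ne_one_of_en {g : Gam} (h : en g ≠ 0) : g ≠ 1 := by
  rintro rfl
  exact h en_one

theorem mem_Spm {L : ℕ} {t : Gam} : t ∈ Spm L ↔ (t = ga ∨ t = ga⁻¹) ∨
    ∃ i : Fin 2, t = cc i L ∨ t = (cc i L)⁻¹ ∨ t = dd i L ∨ t = (dd i L)⁻¹ := by
  unfold Spm
  simp only [Finset.mem_union, Finset.mem_insert, Finset.mem_singleton, Finset.mem_biUnion,
    Finset.mem_univ, true_and]

theorem Spm_ne {L : ℕ} (hL : 1 ≤ L) {t : Gam} (ht : t ∈ Spm L) : t ≠ 1 := by
  apply ne_one_of_en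
  rcases mem_Spm.mp ht with (rfl | rfl) | ⟨i, rfl | rfl | rfl | rfl⟩
  · rw [en_ga]; norm_num
  · rw [en_inv, en_ga]; norm_num
  · have := en_cc i L hL
    omega
  · rw [en_inv]
    have := en_cc i L hL
    omega
  · have := en_dd i L hL
    omega
  · rw [en_inv]
    have := en_dd i L hL
    omega

theorem Spm_of_SG {L : ℕ} {s : Gam} (hs : s ∈ SG L) : s ∈ Spm L ∧ s⁻¹ ∈ Spm L := by
  rcases hs with rfl | ⟨i, rfl | rfl⟩
  · exact ⟨mem_Spm.mpr (Or.inl (Or.inl rfl)), mem_Spm.mpr (Or.inl (Or.inr rfl))⟩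
  · exact ⟨mem_Spm.mpr (Or.inr ⟨i, Or.inl rfl⟩), mem_Spm.mpr (Or.inr ⟨i, Or.inr (Or.inl rfl)⟩)⟩
  · exact ⟨mem_Spm.mpr (Or.inr ⟨i, Or.inr (Or.inr (Or.inl rfl))⟩),
      mem_Spm.mpr (Or.inr ⟨i, Or.inr (Or.inr (Or.inr rfl))⟩)⟩

/-- freeness -/
theorem free {x : X} (hx : x ∈ Fr) {g h : Gam} (e : act g x = act h x) : g = h := by
  have h1 : act (h⁻¹ * g) x = x := by
    rw [← act_act, e, act_act, inv_mul_cancel, act_one]
  have h2 := hx _ h1
  exact (inv_mul_eq_one.mp h2).symm

/-- adjacency of `T` in terms of the generators -/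
theorem adj {L : ℕ} {T : Set (X × X)} (hT : T ⊆ Cay (SG L)) {x : X} (hx : x ∈ Fr) {p q : Gam}
    (h : (act p x, act q x) ∈ T) : ∃ t ∈ Spm L, q = t * p := by
  obtain ⟨_, s, hs, h1⟩ := hT h
  simp only at h1
  rcases h1 with h1 | h1
  · rw [act_act] at h1
    exact ⟨s, (Spm_of_SG hs).1, free hx h1⟩
  · rw [act_act] at h1
    refine ⟨s⁻¹, (Spm_of_SG hs).2, ?_⟩
    rw [free hx h1]
    group

theorem sub_EE {L : ℕ} {T : Set (X × X)} (hT : T ⊆ Cay (SG L)) : T ⊆ EE := by
  rintro ⟨x, y⟩ h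
  obtain ⟨hx, s, _, h1⟩ := hT h
  simp only at hx h1
  refine Or.inr ⟨hx, ?_⟩
  simp only
  rcases h1 with h1 | h1
  · exact ⟨s, h1⟩
  · refine ⟨s⁻¹, ?_⟩
    rw [h1, act_act, inv_mul_cancel, act_one]

open Classical in
/-- the transported function -/
noncomputable def GG (T : Set (X × X)) (p q w w' : Gam) (x : X) : ℝ :=
  if (act p x, act q x) ∈ T then
    sg T (act p x) (act q x) (act w' x) - sg T (act p x) (act q x) (act w x) else 0

theorem sg_nonneg (T : Set (X × X)) (a b c : X) : 0 ≤ sg T a b c := by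
  unfold sg
  split_ifs
  · exact zero_le_one
  · exact le_rfl

theorem sg_le (T : Set (X × X)) (a b c : X) : sg T a b c ≤ 1 := by
  unfold sg
  split_ifs
  · exact le_rfl
  · exact zero_le_one

theorem GG_le (T : Set (X × X)) (p q w w' : Gam) (x : X) : ‖GG T p q w w' x‖ ≤ 1 := by
  unfold GG
  rw [Real.norm_eq_abs]
  split_ifs
  · have h1 := sg_nonneg T (act p x) (act q x) (act w' x)
    have h2 := sg_nonneg T (act p x) (act q x) (act w x)
    have h3 := sg_le T (act p x) (act q x) (act w' x)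
    have h4 := sg_le T (act p x) (act q x) (act w x)
    rw [abs_le]
    constructor <;> linarith
  · norm_num

theorem GG_act (T : Set (X × X)) (t v w : Gam) (y : X) :
    GG T 1 t v (w * v) (act v⁻¹ y) = GG T v⁻¹ (t * v⁻¹) 1 w y := by
  unfold GG
  rw [act_one (act v⁻¹ y), act_act t v⁻¹ y, act_act (w * v) v⁻¹ y, act_act v v⁻¹ y,
    mul_inv_cancel, mul_inv_cancel_right]

theorem meas_set (h1 : S_mp) {T : Set (X × X)} (hT : MeasurableSet T) (p q : Gam) :
    MeasurableSet {x : X | (act p x, act q x) ∈ T} :=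
  measurableSet_preimage ((h1 p).measurable.prodMk (h1 q).measurable) hT

theorem GG_meas (h1 : S_mp) (h4 : S_cutM) {T : Set (X × X)} (hT : MeasurableSet T) (hE : T ⊆ EE)
    (p q w w' : Gam) : Measurable (GG T p q w w') := by
  unfold GG
  exact Measurable.ite (meas_set h1 hT p q) ((h4 T hT hE p q w').sub (h4 T hT hE p q w))
    measurable_const

theorem GG_int (h1 : S_mp) (h4 : S_cutM) {T : Set (X × X)} (hT : MeasurableSet T) (hE : T ⊆ EE)
    (p q w w' : Gam) : Integrable (GG T p q w w') mu :=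
  Integrable.of_bound (GG_meas h1 h4 hT hE p q w w').aestronglyMeasurable 1
    (Filter.Eventually.of_forall (GG_le T p q w w'))

theorem GG_shift (h1 : S_mp) (h4 : S_cutM) {T : Set (X × X)} (hT : MeasurableSet T) (hE : T ⊆ EE)
    (t v w : Gam) : ∫ x, GG T 1 t v (w * v) x ∂mu = ∫ x, GG T v⁻¹ (t * v⁻¹) 1 w x ∂mu := by
  have e := h1 v⁻¹
  have h := integral_map (μ := mu) (φ := act v⁻¹) e.measurable.aemeasurable
    (f := GG T 1 t v (w * v)) (GG_meas h1 h4 hT hE 1 t v (w * v)).aestronglyMeasurable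
  rw [e.map_eq] at h
  rw [h]
  exact integral_congr_ae (Filter.Eventually.of_forall (fun y => GG_act T t v w y))

end C5

open C5

theorem thm_mass (h1 : S_mp) (h2 : S_KG) (h3 : S_TG) (h4 : S_cutM) (h5 : S_bridge) (h6 : S_frM)
    (h7 : S_frI) (h8 : S_frN) (h9 : S_last) : S_mass := by
  classical
  intro L hL T hT hTm hsym hcon hacy
  have hE : T ⊆ EE := sub_EE hT
  choose A hA1 hA2 using h2
  set N := Spm L with hN
  set B : Finset Gam := N.biUnion A with hB
  have hAB : ∀ t ∈ N, A t ⊆ B := fun t ht => Finset.subset_biUnion_of_mem A ht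
  have hFr : ∀ᵐ x ∂mu, x ∈ Fr := by
    rw [ae_iff]
    exact h8
  have hIm : ∀ t : Gam, MeasurableSet {x : X | (x, act t x) ∈ T} := by
    intro t
    have := meas_set h1 hTm 1 t
    simpa only [act_one] using this
  -- the first formula
  have F1 : ∀ x ∈ Fr, ∀ t ∈ N, ∑ v ∈ B, ∑ l : Fin 3 × Bool,
      (kap l (t * v⁻¹) - kap l v⁻¹) * GG T 1 t v (el l * v) x =
      2 * Set.indicator {x : X | (x, act t x) ∈ T} (fun _ => (1 : ℝ)) x := by
    intro x hx t ht
    by_cases hxt : (x, act t x) ∈ T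
    · have hne : x ≠ act t x := by
        intro e
        exact Spm_ne (by omega) ht (hx t e.symm)
      have hb := h5 T hsym hacy x (act t x) hxt hne
      have hk := hA2 t B (hAB t ht) (fun u => sg T x (act t x) (act u x))
      have k1 : sg T x (act t x) (act t x) = 1 := by
        unfold sg
        rw [if_pos Relation.ReflTransGen.refl]
      have k0 : sg T x (act t x) (act 1 x) = 0 := by
        unfold sg
        rw [act_one, if_neg hb]
      rw [k1, k0] at hk
      have hi : Set.indicator {x : X | (x, act t x) ∈ T} (fun _ => (1 : ℝ)) x = 1 :=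
        if_pos hxt
      rw [hi]
      rw [← sub_zero (1 : ℝ), ← hk]
      apply Finset.sum_congr rfl
      intro v _
      apply Finset.sum_congr rfl
      intro l _
      congr 1
      unfold GG
      rw [act_one, if_pos hxt]
    · have hi : Set.indicator {x : X | (x, act t x) ∈ T} (fun _ => (1 : ℝ)) x = 0 :=
        if_neg hxt
      rw [hi, mul_zero]
      apply Finset.sum_eq_zero
      intro v _
      apply Finset.sum_eq_zero
      intro l _
      have : GG T 1 t v (el l * v) x = 0 := by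
        unfold GG
        rw [act_one, if_neg hxt]
      rw [this, mul_zero]
  -- the second formula
  have F2 : ∀ l : Fin 3 × Bool, ∀ y ∈ Fr,
      (∀ g : Gam, Relation.ReflTransGen (fun a b => (a, b) ∈ T) y (act g y)) →
      ∑ t ∈ N, ∑ v ∈ B, (kap l (t * v⁻¹) - kap l v⁻¹) * GG T v⁻¹ (t * v⁻¹) 1 (el l) y = 2 := by
    intro l y hy hcy
    have hP := h3 T hE hsym hacy y hy hcy (kap l)
      ((N ×ˢ B).image (fun e : Gam × Gam => (e.2⁻¹, e.1 * e.2⁻¹)))
      (by
        intro p q hpq hne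
        obtain ⟨t, ht, rfl⟩ := adj hT hy hpq
        rw [Finset.mem_image]
        refine ⟨(t, p⁻¹), ?_, by simp⟩
        rw [Finset.mem_product]
        refine ⟨ht, ?_⟩
        by_contra hp
        apply hne
        have hp' : p⁻¹ ∉ A t := fun h => hp (hAB t ht h)
        have := hA1 t p⁻¹ hp' l
        rw [inv_inv] at this
        exact this.symm)
      1 (el l)
    rw [Finset.sum_image, Finset.sum_product] at hP
    · have k1 : kap l (el l) = 1 := by
        unfold kap
        rw [if_pos (h9.2.1 l)]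
      have k0 : kap l 1 = 0 := by
        unfold kap
        rw [h9.1, if_neg (by simp)]
      rw [k1, k0] at hP
      rw [show (2 : ℝ) = 2 * (1 - 0) by norm_num, ← hP]
      apply Finset.sum_congr rfl
      intro t _
      apply Finset.sum_congr rfl
      intro v _
      simp only
      unfold GG
      split_ifs
      · rfl
      · rw [mul_zero]
    · rintro ⟨t, v⟩ _ ⟨t', v'⟩ _ he
      simp only [Prod.mk.injEq, inv_inj] at he
      obtain ⟨e1, e2⟩ := he
      subst e1
      rw [mul_left_inj] at e2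
      rw [e2]
  -- integration
  have I1 : ∀ t ∈ N, 2 * mu.real {x : X | (x, act t x) ∈ T} =
      ∑ v ∈ B, ∑ l : Fin 3 × Bool,
        (kap l (t * v⁻¹) - kap l v⁻¹) * ∫ x, GG T v⁻¹ (t * v⁻¹) 1 (el l) x ∂mu := by
    intro t ht
    have e1 : ∫ x, 2 * Set.indicator {x : X | (x, act t x) ∈ T} (fun _ => (1 : ℝ)) x ∂mu =
        2 * mu.real {x : X | (x, act t x) ∈ T} := by
      rw [integral_const_mul, integral_indicator_const _ (hIm t), smul_eq_mul, mul_one]
    rw [← e1]
    have e2 : ∫ x, 2 * Set.indicator {x : X | (x, act t x) ∈ T} (fun _ => (1 : ℝ)) x ∂mu =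
        ∫ x, ∑ v ∈ B, ∑ l : Fin 3 × Bool,
          (kap l (t * v⁻¹) - kap l v⁻¹) * GG T 1 t v (el l * v) x ∂mu := by
      apply integral_congr_ae
      filter_upwards [hFr] with x hx
      exact (F1 x hx t ht).symm
    rw [e2, integral_finsetSum]
    · apply Finset.sum_congr rfl
      intro v _
      rw [integral_finsetSum]
      · apply Finset.sum_congr rfl
        intro l _
        rw [integral_const_mul, GG_shift h1 h4 hTm hE t v (el l)]
      · intro l _
        exact (GG_int h1 h4 hTm hE _ _ _ _).const_mul _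
    · intro v _
      apply integrable_finsetSum
      intro l _
      exact (GG_int h1 h4 hTm hE _ _ _ _).const_mul _
  have I2 : ∀ l : Fin 3 × Bool, ∑ t ∈ N, ∑ v ∈ B,
      (kap l (t * v⁻¹) - kap l v⁻¹) * ∫ x, GG T v⁻¹ (t * v⁻¹) 1 (el l) x ∂mu = 2 := by
    intro l
    have e2 : ∫ x, (∑ t ∈ N, ∑ v ∈ B,
        (kap l (t * v⁻¹) - kap l v⁻¹) * GG T v⁻¹ (t * v⁻¹) 1 (el l) x) ∂mu = 2 := by
      have : ∫ _x : X, (2 : ℝ) ∂mu = 2 := by
        rw [integral_const]
        simp
      rw [← this]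
      apply integral_congr_ae
      filter_upwards [hFr, hcon] with x hx hxc
      exact F2 l x hx hxc
    rw [← e2, integral_finsetSum]
    · apply Finset.sum_congr rfl
      intro t _
      rw [integral_finsetSum]
      · apply Finset.sum_congr rfl
        intro v _
        rw [integral_const_mul]
      · intro v _
        exact (GG_int h1 h4 hTm hE _ _ _ _).const_mul _
    · intro t _
      apply integrable_finsetSum
      intro v _
      exact (GG_int h1 h4 hTm hE _ _ _ _).const_mul _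
  have I3 : ∑ t ∈ N, 2 * mu.real {x : X | (x, act t x) ∈ T} = 12 := by
    rw [Finset.sum_congr rfl I1]
    have e : ∀ t ∈ N, ∑ v ∈ B, ∑ l : Fin 3 × Bool,
        (kap l (t * v⁻¹) - kap l v⁻¹) * ∫ x, GG T v⁻¹ (t * v⁻¹) 1 (el l) x ∂mu =
        ∑ l : Fin 3 × Bool, ∑ v ∈ B,
        (kap l (t * v⁻¹) - kap l v⁻¹) * ∫ x, GG T v⁻¹ (t * v⁻¹) 1 (el l) x ∂mu :=
      fun t _ => Finset.sum_comm
    rw [Finset.sum_congr rfl e, Finset.sum_comm, Finset.sum_congr rfl (fun l _ => I2 l)]
    simp
    norm_num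
  rw [← Finset.mul_sum] at I3
  linarith

end Pool.Agent.H194.CG
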