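import Pool.Agent.H194.CG.Defs2

set_option autoImplicit false
open MeasureTheory
open scoped ENNReal

namespace Pool.Agent.H194.CG

namespace C6

theorem act_act (g h : Gam) (x : X) : act g (act h x) = act (g * h) x := by
  funext d
  simp only [act]
  rw [mul_inv_rev, mul_assoc]

theorem act_one (x : X) : act 1 x = x := by
  funext d
  simp only [act]
  rw [inv_one, one_mul]

theorem act_meas (g : Gam) : Measurable (act g) := by
  refine measurable_pi_lambda _ fun d => ?_
  exact measurable_pi_apply _

theorem mem_spm {L : ℕ} {s : Gam} (hs : s ∈ SG L) : s ∈ Spm L ∧ s⁻¹ ∈ Spm L := by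
  classical
  rcases hs with rfl | ⟨i, rfl | rfl⟩
  · constructor <;> simp [Spm]
  · constructor
    · refine Finset.mem_union_right _ (Finset.mem_biUnion.2 ⟨i, Finset.mem_univ _, ?_⟩)
      simp
    · refine Finset.mem_union_right _ (Finset.mem_biUnion.2 ⟨i, Finset.mem_univ _, ?_⟩)
      simp
  · constructor
    · refine Finset.mem_union_right _ (Finset.mem_biUnion.2 ⟨i, Finset.mem_univ _, ?_⟩)
      simp
    · refine Finset.mem_union_right _ (Finset.mem_biUnion.2 ⟨i, Finset.mem_univ _, ?_⟩)
      simp

end C6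

open C6 in
theorem thm_treeT (h : S_mass) : S_treeT := by
  classical
  intro L hL T hT hTm hsym hgen hac
  have hms : ∀ t : Gam, MeasurableSet {x : X | (x, act t x) ∈ T} := fun t =>
    (measurable_id.prodMk (act_meas t)) hTm
  have hpt : ∀ x : X, ENat.toENNReal (Set.encard {y | (x, y) ∈ T}) ≤
      ∑ t ∈ Spm L, Set.indicator {x : X | (x, act t x) ∈ T} (fun _ => (1 : ℝ≥0∞)) x := by
    intro x
    have h1 : {y | (x, y) ∈ T} ⊆
        (((Spm L).filter (fun t => (x, act t x) ∈ T)).image (fun t => act t x) : Finset X) := by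
      intro y hy
      obtain ⟨hx, s, hs, hsy⟩ := hT hy
      obtain ⟨hs1, hs2⟩ := mem_spm hs
      rw [Finset.mem_coe, Finset.mem_image]
      rcases hsy with hsy | hsy
      · change y = act s x at hsy
        refine ⟨s, Finset.mem_filter.2 ⟨hs1, ?_⟩, hsy.symm⟩
        rw [← hsy]
        exact hy
      · change x = act s y at hsy
        have h2 : act s⁻¹ x = y := by
          rw [hsy, act_act, inv_mul_cancel, act_one]
        refine ⟨s⁻¹, Finset.mem_filter.2 ⟨hs2, ?_⟩, h2⟩
        rw [h2]
        exact hy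
    have h3 : ENat.toENNReal (Set.encard {y | (x, y) ∈ T}) ≤
        (((Spm L).filter (fun t => (x, act t x) ∈ T)).card : ℝ≥0∞) := by
      have h4 : Set.encard {y | (x, y) ∈ T} ≤
          (((Spm L).filter (fun t => (x, act t x) ∈ T)).card : ℕ∞) := by
        refine (Set.encard_le_encard h1).trans ?_
        rw [Set.encard_coe_eq_coe_finsetCard]
        exact_mod_cast Finset.card_image_le
      have h5 := ENat.toENNReal_le.2 h4
      rwa [ENat.toENNReal_coe] at h5
    refine h3.trans (le_of_eq ?_)
    rw [Finset.card_filter, Nat.cast_sum]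
    refine Finset.sum_congr rfl fun t _ => ?_
    by_cases ht : (x, act t x) ∈ T
    · rw [if_pos ht, Set.indicator_of_mem (by exact ht)]
      simp
    · rw [if_neg ht, Set.indicator_of_notMem (by exact ht)]
      simp
  calc ∫⁻ x, ENat.toENNReal (Set.encard {y | (x, y) ∈ T}) ∂mu
      ≤ ∫⁻ x, ∑ t ∈ Spm L, Set.indicator {x : X | (x, act t x) ∈ T}
          (fun _ => (1 : ℝ≥0∞)) x ∂mu := lintegral_mono hpt
    _ = ∑ t ∈ Spm L, mu {x : X | (x, act t x) ∈ T} := by
        rw [lintegral_finsetSum _ fun t _ => measurable_const.indicator (hms t)]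
        refine Finset.sum_congr rfl fun t _ => ?_
        rw [lintegral_indicator (hms t), lintegral_const, Measure.restrict_apply_univ, one_mul]
    _ = ∑ t ∈ Spm L, ENNReal.ofReal (mu.real {x : X | (x, act t x) ∈ T}) := by
        refine Finset.sum_congr rfl fun t _ => ?_
        rw [ofReal_measureReal (measure_ne_top _ _)]
    _ = ENNReal.ofReal (∑ t ∈ Spm L, mu.real {x : X | (x, act t x) ∈ T}) := by
        rw [ENNReal.ofReal_sum_of_nonneg fun t _ => measureReal_nonneg]
    _ = ENNReal.ofReal 6 := by rw [h L hL T hT hTm hsym hgen hac]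
    _ ≤ 6 := by simp

end Pool.Agent.H194.CG
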