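import Pool.Agent.H194.CG.Defs2

/-!
Task C7: the cheap graphing is acyclic.
-/

set_option autoImplicit false

namespace Pool.Agent.H194.CG

namespace C7

theorem act_mul (g h : Gam) (x : X) : act g (act h x) = act (g * h) x := by
  funext d
  simp only [act, mul_inv_rev, mul_assoc]

theorem act_one (x : X) : act 1 x = x := by
  funext d
  simp only [act, inv_one, one_mul]

theorem free_inj {x : X} (hx : x ∈ Fr) {u v : Gam} (h : act u x = act v x) : u = v := by
  have h1 : act (v⁻¹ * u) x = x := by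
    rw [← act_mul, h, act_mul, inv_mul_cancel, act_one]
  have h2 : v⁻¹ * u = 1 := hx _ h1
  rw [inv_mul_eq_one] at h2
  exact h2.symm

/-- every generator is a letter -/
theorem gen_letter {s : Gam} (hs : s ∈ SK) : ∃ l : Fin 3 × Bool, s = el l := by
  rcases hs with rfl | ⟨i, rfl⟩
  · exact ⟨(0, true), rfl⟩
  · exact ⟨(i.succ, true), rfl⟩

theorem cay_step (h1 : S_last) (h2 : S_frI) {x y : X} (h : (x, y) ∈ Cay SK) :
    (x ∈ Fr ∧ ∃ l : Fin 3 × Bool, y = act (el l) x) ∧
    (y ∈ Fr ∧ ∃ l : Fin 3 × Bool, x = act (el l) y) := by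
  obtain ⟨hx, s, hs, hh⟩ := h
  obtain ⟨l, rfl⟩ := gen_letter hs
  simp only at hx hh
  have hinv := h1.2.2.1 l
  rcases hh with hh | hh
  · have e1 : x = act (el (l.1, !l.2)) y := by
      rw [← hinv, hh, act_mul, inv_mul_cancel, act_one]
    refine ⟨⟨hx, l, hh⟩, ?_, _, e1⟩
    rw [hh]; exact h2 x hx _
  · have e1 : y = act (el (l.1, !l.2)) x := by
      rw [← hinv, hh, act_mul, inv_mul_cancel, act_one]
    refine ⟨⟨hx, _, e1⟩, ?_, l, hh⟩
    rw [e1]; exact h2 x hx _

theorem adj_step (h1 : S_last) (h2 : S_frI) {x y : X} (h : (gr (Cay SK)).Adj x y) :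
    x ∈ Fr ∧ ∃ l : Fin 3 × Bool, y = act (el l) x := by
  unfold gr at h
  rw [SimpleGraph.fromRel_adj] at h
  rcases h.2 with h | h
  · exact (cay_step h1 h2 h).1
  · exact (cay_step h1 h2 h).2

theorem invariant (h1 : S_last) (h2 : S_frI) {x y : X} {l : Fin 3 × Bool}
    (hy : y = act (el l) x) {z : X}
    (hz : Relation.ReflTransGen ((gr (Cay SK)).deleteEdges {s(x, y)}).Adj x z) :
    ∃ u : Gam, z = act u x ∧ lst u ≠ some l := by
  induction hz with
  | refl => exact ⟨1, (act_one x).symm, by rw [h1.1]; simp⟩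
  | @tail b c _ hbc ih =>
    obtain ⟨u, hu, hl⟩ := ih
    rw [SimpleGraph.deleteEdges_adj] at hbc
    obtain ⟨hadj, hne⟩ := hbc
    obtain ⟨_, m, hm⟩ := adj_step h1 h2 hadj
    refine ⟨el m * u, by rw [hm, hu, act_mul], fun hcon => ?_⟩
    by_cases hu1 : u = 1
    · subst hu1
      rw [mul_one, h1.2.1 m] at hcon
      have hml : m = l := Option.some_injective _ hcon
      subst hml
      rw [act_one] at hu
      apply hne
      rw [hm, hu, hy]
      exact Set.mem_singleton _
    · by_cases hu2 : u = (el m)⁻¹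
      · rw [hu2, mul_inv_cancel, h1.1] at hcon
        exact absurd hcon (by simp)
      · rw [h1.2.2.2 m u hu1 hu2] at hcon
        exact hl hcon

end C7

theorem thm_acyK (h1 : S_last) (h2 : S_frI) : S_acyK := by
  unfold S_acyK
  rw [SimpleGraph.isAcyclic_iff_forall_isBridge]
  intro e he
  induction e using Sym2.ind with
  | _ x y =>
    rw [SimpleGraph.isBridge_iff]
    intro hreach
    have hadj : (gr (Cay SK)).Adj x y := by simpa using he
    obtain ⟨hx, l, hy⟩ := C7.adj_step h1 h2 hadj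
    rw [SimpleGraph.reachable_iff_reflTransGen] at hreach
    obtain ⟨u, hu, hl⟩ := C7.invariant h1 h2 hy hreach
    have : u = el l := C7.free_inj hx (hu.symm.trans hy)
    rw [this] at hl
    exact hl (h1.2.1 l)

end Pool.Agent.H194.CG
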