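import Mathlib

/-!
Graphings all of whose generating subgraphs are expensive
(MP_3c3805_lc: negative answer; MP_cc4ad1_lc: negative answer).  Definitions and the statements
`S_...` of all steps (see the table h194c_tasks).
-/

set_option autoImplicit false
open MeasureTheory
open scoped ENNReal

namespace Pool.Agent.H194.CG

/-! ### the free group of rank three, words -/

/-- The free group of rank three. -/
abbrev Gam := FreeGroup (Fin 3)

/-- the separator generator `a` -/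
def ga : Gam := FreeGroup.of 0

/-- the two generators `b_0`, `b_1` which are detoured -/
def gb (i : Fin 2) : Gam := FreeGroup.of i.succ

/-- `0, 1, 3, 9, 27, ...` -/
def ee : ℕ → ℕ
  | 0 => 0
  | (j + 1) => 3 ^ j

/-- `nn j = ee (j+1) - ee j`: `1, 2, 6, 18, ...` -/
def nn (j : ℕ) : ℕ := ee (j + 1) - ee j

/-- `ww i 0 = b⁻¹`, `ww i (j+1) = a ^ nn j * b * ww i j`. -/
def ww (i : Fin 2) : ℕ → Gam
  | 0 => (gb i)⁻¹
  | (j + 1) => ga ^ nn j * gb i * ww i j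

/-- The far vertex of the detour. -/
def cc (i : Fin 2) (L : ℕ) : Gam := gb i * ww i L

/-- The second half of the detour: `dd i L * cc i L = gb i`. -/
def dd (i : Fin 2) (L : ℕ) : Gam := gb i * (cc i L)⁻¹

/-- first letter of the reduced word -/
def fst (g : Gam) : Option (Fin 3 × Bool) := g.toWord.head?

/-- last letter of the reduced word -/
def lst (g : Gam) : Option (Fin 3 × Bool) := g.toWord.getLast?

/-- `side i g`: the last letter of the reduced word of `g` is `b_i`. -/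
def side (i : Fin 2) (g : Gam) : Prop := lst g = some (i.succ, true)

/-- The walls (edges `(γ, b_i γ)` of the left Cayley graph) which separate `u` from `v`. -/
def Sep (i : Fin 2) (u v : Gam) : Set Gam := {γ | ¬ (side i (u * γ⁻¹) ↔ side i (v * γ⁻¹))}

/-- The subgroup of the moves which cross no wall of type `i`. -/
def Lam (i : Fin 2) : Subgroup Gam := Subgroup.closure {ga, gb (i + 1)}

open Classical in
/-- the number of `j` in `1..L` with `ww i j * γ ∈ M` -/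
noncomputable def cnt (i : Fin 2) (L : ℕ) (M : Set Gam) (γ : Gam) : ℕ :=
  ((Finset.Icc 1 L).filter (fun j => ww i j * γ ∈ M)).card

/-! statements about words -/

def S_fstb : Prop := ∀ (i : Fin 2) (g : Gam), fst g ≠ some (i.succ, false) →
  fst (gb i * g) = some (i.succ, true)

def S_fstbi : Prop := ∀ (i : Fin 2) (g : Gam), fst g ≠ some (i.succ, true) →
  fst ((gb i)⁻¹ * g) = some (i.succ, false)

def S_fsta : Prop := ∀ (n : ℕ) (g : Gam) (i : Fin 2) (e : Bool), 1 ≤ n →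
  fst g = some (i.succ, e) → fst (ga ^ n * g) = some (0, true)

def S_fstai : Prop := ∀ (n : ℕ) (g : Gam) (i : Fin 2) (e : Bool), 1 ≤ n →
  fst g = some (i.succ, e) → fst ((ga ^ n)⁻¹ * g) = some (0, false)

def S_sidea : Prop := ∀ (i : Fin 2) (g : Gam), side i (ga * g) ↔ side i g

def S_sideo : Prop := ∀ (i : Fin 2) (g : Gam), side i (gb (i + 1) * g) ↔ side i g

def S_sideb : Prop := (∀ (i : Fin 2) (g : Gam), g ≠ 1 → (side i (gb i * g) ↔ side i g)) ∧
  (∀ i : Fin 2, ¬ side i 1) ∧ (∀ i : Fin 2, side i (gb i))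

/-- ping-pong regions for the elements `ww i j`, `j ≥ 1` -/
def S_regions : Prop := ∀ i : Fin 2, ∃ R Mid : ℕ → Set Gam,
  (∀ j k, 1 ≤ j → 1 ≤ k → j ≠ k → Disjoint (R j) (R k)) ∧
  (∀ (g : Gam) (s : Finset ℕ), (∀ j ∈ s, 1 ≤ j ∧ g ∈ Mid j) → s.card ≤ 2) ∧
  (∀ j, 1 ≤ j → ∀ g : Gam, g ∉ Mid j → ww i j * g ∈ R j)

def S_sepL : Prop := ∀ (i : Fin 2) (u l : Gam), l ∈ Lam i → Sep i u (l * u) = ∅

def S_sepB : Prop := ∀ (i : Fin 2) (u : Gam), Sep i u (gb i * u) = {u}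

def S_sepC : Prop := ∀ (i : Fin 2) (L : ℕ) (u : Gam),
  Sep i u (cc i L * u) = {γ | ∃ j, 1 ≤ j ∧ j ≤ L ∧ γ = ww i j * u}

/-- two different walls do not cross: one of the four quadrants is empty -/
def S_cross : Prop := ∀ (i : Fin 2) (α β : Gam), α ≠ β → ∀ v p q r : Gam,
  ¬ (α ∈ Sep i v p ∧ β ∉ Sep i v p ∧ α ∉ Sep i v q ∧ β ∈ Sep i v q ∧
     α ∈ Sep i v r ∧ β ∈ Sep i v r)

/-- Sidon property of `{1, w_1, w_2, ...}`; `t 0 = 1` and `t j = ww i j` -/
def tt (i : Fin 2) (j : ℕ) : Gam := if j = 0 then 1 else ww i j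

def S_sidon : Prop := ∀ (i : Fin 2) (j k j' k' : ℕ), tt i j * (tt i k)⁻¹ = tt i j' * (tt i k')⁻¹ →
  j ≠ k → j = j' ∧ k = k'

/-- THE SMALL CANCELLATION LEMMA -/
def S_lemC : Prop := ∀ (i : Fin 2) (L : ℕ) (M : Set Gam),
  (∀ γ, cnt i L M γ ≤ 2 → cnt i L M γ = 0 ∧ γ ∉ M) →
  ∀ R : Gam → Gam → Prop,
  (∀ u v, R u v → R v u) →
  (∀ u v, R u v → (∃ l ∈ Lam i, v = l * u) ∨
    (∃ γ, (u = γ ∧ v = cc i L * γ) ∨ (u = cc i L * γ ∧ v = γ)) ∨
    (∃ γ, (u = cc i L * γ ∧ v = gb i * γ) ∨ (u = gb i * γ ∧ v = cc i L * γ))) →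
  (∀ γ ∈ M, ¬ (R γ (cc i L * γ) ∧ R (cc i L * γ) (gb i * γ))) →
  ∀ γ₀ ∈ M, ¬ Relation.ReflTransGen R γ₀ (gb i * γ₀)

/-! ### ping-pong on finite subsets -/

/-- left translate of a finite set -/
def lmul (g : Gam) (F : Finset Gam) : Finset Gam := F.image (fun d => g * d)

def S_pp : Prop := ∀ (i : Fin 2) (L : ℕ) (φ : Finset Gam → ℝ), φ ∅ = 0 →
  Summable (fun F => φ F ^ 2) →
  Summable (fun F => (∑ j ∈ Finset.Icc 1 L, φ (lmul (ww i j) F)) ^ 2) ∧
  ∑' F, (∑ j ∈ Finset.Icc 1 L, φ (lmul (ww i j) F)) ^ 2 ≤ 9 * L * ∑' F, φ F ^ 2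

/-! ### the Bernoulli shift -/

/-- configurations -/
abbrev X := Gam → Bool

/-- fair coin -/
noncomputable def fair : Measure Bool := (PMF.uniformOfFintype Bool).toMeasure

instance : IsProbabilityMeasure fair := by unfold fair; infer_instance

/-- Bernoulli measure -/
noncomputable def mu : Measure X := Measure.infinitePi (fun _ : Gam => fair)

instance : IsProbabilityMeasure mu := by unfold mu; infer_instance

/-- the shift action -/
def act (g : Gam) (x : X) : X := fun d => x (g⁻¹ * d)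

/-- the free part -/
def Fr : Set X := {x | ∀ g : Gam, act g x = x → g = 1}

/-- the equivalence relation: orbits inside the free part, trivial outside -/
def EE : Set (X × X) := {p | p.1 = p.2 ∨ (p.1 ∈ Fr ∧ ∃ g : Gam, p.2 = act g p.1)}

/-- Cayley graph of a subset of the group, on the free part -/
def Cay (S : Set Gam) : Set (X × X) :=
  {p | p.1 ∈ Fr ∧ ∃ s ∈ S, p.2 = act s p.1 ∨ p.1 = act s p.2}

/-- generators of the expensive graphing -/
def SG (L : ℕ) : Set Gam := {g | g = ga ∨ ∃ i : Fin 2, g = cc i L ∨ g = dd i L}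

/-- generators of the cheap graphing (a treeing) -/
def SK : Set Gam := {g | g = ga ∨ ∃ i : Fin 2, g = gb i}

/-- Walsh functions -/
def chi (F : Finset Gam) (x : X) : ℝ := ∏ d ∈ F, (if x d then (-1 : ℝ) else 1)

def S_mp : Prop := ∀ g : Gam, MeasurePreserving (act g) mu mu

def S_chiInt : Prop := ∀ F : Finset Gam, F.Nonempty → ∫ x, chi F x ∂mu = 0

def S_parseval : Prop := ∀ f : X → ℝ, MemLp f 2 mu →
  HasSum (fun F : Finset Gam => (∫ x, f x * chi F x ∂mu) ^ 2) (∫ x, f x ^ 2 ∂mu)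

/-- the coefficients of a translate -/
def S_coef : Prop := ∀ (f : X → ℝ), MemLp f 2 mu → ∀ (g : Gam) (F : Finset Gam),
  ∫ x, f (act g x) * chi F x ∂mu = ∫ x, f x * chi (lmul g F) x ∂mu

open Classical in
/-- the number of `j` in `1..L` with `act (ww i j) x ∈ M` -/
noncomputable def cntX (i : Fin 2) (L : ℕ) (M : Set X) (x : X) : ℕ :=
  ((Finset.Icc 1 L).filter (fun j => act (ww i j) x ∈ M)).card

def S_var : Prop := ∀ (i : Fin 2) (L : ℕ) (M : Set X), MeasurableSet M →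
  ∫ x, ((cntX i L M x : ℝ) - L * mu.real M) ^ 2 ∂mu ≤ 9 * L * mu.real M

def S_bad : Prop := ∀ (i : Fin 2) (L : ℕ) (M : Set X), MeasurableSet M → 40 ≤ L →
  (1 : ℝ) / 10 ≤ mu.real M → mu.real {x | cntX i L M x ≤ 2} ≤ 360 / L

def S_clos : Prop := ∀ (i : Fin 2) (L : ℕ), 10800 ≤ L → ∀ M₀ : Set X, MeasurableSet M₀ →
  (1 : ℝ) / 5 ≤ mu.real M₀ → ∃ M ⊆ M₀, MeasurableSet M ∧ 0 < mu M ∧
    ∀ x, cntX i L M x ≤ 2 → cntX i L M x = 0 ∧ x ∉ M

/-! ### the relation, the graphs -/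

def S_frM : Prop := MeasurableSet Fr
def S_frI : Prop := ∀ x ∈ Fr, ∀ g : Gam, act g x ∈ Fr
def S_frN : Prop := mu Frᶜ = 0

def S_E : Prop := MeasurableSet EE ∧ (∀ x, (x, x) ∈ EE) ∧
  (∀ x y, (x, y) ∈ EE → (y, x) ∈ EE) ∧
  (∀ x y z, (x, y) ∈ EE → (y, z) ∈ EE → (x, z) ∈ EE) ∧
  (∀ x, {y | (x, y) ∈ EE}.Countable)

def S_pmp : Prop := ∀ φ : MeasurableEquiv X X, (∀ x, (x, φ x) ∈ EE) → Measure.map φ mu = mu

def S_cay : Prop := ∀ S : Set Gam, MeasurableSet (Cay S) ∧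
  (∀ x y, (x, y) ∈ Cay S → (y, x) ∈ Cay S) ∧
  (Subgroup.closure S = ⊤ →
    ∀ x y, Relation.ReflTransGen (fun a b => (a, b) ∈ Cay S) x y ↔ (x, y) ∈ EE)

def S_gen : Prop := (∀ L, Subgroup.closure (SG L) = ⊤) ∧ Subgroup.closure SK = ⊤

def S_costK : Prop := (∫⁻ x, ENat.toENNReal (Set.encard {y | (x, y) ∈ Cay SK}) ∂mu) ≤ 6

/-- points where both halves of the detour are present -/
def Base (i : Fin 2) (L : ℕ) (H : Set (X × X)) : Set X :=
  {x | (x, act (cc i L) x) ∈ H ∧ (act (cc i L) x, act (gb i) x) ∈ H}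

def S_base : Prop := ∀ (L : ℕ), 10800 ≤ L → ∀ H : Set (X × X), H ⊆ Cay (SG L) → MeasurableSet H →
  (∀ x y, (x, y) ∈ H → (y, x) ∈ H) →
  (∀ᵐ x ∂mu, ∀ g : Gam, Relation.ReflTransGen (fun a b => (a, b) ∈ H) x (act g x)) →
  ∀ i : Fin 2, (4 : ℝ) / 5 ≤ mu.real (Base i L H)

def S_deg : Prop := ∀ (L : ℕ), 2 ≤ L → ∀ H : Set (X × X), H ⊆ Cay (SG L) → MeasurableSet H →
  (∀ x y, (x, y) ∈ H → (y, x) ∈ H) →
  ∑ i : Fin 2, (2 * mu {x | (x, act (cc i L) x) ∈ H} + 2 * mu {x | (x, act (dd i L) x) ∈ H}) ≤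
    ∫⁻ x, ENat.toENNReal (Set.encard {y | (x, y) ∈ H}) ∂mu

/-- THE LOWER BOUND: every almost everywhere generating subgraph has cost at least `16/5`. -/
def S_low : Prop := ∀ (L : ℕ), 10800 ≤ L → ∀ H : Set (X × X), H ⊆ Cay (SG L) → MeasurableSet H →
  (∀ x y, (x, y) ∈ H → (y, x) ∈ H) →
  (∀ᵐ x ∂mu, ∀ g : Gam, Relation.ReflTransGen (fun a b => (a, b) ∈ H) x (act g x)) →
  (32 : ℝ≥0∞) / 5 ≤ ∫⁻ x, ENat.toENNReal (Set.encard {y | (x, y) ∈ H}) ∂mu

end Pool.Agent.H194.CG
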