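import Pool.Agent.H194.CG.Defs

set_option autoImplicit false

namespace Pool.Agent.H194.CG

namespace P1

/-- left translation as a bijection of the finite subsets -/
noncomputable def e (g : Gam) : Finset Gam ≃ Finset Gam := (Equiv.mulLeft g).finsetCongr

theorem e_apply (g : Gam) (F : Finset Gam) : e g F = lmul g F := by
  unfold e lmul
  rw [Equiv.finsetCongr_apply, Finset.map_eq_image]
  rfl

theorem lmul_card (g : Gam) (F : Finset Gam) : (lmul g F).card = F.card := by
  unfold lmul
  exact Finset.card_image_of_injective _ (mul_right_injective g)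

end P1

open P1 in
theorem thm_pp (h : S_regions) : S_pp := by
  classical
  intro i L φ h0 hs
  obtain ⟨R, Mid, hR, hM, hw⟩ := h i
  set ψ : ℕ → Finset Gam → ℝ := fun j G =>
    if G.card < 2 * (G.filter (fun g => g ∈ R j)).card then φ G ^ 2 else 0 with hψ
  have hψ0 : ∀ j G, 0 ≤ ψ j G := by
    intro j G
    rw [hψ]
    simp only
    split_ifs
    · positivity
    · exact le_rfl
  have hψ1 : ∀ j G, ψ j G ≤ φ G ^ 2 := by
    intro j G
    rw [hψ]
    simp only
    split_ifs
    · exact le_rfl
    · positivity
  -- the pointwise inequality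
  have hpt : ∀ F, (∑ j ∈ Finset.Icc 1 L, φ (lmul (ww i j) F)) ^ 2 ≤
      3 * L * (∑ j ∈ Finset.Icc 1 L, ψ j (lmul (ww i j) F)) +
        6 * ∑ j ∈ Finset.Icc 1 L, φ (lmul (ww i j) F) ^ 2 := by
    intro F
    rcases F.eq_empty_or_nonempty with rfl | hF
    · have h1 : ∀ g : Gam, lmul g ∅ = ∅ := fun g => Finset.image_empty _
      simp only [h1, h0]
      have h2 : 0 ≤ 3 * (L:ℝ) * (∑ j ∈ Finset.Icc 1 L, ψ j ∅) :=
        mul_nonneg (by positivity) (Finset.sum_nonneg fun j _ => hψ0 j ∅)
      simpa using h2
    have hFc : 0 < F.card := hF.card_pos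
    set pr : ℕ → Prop := fun j => F.card ≤ 2 * (F.filter (fun g => g ∈ Mid j)).card with hpr
    set J : Finset ℕ := (Finset.Icc 1 L).filter pr with hJ
    have hJ4 : J.card ≤ 4 := by
      have h1 : J.card * F.card ≤ 4 * F.card := by
        calc J.card * F.card = ∑ j ∈ J, F.card := by rw [Finset.sum_const, smul_eq_mul]
          _ ≤ ∑ j ∈ J, 2 * (F.filter (fun g => g ∈ Mid j)).card := by
              refine Finset.sum_le_sum fun j hj => ?_
              exact (Finset.mem_filter.1 hj).2
          _ = 2 * ∑ j ∈ J, ∑ g ∈ F, (if g ∈ Mid j then 1 else 0) := by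
              rw [← Finset.mul_sum]
              congr 1
              refine Finset.sum_congr rfl fun j _ => ?_
              rw [Finset.card_filter]
          _ = 2 * ∑ g ∈ F, (J.filter (fun j => g ∈ Mid j)).card := by
              rw [Finset.sum_comm]
              congr 1
              refine Finset.sum_congr rfl fun g _ => ?_
              rw [Finset.card_filter]
          _ ≤ 2 * ∑ g ∈ F, 2 := by
              refine Nat.mul_le_mul_left _ (Finset.sum_le_sum fun g _ => ?_)
              refine hM g _ fun j hj => ?_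
              rw [Finset.mem_filter] at hj
              exact ⟨(Finset.mem_Icc.1 (Finset.mem_filter.1 hj.1).1).1, hj.2⟩
          _ = 4 * F.card := by
              rw [Finset.sum_const, smul_eq_mul]
              ring
      exact Nat.le_of_mul_le_mul_right h1 hFc
    have hsplit := Finset.sum_filter_add_sum_filter_not (Finset.Icc 1 L) pr
      (fun j => φ (lmul (ww i j) F))
    rw [← hsplit]
    set mid := ∑ j ∈ (Finset.Icc 1 L).filter pr, φ (lmul (ww i j) F) with hmid
    set out := ∑ j ∈ (Finset.Icc 1 L).filter (fun j => ¬ pr j), φ (lmul (ww i j) F) with hout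
    have hsum0 : 0 ≤ ∑ j ∈ Finset.Icc 1 L, φ (lmul (ww i j) F) ^ 2 :=
      Finset.sum_nonneg fun _ _ => sq_nonneg _
    have hm2 : mid ^ 2 ≤ 4 * ∑ j ∈ Finset.Icc 1 L, φ (lmul (ww i j) F) ^ 2 := by
      calc mid ^ 2 ≤ J.card * ∑ j ∈ J, φ (lmul (ww i j) F) ^ 2 := sq_sum_le_card_mul_sum_sq
        _ ≤ 4 * ∑ j ∈ Finset.Icc 1 L, φ (lmul (ww i j) F) ^ 2 := by
            refine mul_le_mul (by exact_mod_cast hJ4) ?_ (Finset.sum_nonneg fun _ _ => sq_nonneg _)
              (by norm_num)
            exact Finset.sum_le_sum_of_subset_of_nonneg (Finset.filter_subset _ _)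
              fun _ _ _ => sq_nonneg _
    have ho2 : out ^ 2 ≤ L * ∑ j ∈ Finset.Icc 1 L, ψ j (lmul (ww i j) F) := by
      calc out ^ 2 ≤ ((Finset.Icc 1 L).filter (fun j => ¬ pr j)).card *
            ∑ j ∈ (Finset.Icc 1 L).filter (fun j => ¬ pr j), φ (lmul (ww i j) F) ^ 2 :=
            sq_sum_le_card_mul_sum_sq
        _ ≤ L * ∑ j ∈ (Finset.Icc 1 L).filter (fun j => ¬ pr j), φ (lmul (ww i j) F) ^ 2 := by
            refine mul_le_mul_of_nonneg_right ?_ (Finset.sum_nonneg fun _ _ => sq_nonneg _)
            have h1 : ((Finset.Icc 1 L).filter (fun j => ¬ pr j)).card ≤ L := by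
              refine (Finset.card_filter_le _ _).trans ?_
              rw [Nat.card_Icc]
              omega
            exact_mod_cast h1
        _ = L * ∑ j ∈ (Finset.Icc 1 L).filter (fun j => ¬ pr j), ψ j (lmul (ww i j) F) := by
            congr 1
            refine Finset.sum_congr rfl fun j hj => ?_
            rw [Finset.mem_filter] at hj
            have hj1 : 1 ≤ j := (Finset.mem_Icc.1 hj.1).1
            have hlt : 2 * (F.filter (fun g => g ∈ Mid j)).card < F.card := by
              have := hj.2
              rw [hpr] at this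
              simp only [not_le] at this
              exact this
            have hcard : (F.filter (fun g => g ∉ Mid j)).card ≤
                ((lmul (ww i j) F).filter (fun g => g ∈ R j)).card := by
              have h1 : (F.filter (fun g => g ∉ Mid j)).image (fun d => ww i j * d) ⊆
                  (lmul (ww i j) F).filter (fun g => g ∈ R j) := by
                intro g hg
                rw [Finset.mem_image] at hg
                obtain ⟨d, hd, rfl⟩ := hg
                rw [Finset.mem_filter] at hd ⊢
                exact ⟨Finset.mem_image_of_mem _ hd.1, hw j hj1 d hd.2⟩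
              have h2 := Finset.card_le_card h1
              rwa [Finset.card_image_of_injective _ (mul_right_injective (ww i j))] at h2
            have htot := Finset.card_filter_add_card_filter_not (s := F) (fun g => g ∈ Mid j)
            rw [hψ]
            simp only
            rw [if_pos]
            rw [lmul_card]
            omega
        _ ≤ L * ∑ j ∈ Finset.Icc 1 L, ψ j (lmul (ww i j) F) := by
            refine mul_le_mul_of_nonneg_left ?_ (Nat.cast_nonneg _)
            exact Finset.sum_le_sum_of_subset_of_nonneg (Finset.filter_subset _ _)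
              fun j _ _ => hψ0 j _
    nlinarith [sq_nonneg (mid - 2 * out)]
  -- at most one region
  have hone : ∀ G, ∑ j ∈ Finset.Icc 1 L, ψ j G ≤ φ G ^ 2 := by
    intro G
    rw [hψ]
    simp only
    rw [← Finset.sum_filter, Finset.sum_const, nsmul_eq_mul]
    have h1 : ((Finset.Icc 1 L).filter (fun j => G.card < 2 * (G.filter (fun g => g ∈ R j)).card)).card ≤ 1 := by
      rw [Finset.card_le_one]
      intro j hj k hk
      rw [Finset.mem_filter, Finset.mem_Icc] at hj hk
      by_contra hne
      have hd : Disjoint (G.filter (fun g => g ∈ R j)) (G.filter (fun g => g ∈ R k)) := by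
        rw [Finset.disjoint_left]
        intro g hg hg'
        rw [Finset.mem_filter] at hg hg'
        exact (Set.disjoint_left.1 (hR j k hj.1.1 hk.1.1 hne)) hg.2 hg'.2
      have h2 : (G.filter (fun g => g ∈ R j)).card + (G.filter (fun g => g ∈ R k)).card ≤ G.card := by
        rw [← Finset.card_union_of_disjoint hd]
        exact Finset.card_le_card (Finset.union_subset (Finset.filter_subset _ _) (Finset.filter_subset _ _))
      omega
    have h2 : (((Finset.Icc 1 L).filter (fun j => G.card < 2 * (G.filter (fun g => g ∈ R j)).card)).card : ℝ) ≤ 1 := by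
      exact_mod_cast h1
    nlinarith [sq_nonneg (φ G)]
  -- summation
  have hψs : ∀ j, Summable (fun G => ψ j G) := fun j =>
    Summable.of_nonneg_of_le (hψ0 j) (hψ1 j) hs
  set S := ∑' F, φ F ^ 2 with hS
  have hcomp : ∀ (f : Finset Gam → ℝ) (a : ℝ) (g : Gam), HasSum f a → HasSum (fun F => f (lmul g F)) a := by
    intro f a g hf
    have h1 := (e g).hasSum_iff.2 hf
    have h2 : (f ∘ (e g)) = fun F => f (lmul g F) := by
      funext F
      rw [Function.comp, e_apply]
    rwa [h2] at h1
  have H1 : ∀ j ∈ Finset.Icc 1 L, HasSum (fun F => φ (lmul (ww i j) F) ^ 2) S := by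
    intro j _
    exact hcomp (fun F => φ F ^ 2) S (ww i j) hs.hasSum
  have H2 : ∀ j ∈ Finset.Icc 1 L, HasSum (fun F => ψ j (lmul (ww i j) F)) (∑' G, ψ j G) := by
    intro j _
    exact hcomp (ψ j) _ (ww i j) (hψs j).hasSum
  have H3 := ((hasSum_sum H2).mul_left (3 * (L:ℝ))).add ((hasSum_sum H1).mul_left 6)
  have hT : ∑ j ∈ Finset.Icc 1 L, ∑' G, ψ j G ≤ S :=
    hasSum_le hone (hasSum_sum fun j _ => (hψs j).hasSum) hs.hasSum
  have hsm : Summable (fun F => (∑ j ∈ Finset.Icc 1 L, φ (lmul (ww i j) F)) ^ 2) :=
    Summable.of_nonneg_of_le (fun _ => sq_nonneg _) hpt H3.summable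
  refine ⟨hsm, (hasSum_le hpt hsm.hasSum H3).trans ?_⟩
  have hcard : ∑ j ∈ Finset.Icc 1 L, S = L * S := by
    rw [Finset.sum_const, nsmul_eq_mul, Nat.card_Icc]
    simp
  rw [hcard]
  have hL : (0:ℝ) ≤ L := Nat.cast_nonneg L
  nlinarith [mul_le_mul_of_nonneg_left hT hL]

end Pool.Agent.H194.CG
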