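import Mathlib
import Pool.Agent.H194.CG.Defs

/-! Task R1: the free part.  Owner: helper202. -/

set_option autoImplicit false
open MeasureTheory
open scoped ENNReal

namespace Pool.Agent.H194.CG

namespace R1

theorem act_act (h g : Gam) (x : X) : act h (act g x) = act (h * g) x := by
  funext d
  show x (g⁻¹ * (h⁻¹ * d)) = x ((h * g)⁻¹ * d)
  rw [mul_inv_rev, mul_assoc]

theorem act_one (x : X) : act 1 x = x := by
  funext d
  show x (1⁻¹ * d) = x d
  rw [inv_one, one_mul]

theorem fair_singleton (e : Bool) : fair {e} = 2⁻¹ := by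
  unfold fair
  rw [PMF.toMeasure_apply_singleton _ _ (measurableSet_singleton e), PMF.uniformOfFintype_apply]
  simp

theorem meas_fix (g : Gam) : MeasurableSet {x : X | act g x = x} := by
  have e : {x : X | act g x = x} = ⋂ d : Gam, {x : X | x (g⁻¹ * d) = x d} := by
    ext x
    simp only [Set.mem_setOf_eq, Set.mem_iInter]
    exact funext_iff
  rw [e]
  refine MeasurableSet.iInter fun d => ?_
  exact measurableSet_eq_fun (measurable_pi_apply _) (measurable_pi_apply _)

theorem fr_eq : Fr = ⋂ g : {g : Gam // g ≠ 1}, {x : X | act g.1 x = x}ᶜ := by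
  ext x
  simp only [Fr, Set.mem_setOf_eq, Set.mem_iInter, Set.mem_compl_iff]
  constructor
  · intro h g hg
    exact g.2 (h g.1 hg)
  · intro h g hg
    by_contra hne
    exact h ⟨g, hne⟩ hg

theorem null_fix (g : Gam) (hg : g ≠ 1) : mu {x : X | act g x = x} = 0 := by
  classical
  have hinj : Function.Injective (fun n : ℕ => g ^ n) :=
    injective_pow_iff_not_isOfFinOrder.2 (not_isOfFinOrder_of_isMulTorsionFree hg)
  have hbox : ∀ (N : ℕ) (e : Bool),
      mu (Set.pi ((Finset.range N).image (fun n : ℕ => g ^ n) : Finset Gam)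
        (fun _ : Gam => ({e} : Set Bool))) = 2⁻¹ ^ N := by
    intro N e
    unfold mu
    rw [Measure.infinitePi_pi _ (fun _ _ => measurableSet_singleton e)]
    simp only [fair_singleton]
    rw [Finset.prod_const, Finset.card_image_of_injective _ hinj, Finset.card_range]
  have hle : ∀ N : ℕ, mu {x : X | act g x = x} ≤ 2⁻¹ ^ N + 2⁻¹ ^ N := by
    intro N
    have hsub : {x : X | act g x = x} ⊆
        Set.pi ((Finset.range N).image (fun n : ℕ => g ^ n) : Finset Gam)
          (fun _ : Gam => ({true} : Set Bool)) ∪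
        Set.pi ((Finset.range N).image (fun n : ℕ => g ^ n) : Finset Gam)
          (fun _ : Gam => ({false} : Set Bool)) := by
      intro x hx
      have h1 : ∀ n : ℕ, x (g ^ n) = x 1 := by
        intro n
        induction n with
        | zero => rw [pow_zero]
        | succ n ih =>
          have h2 : x (g⁻¹ * g ^ (n + 1)) = x (g ^ (n + 1)) := congrFun hx (g ^ (n + 1))
          rw [← h2, pow_succ', inv_mul_cancel_left, ih]
      cases hx1 : x 1 with
      | true =>
        left
        intro d hd
        rw [Finset.mem_coe, Finset.mem_image] at hd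
        obtain ⟨n, -, rfl⟩ := hd
        show x (g ^ n) = true
        rw [h1, hx1]
      | false =>
        right
        intro d hd
        rw [Finset.mem_coe, Finset.mem_image] at hd
        obtain ⟨n, -, rfl⟩ := hd
        show x (g ^ n) = false
        rw [h1, hx1]
    refine (measure_mono hsub).trans ((measure_union_le _ _).trans ?_)
    rw [hbox, hbox]
  have hlim : Filter.Tendsto (fun N : ℕ => (2⁻¹ : ℝ≥0∞) ^ N + 2⁻¹ ^ N) Filter.atTop (nhds 0) := by
    have h1 : Filter.Tendsto (fun N : ℕ => (2⁻¹ : ℝ≥0∞) ^ N) Filter.atTop (nhds 0) :=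
      ENNReal.tendsto_pow_atTop_nhds_zero_of_lt_one (by
        rw [ENNReal.inv_lt_one]
        exact ENNReal.one_lt_two)
    have := h1.add h1
    rwa [add_zero] at this
  exact le_antisymm (ge_of_tendsto' hlim hle) bot_le

end R1

theorem thm_frM : S_frM := by
  unfold S_frM
  rw [R1.fr_eq]
  exact MeasurableSet.iInter fun g => (R1.meas_fix g.1).compl

theorem thm_frI : S_frI := by
  intro x hx g h hh
  rw [R1.act_act] at hh
  have h1 := congrArg (act g⁻¹) hh
  rw [R1.act_act, R1.act_act, inv_mul_cancel, R1.act_one] at h1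
  have h2 : g⁻¹ * (h * g) = 1 := hx _ h1
  calc h = g * (g⁻¹ * (h * g)) * g⁻¹ := by group
    _ = 1 := by rw [h2, mul_one, mul_inv_cancel]

theorem thm_frN : S_frN := by
  unfold S_frN
  rw [R1.fr_eq, Set.compl_iInter]
  simp only [compl_compl]
  exact measure_iUnion_null fun g => R1.null_fix g.1 g.2

end Pool.Agent.H194.CG
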