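import Pool.Agent.H194.CG.Defs

/-!
R2: `EE` is a countable Borel equivalence relation.
-/

set_option autoImplicit false
open MeasureTheory

namespace Pool.Agent.H194.CG

namespace R2

lemma act_mul (g h : Gam) (x : X) : act (g * h) x = act g (act h x) := by
  funext d
  simp only [act, mul_inv_rev, mul_assoc]

lemma act_one (x : X) : act 1 x = x := by
  funext d
  simp only [act, inv_one, one_mul]

lemma act_inv_act (g : Gam) (x : X) : act g⁻¹ (act g x) = x := by
  rw [← act_mul, inv_mul_cancel, act_one]

lemma meas_coord (d e : Gam) : MeasurableSet {p : X × X | p.2 d = p.1 e} := by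
  have h : Measurable (fun p : X × X => (p.2 d, p.1 e)) :=
    ((measurable_pi_apply d).comp measurable_snd).prodMk
      ((measurable_pi_apply e).comp measurable_fst)
  exact h (Set.toFinite {q : Bool × Bool | q.1 = q.2}).measurableSet

lemma meas_graph (g : Gam) : MeasurableSet {p : X × X | p.2 = act g p.1} := by
  have h : {p : X × X | p.2 = act g p.1} = ⋂ d : Gam, {p : X × X | p.2 d = p.1 (g⁻¹ * d)} := by
    ext p
    simp only [Set.mem_setOf_eq, Set.mem_iInter, funext_iff, act]
  rw [h]
  haveI : Countable Gam := by infer_instance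
  exact MeasurableSet.iInter (fun d => meas_coord _ _)

end R2

open R2 in
theorem thm_E (h1 : S_frM) (h2 : S_frI) : S_E := by
  refine ⟨?_, ?_, ?_, ?_, ?_⟩
  · have h : EE = {p : X × X | p.2 = act 1 p.1} ∪
        ⋃ g : Gam, ({p : X × X | p.1 ∈ Fr} ∩ {p : X × X | p.2 = act g p.1}) := by
      ext p
      simp only [EE, Set.mem_setOf_eq, Set.mem_union, Set.mem_iUnion, Set.mem_inter_iff, act_one]
      constructor
      · rintro (h | ⟨h, g, hg⟩)
        · exact Or.inl h.symm
        · exact Or.inr ⟨g, h, hg⟩
      · rintro (h | ⟨g, h, hg⟩)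
        · exact Or.inl h.symm
        · exact Or.inr ⟨h, g, hg⟩
    rw [h]
    exact (meas_graph 1).union (MeasurableSet.iUnion
      (fun g => (measurable_fst h1).inter (meas_graph g)))
  · intro x
    exact Or.inl rfl
  · rintro x y (h | ⟨h, g, hg⟩)
    · exact Or.inl h.symm
    · refine Or.inr ⟨?_, g⁻¹, ?_⟩
      · have hg' : y = act g x := hg
        change y ∈ Fr
        rw [hg']
        exact h2 x h g
      · have hg' : y = act g x := hg
        change x = act g⁻¹ y
        rw [hg', act_inv_act]
  · rintro x y z hxy hyz
    rcases hxy with h | ⟨h, g, hg⟩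
    · have h' : x = y := h
      rw [h']
      exact hyz
    · rcases hyz with k | ⟨k, l, hl⟩
      · have k' : y = z := k
        rw [← k']
        exact Or.inr ⟨h, g, hg⟩
      · refine Or.inr ⟨h, l * g, ?_⟩
        have hg' : y = act g x := hg
        have hl' : z = act l y := hl
        change z = act (l * g) x
        rw [hl', hg', act_mul]
  · intro x
    haveI : Countable Gam := by infer_instance
    refine Set.Countable.mono ?_ ((Set.countable_singleton x).union
      (Set.countable_range (fun g : Gam => act g x)))
    rintro y (h | ⟨_, g, hg⟩)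
    · exact Or.inl (show y = x from Eq.symm h)
    · exact Or.inr ⟨g, Eq.symm hg⟩

end Pool.Agent.H194.CG
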