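import Pool.Agent.H194.CG.Defs

set_option autoImplicit false
open MeasureTheory
open scoped ENNReal

namespace Pool.Agent.H194.CG

namespace R4

theorem act_act (g h : Gam) (x : X) : act g (act h x) = act (g * h) x := by
  funext d
  simp only [act, mul_inv_rev, mul_assoc]

theorem act_one (x : X) : act 1 x = x := by
  funext d
  simp only [act, inv_one, one_mul]

theorem meas_eq (s : Gam) : MeasurableSet {p : X × X | p.2 = act s p.1} := by
  have e : {p : X × X | p.2 = act s p.1} =
      ⋂ d : Gam, (fun p : X × X => (p.2 d, p.1 (s⁻¹ * d))) ⁻¹' {q : Bool × Bool | q.1 = q.2} := by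
    ext p
    simp only [Set.mem_ofPred_eq, Set.mem_iInter, Set.mem_preimage]
    exact funext_iff
  rw [e]
  apply MeasurableSet.iInter
  intro d
  apply measurableSet_preimage _ (MeasurableSet.of_discrete)
  exact ((measurable_pi_apply d).comp measurable_snd).prodMk
    ((measurable_pi_apply (s⁻¹ * d)).comp measurable_fst)

theorem meas_eq' (s : Gam) : MeasurableSet {p : X × X | p.1 = act s p.2} := by
  have := measurableSet_preimage (measurable_swap (α := X) (β := X)) (meas_eq s)
  exact this

end R4

open R4

theorem thm_cay (h1 : S_frM) (h2 : S_frI) : S_cay := by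
  intro S
  have hsymm : ∀ x y, (x, y) ∈ Cay S → (y, x) ∈ Cay S := by
    rintro x y ⟨hx, s, hs, h⟩
    simp only at hx h
    rcases h with h | h
    · refine ⟨?_, s, hs, Or.inr h⟩
      show y ∈ Fr
      rw [h]
      exact h2 x hx s
    · refine ⟨?_, s, hs, Or.inl h⟩
      show y ∈ Fr
      have : y = act s⁻¹ x := by
        rw [h, act_act, inv_mul_cancel, act_one]
      rw [this]
      exact h2 x hx s⁻¹
  refine ⟨?_, hsymm, ?_⟩
  · have e : Cay S = (Prod.fst ⁻¹' Fr) ∩
        ⋃ s ∈ S, ({p : X × X | p.2 = act s p.1} ∪ {p : X × X | p.1 = act s p.2}) := by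
      ext p
      simp only [Cay, Set.mem_ofPred_eq, Set.mem_inter_iff, Set.mem_preimage, Set.mem_iUnion,
        Set.mem_union, exists_prop]
    rw [e]
    apply (measurableSet_preimage measurable_fst h1).inter
    apply MeasurableSet.biUnion (Set.to_countable S)
    intro s _
    exact (meas_eq s).union (meas_eq' s)
  · intro hS x y
    constructor
    · intro h
      induction h with
      | refl => exact Or.inl rfl
      | @tail b c _ hbc ih =>
        obtain ⟨hb, s, _, h⟩ := hbc
        simp only at hb h
        have hc : ∃ g : Gam, c = act g b := by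
          rcases h with h | h
          · exact ⟨s, h⟩
          · exact ⟨s⁻¹, by rw [h, act_act, inv_mul_cancel, act_one]⟩
        obtain ⟨g, hg⟩ := hc
        rcases ih with ih | ⟨hx, g', hg'⟩
        · simp only at ih
          subst ih
          exact Or.inr ⟨hb, g, hg⟩
        · simp only at hx hg'
          refine Or.inr ⟨hx, g * g', ?_⟩
          show c = _
          rw [hg, hg', act_act]
    · have key : ∀ g : Gam, ∀ x ∈ Fr,
          Relation.ReflTransGen (fun a b => (a, b) ∈ Cay S) x (act g x) := by
        intro g
        have hg : g ∈ Subgroup.closure S := by rw [hS]; trivial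
        induction hg using Subgroup.closure_induction with
        | mem s hs =>
          intro x hx
          exact Relation.ReflTransGen.single ⟨hx, s, hs, Or.inl rfl⟩
        | one =>
          intro x _
          rw [act_one]
        | mul g h _ _ ihg ihh =>
          intro x hx
          rw [← act_act]
          exact (ihh x hx).trans (ihg _ (h2 x hx h))
        | inv g _ ih =>
          intro x hx
          have h3 := ih _ (h2 x hx g⁻¹)
          rw [act_act, mul_inv_cancel, act_one] at h3
          have : Std.Symm (fun a b : X => (a, b) ∈ Cay S) := ⟨fun a b hab => hsymm a b hab⟩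
          exact (Relation.ReflTransGen.stdSymm (r := fun a b : X => (a, b) ∈ Cay S)).symm _ _ h3
      rintro (h | ⟨hx, g, hg⟩)
      · simp only at h
        subst h
        exact Relation.ReflTransGen.refl
      · simp only at hx hg
        rw [hg]
        exact key g x hx

end Pool.Agent.H194.CG

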