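import Pool.Agent.H194.CG.Defs

set_option autoImplicit false
open MeasureTheory
open scoped ENNReal

namespace Pool.Agent.H194.CG

namespace R5

theorem closure_top (S : Set Gam) (h0 : ga ∈ Subgroup.closure S)
    (h1 : ∀ i : Fin 2, gb i ∈ Subgroup.closure S) : Subgroup.closure S = ⊤ := by
  rw [eq_top_iff, ← FreeGroup.closure_range_of, Subgroup.closure_le]
  rintro _ ⟨j, rfl⟩
  fin_cases j
  · exact h0
  · exact h1 0
  · exact h1 1

theorem act_inv (s : Gam) (y : X) : act s⁻¹ (act s y) = y := by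
  funext d
  simp [act, mul_assoc]

/-- the six neighbours -/
def nb (x : X) (q : Fin 3 × Bool) : X :=
  if q.2 then act (FreeGroup.of q.1) x else act (FreeGroup.of q.1)⁻¹ x

theorem sk_of (s : Gam) (hs : s ∈ SK) : ∃ j : Fin 3, s = FreeGroup.of j := by
  rcases hs with rfl | ⟨i, rfl⟩
  · exact ⟨0, rfl⟩
  · exact ⟨i.succ, rfl⟩

theorem sub (x : X) : {y | (x, y) ∈ Cay SK} ⊆ nb x '' Set.univ := by
  rintro y ⟨-, s, hs, h⟩
  obtain ⟨j, rfl⟩ := sk_of s hs
  rcases h with h | h
  · exact ⟨(j, true), Set.mem_univ _, h.symm⟩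
  · refine ⟨(j, false), Set.mem_univ _, ?_⟩
    show act (FreeGroup.of j)⁻¹ x = y
    change x = act (FreeGroup.of j) y at h
    rw [h, act_inv]

theorem card_le (x : X) : Set.encard {y | (x, y) ∈ Cay SK} ≤ 6 := by
  refine (Set.encard_le_encard (sub x)).trans ((Set.encard_image_le _ _).trans ?_)
  rw [Set.encard_univ, ENat.card_eq_coe_fintype_card]
  decide

end R5

theorem thm_gen : S_gen := by
  refine ⟨fun L => R5.closure_top _ (Subgroup.subset_closure (Or.inl rfl)) fun i => ?_,
    R5.closure_top _ (Subgroup.subset_closure (Or.inl rfl)) fun i =>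
      Subgroup.subset_closure (Or.inr ⟨i, rfl⟩)⟩
  have h : gb i = dd i L * cc i L := by
    unfold dd
    group
  rw [h]
  exact Subgroup.mul_mem _ (Subgroup.subset_closure (Or.inr ⟨i, Or.inr rfl⟩))
    (Subgroup.subset_closure (Or.inr ⟨i, Or.inl rfl⟩))

theorem thm_costK : S_costK := by
  unfold S_costK
  calc ∫⁻ x, ENat.toENNReal (Set.encard {y | (x, y) ∈ Cay SK}) ∂mu
      ≤ ∫⁻ _ : X, (6 : ℝ≥0∞) ∂mu := by
        refine lintegral_mono fun x => ?_
        have h := ENat.toENNReal_mono (R5.card_le x)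
        exact h.trans (by simp)
    _ = 6 := by simp

end Pool.Agent.H194.CG
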