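import Pool.Agent.H194.CG.Defs

/-!
Task R6: base points.
-/

set_option autoImplicit false
open MeasureTheory
open scoped ENNReal

namespace Pool.Agent.H194.CG

namespace R6

theorem act_mul (g h : Gam) (x : X) : act g (act h x) = act (g * h) x := by
  funext d
  show x (h⁻¹ * (g⁻¹ * d)) = x ((g * h)⁻¹ * d)
  rw [mul_inv_rev, mul_assoc]

theorem act_one (x : X) : act 1 x = x := by
  funext d
  show x (1⁻¹ * d) = x d
  rw [inv_one, one_mul]

theorem free {x : X} (hx : x ∈ Fr) {g h : Gam} (e : act g x = act h x) : g = h := by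
  have h1 : act (h⁻¹ * g) x = x := by
    rw [← act_mul, e, act_mul, inv_mul_cancel, act_one]
  have h2 := hx _ h1
  rw [inv_mul_eq_one] at h2
  exact h2.symm

theorem ga_mem (i : Fin 2) : ga ∈ Lam i := Subgroup.subset_closure (by simp)

theorem gb_mem (i : Fin 2) : gb (i + 1) ∈ Lam i := Subgroup.subset_closure (by simp)

theorem ww_mem (i : Fin 2) (j : ℕ) : ww (i + 1) j ∈ Lam i := by
  induction j with
  | zero => exact (Lam i).inv_mem (gb_mem i)
  | succ j ih =>
    exact (Lam i).mul_mem ((Lam i).mul_mem ((Lam i).pow_mem (ga_mem i) _) (gb_mem i)) ih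

theorem cc_mem (i : Fin 2) (L : ℕ) : cc (i + 1) L ∈ Lam i :=
  (Lam i).mul_mem (gb_mem i) (ww_mem i L)

theorem dd_mem (i : Fin 2) (L : ℕ) : dd (i + 1) L ∈ Lam i :=
  (Lam i).mul_mem (gb_mem i) ((Lam i).inv_mem (cc_mem i L))

theorem two (i j : Fin 2) : j = i ∨ j = i + 1 := by
  revert i j
  decide

theorem forms (i : Fin 2) (L : ℕ) (s u v : Gam) (hs : s ∈ SG L) (h : v = s * u ∨ u = s * v) :
    (∃ l ∈ Lam i, v = l * u) ∨
    (∃ γ, (u = γ ∧ v = cc i L * γ) ∨ (u = cc i L * γ ∧ v = γ)) ∨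
    (∃ γ, (u = cc i L * γ ∧ v = gb i * γ) ∨ (u = gb i * γ ∧ v = cc i L * γ)) := by
  have inLam : s ∈ Lam i → (∃ l ∈ Lam i, v = l * u) := by
    intro hl
    rcases h with rfl | rfl
    · exact ⟨s, hl, rfl⟩
    · exact ⟨s⁻¹, (Lam i).inv_mem hl, by rw [inv_mul_cancel_left]⟩
  rcases hs with rfl | ⟨j, rfl | rfl⟩
  · exact Or.inl (inLam (ga_mem i))
  · rcases two i j with rfl | rfl
    · rcases h with rfl | rfl
      · exact Or.inr (Or.inl ⟨u, Or.inl ⟨rfl, rfl⟩⟩)
      · exact Or.inr (Or.inl ⟨v, Or.inr ⟨rfl, rfl⟩⟩)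
    · exact Or.inl (inLam (cc_mem i L))
  · rcases two i j with rfl | rfl
    · rcases h with rfl | rfl
      · refine Or.inr (Or.inr ⟨(cc j L)⁻¹ * u, Or.inl ⟨?_, ?_⟩⟩)
        · rw [mul_inv_cancel_left]
        · unfold dd
          rw [mul_assoc]
      · refine Or.inr (Or.inr ⟨(cc j L)⁻¹ * v, Or.inr ⟨?_, ?_⟩⟩)
        · unfold dd
          rw [mul_assoc]
        · rw [mul_inv_cancel_left]
    · exact Or.inl (inLam (dd_mem i L))

theorem base_meas (h1 : S_mp) (i : Fin 2) (L : ℕ) (H : Set (X × X)) (hm : MeasurableSet H) :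
    MeasurableSet (Base i L H) :=
  (hm.preimage (measurable_id.prodMk (h1 (cc i L)).measurable)).inter
    (hm.preimage ((h1 (cc i L)).measurable.prodMk (h1 (gb i)).measurable))

theorem cnt_eq (i : Fin 2) (L : ℕ) (M : Set X) (x : X) (γ : Gam) :
    cnt i L {g | act g x ∈ M} γ = cntX i L M (act γ x) := by
  unfold cnt cntX
  apply congrArg Finset.card
  ext j
  simp only [Finset.mem_filter, Set.mem_setOf_eq, act_mul]

end R6

open R6 in
theorem thm_base (h1 : S_mp) (h2 : S_clos) (h3 : S_lemC) (h4 : S_frM) (h5 : S_frI)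
    (h6 : S_frN) : S_base := by
  intro L hL H hH hm hs hgen i
  by_contra hlt
  rw [not_le] at hlt
  have hBm := base_meas h1 i L H hm
  have hM0 : (1 : ℝ) / 5 ≤ mu.real (Base i L H)ᶜ := by
    rw [measureReal_compl hBm, probReal_univ]
    linarith
  obtain ⟨M, hMsub, hMm, hMpos, hMc⟩ := h2 i L hL (Base i L H)ᶜ hBm.compl hM0
  have hFr : ∀ᵐ x ∂mu, x ∈ Fr := h6
  obtain ⟨x, hxM, hxF, hxg⟩ : ∃ x ∈ M, x ∈ Fr ∧
      ∀ g : Gam, Relation.ReflTransGen (fun a b => (a, b) ∈ H) x (act g x) := by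
    by_contra hcon
    apply hMpos.ne'
    have hae := hFr.and hgen
    refine measure_mono_null (fun x hx => ?_) hae
    intro hP
    exact hcon ⟨x, hx, hP.1, hP.2⟩
  let M' : Set Gam := {g | act g x ∈ M}
  let R : Gam → Gam → Prop := fun u v => (act u x, act v x) ∈ H
  have hcnt : ∀ γ, cnt i L M' γ = cntX i L M (act γ x) := cnt_eq i L M x
  refine h3 i L M' ?_ R ?_ ?_ ?_ 1 ?_ ?_
  · intro γ hγ
    rw [hcnt] at hγ ⊢
    exact hMc _ hγ
  · intro u v huv
    exact hs _ _ huv
  · intro u v huv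
    obtain ⟨-, s, hsS, hse⟩ := hH huv
    refine forms i L s u v hsS ?_
    rcases hse with hse | hse
    · left
      refine free hxF ?_
      rw [← act_mul]
      exact hse
    · right
      refine free hxF ?_
      rw [← act_mul]
      exact hse
  · intro γ hγ hR
    refine hMsub hγ ⟨?_, ?_⟩
    · show (act γ x, act (cc i L) (act γ x)) ∈ H
      rw [act_mul]
      exact hR.1
    · show (act (cc i L) (act γ x), act (gb i) (act γ x)) ∈ H
      rw [act_mul, act_mul]
      exact hR.2
  · show act 1 x ∈ M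
    rw [act_one]
    exact hxM
  · have key : ∀ y, Relation.ReflTransGen (fun a b => (a, b) ∈ H) x y →
        ∃ g, y = act g x ∧ Relation.ReflTransGen R 1 g := by
      intro y hy
      induction hy with
      | refl => exact ⟨1, (act_one x).symm, Relation.ReflTransGen.refl⟩
      | @tail b c _ hbc ih =>
        obtain ⟨g, hg, hpath⟩ := ih
        obtain ⟨-, s, -, hse⟩ := hH hbc
        have hc : ∃ g', c = act g' x := by
          rcases hse with hse | hse
          · refine ⟨s * g, ?_⟩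
            rw [← act_mul, ← hg]
            exact hse
          · refine ⟨s⁻¹ * g, ?_⟩
            rw [← act_mul, ← hg]
            have hse' : b = act s c := hse
            rw [hse', act_mul, inv_mul_cancel, act_one]
        obtain ⟨g', hg'⟩ := hc
        refine ⟨g', hg', hpath.tail ?_⟩
        show (act g x, act g' x) ∈ H
        rw [← hg, ← hg']
        exact hbc
    obtain ⟨g, hg, hpath⟩ := key _ (hxg (gb i))
    rw [mul_one, free hxF hg]
    exact hpath

end Pool.Agent.H194.CG
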