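import Mathlib
import Pool.Agent.H194.CG.Defs

/-! Task R7: the degree bound. -/

set_option autoImplicit false
open MeasureTheory
open scoped ENNReal

namespace Pool.Agent.H194.CG

namespace R7

/-- exponent sum of the letter `j` -/
def es (j : Fin 3) : Gam →* Multiplicative ℤ :=
  FreeGroup.lift (fun k => if k = j then Multiplicative.ofAdd (1 : ℤ) else 1)

def E (j : Fin 3) (g : Gam) : ℤ := Multiplicative.toAdd (es j g)

theorem E_mul (j : Fin 3) (g h : Gam) : E j (g * h) = E j g + E j h := by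
  simp [E]

theorem E_inv (j : Fin 3) (g : Gam) : E j g⁻¹ = - E j g := by
  simp [E]

theorem E_pow (j : Fin 3) (g : Gam) (n : ℕ) : E j (g ^ n) = n * E j g := by
  simp [E]

theorem E_ga (j : Fin 3) : E j ga = if j = 0 then 1 else 0 := by
  unfold E es ga
  rw [FreeGroup.lift_apply_of]
  by_cases h : j = 0
  · subst h; simp
  · have : ¬ (0 : Fin 3) = j := fun e => h e.symm
    simp [h, this]

theorem E_gb (i : Fin 2) (j : Fin 3) : E j (gb i) = if j = i.succ then 1 else 0 := by
  unfold E es gb
  rw [FreeGroup.lift_apply_of]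
  by_cases h : j = i.succ
  · subst h; simp
  · have : ¬ i.succ = j := fun e => h e.symm
    simp [h, this]

theorem ee_mono (j : ℕ) : ee j ≤ ee (j + 1) := by
  cases j with
  | zero => simp [ee]
  | succ j => simp only [ee]; exact Nat.pow_le_pow_right (by norm_num) (by omega)

theorem E_ww0 (i : Fin 2) (L : ℕ) : E 0 (ww i L) = ee L := by
  induction L with
  | zero => simp [ww, E_inv, E_gb, ee, (Fin.succ_ne_zero i).symm]
  | succ L ih =>
    rw [ww, E_mul, E_mul, E_pow, ih, E_ga, E_gb]
    have h := ee_mono L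
    have : ((nn L : ℕ) : ℤ) = ee (L + 1) - ee L := by rw [nn, Nat.cast_sub h]
    rw [this, if_neg (Fin.succ_ne_zero i).symm]
    simp

theorem E_wwi (i k : Fin 2) (L : ℕ) : E k.succ (ww i L) = if k = i then (L : ℤ) - 1 else 0 := by
  induction L with
  | zero =>
    simp only [ww, E_inv, E_gb, Fin.succ_inj]
    split_ifs <;> simp
  | succ L ih =>
    rw [ww, E_mul, E_mul, E_pow, ih, E_ga, E_gb]
    simp only [Fin.succ_inj, Fin.succ_ne_zero, if_false]
    split_ifs <;> push_cast <;> ring

theorem E_cc0 (i : Fin 2) (L : ℕ) : E 0 (cc i L) = ee L := by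
  rw [cc, E_mul, E_ww0, E_gb, if_neg (Fin.succ_ne_zero i).symm, zero_add]

theorem E_cci (i k : Fin 2) (L : ℕ) : E k.succ (cc i L) = if k = i then (L : ℤ) else 0 := by
  rw [cc, E_mul, E_wwi, E_gb]
  simp only [Fin.succ_inj]
  split_ifs <;> ring

theorem E_dd0 (i : Fin 2) (L : ℕ) : E 0 (dd i L) = - ee L := by
  rw [dd, E_mul, E_inv, E_cc0, E_gb, if_neg (Fin.succ_ne_zero i).symm, zero_add]

theorem E_ddi (i k : Fin 2) (L : ℕ) : E k.succ (dd i L) = if k = i then 1 - (L : ℤ) else 0 := by
  rw [dd, E_mul, E_inv, E_cci, E_gb]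
  simp only [Fin.succ_inj]
  split_ifs <;> ring

/-- the eight elements -/
def s (L : ℕ) (p : Fin 2 × Bool × Bool) : Gam :=
  match p with
  | (i, true, true) => cc i L
  | (i, true, false) => (cc i L)⁻¹
  | (i, false, true) => dd i L
  | (i, false, false) => (dd i L)⁻¹

theorem s_inj (L : ℕ) (hL : 2 ≤ L) : Function.Injective (s L) := by
  have he : 0 < ee L := by
    obtain ⟨m, rfl⟩ : ∃ m, L = m + 1 := ⟨L - 1, by omega⟩
    simp [ee]
  have he' : (0 : ℤ) < ee L := by exact_mod_cast he
  have hL' : (2 : ℤ) ≤ L := by exact_mod_cast hL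
  rintro ⟨i, c, e⟩ ⟨i', c', e'⟩ h
  have h0 := congrArg (E 0) h
  have h1 := congrArg (E (i.succ)) h
  have h2 := congrArg (E (i'.succ)) h
  by_cases hi : i = i'
  · subst hi
    cases c <;> cases e <;> cases c' <;> cases e' <;>
      simp only [s, E_inv, E_cc0, E_dd0, E_cci, E_ddi, if_true] at h0 h1 <;>
      first | rfl | (exfalso; omega)
  · have hi' : ¬ i' = i := fun e => hi e.symm
    cases c <;> cases e <;> cases c' <;> cases e' <;>
      simp only [s, E_inv, E_cc0, E_dd0, E_cci, E_ddi, if_true, hi, hi', if_false] at h0 h1 <;>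
      (exfalso; omega)

theorem act_act (g h : Gam) (x : X) : act g (act h x) = act (g * h) x := by
  funext d
  simp [act, mul_assoc]

theorem act_one (x : X) : act 1 x = x := by
  funext d
  simp [act]

theorem act_inj {x : X} (hx : x ∈ Fr) {u v : Gam} (h : act u x = act v x) : u = v := by
  have h1 : act (v⁻¹ * u) x = x := by
    rw [← act_act, h, act_act, inv_mul_cancel, act_one]
  have := hx _ h1
  exact (inv_mul_eq_one.1 this).symm

end R7

open R7 in
theorem thm_deg (h1 : S_mp) (h4 : S_frM) (h5 : S_frI) (h6 : S_frN) : S_deg := by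
  classical
  intro L hL H hHs hHm hsym
  -- the sets
  set A : Fin 2 × Bool × Bool → Set X := fun p => {x | (x, act (s L p) x) ∈ H} with hA
  have hmA : ∀ g : Gam, MeasurableSet {x : X | (x, act g x) ∈ H} := fun g =>
    (measurable_id.prodMk (h1 g).measurable) hHm
  have hinv : ∀ g : Gam, mu {x : X | (x, act g⁻¹ x) ∈ H} = mu {x : X | (x, act g x) ∈ H} := by
    intro g
    have e : {x : X | (x, act g⁻¹ x) ∈ H} = (act g⁻¹) ⁻¹' {x : X | (x, act g x) ∈ H} := by
      ext x
      simp only [Set.mem_ofPred_eq, Set.mem_preimage, act_act, mul_inv_cancel, act_one]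
      exact ⟨fun h => hsym _ _ h, fun h => hsym _ _ h⟩
    rw [e, (h1 g⁻¹).measure_preimage (hmA g).nullMeasurableSet]
  -- pointwise bound
  have hpt : ∀ x ∈ Fr, ∑ p, (A p).indicator (fun _ => (1 : ℝ≥0∞)) x ≤
      ENat.toENNReal (Set.encard {y | (x, y) ∈ H}) := by
    intro x hx
    set T : Finset (Fin 2 × Bool × Bool) := Finset.univ.filter (fun p => x ∈ A p) with hT
    have e1 : ∑ p, (A p).indicator (fun _ => (1 : ℝ≥0∞)) x = (T.card : ℝ≥0∞) := by
      rw [hT, Finset.card_filter]
      push_cast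
      refine Finset.sum_congr rfl fun p _ => ?_
      by_cases h : x ∈ A p <;> simp [h]
    have hinj : Function.Injective (fun p => act (s L p) x) := fun p q h =>
      s_inj L hL (act_inj hx h)
    have e2 : ((T.image (fun p => act (s L p) x) : Finset X) : Set X) ⊆ {y | (x, y) ∈ H} := by
      intro y hy
      rw [Finset.mem_coe, Finset.mem_image] at hy
      obtain ⟨p, hp, rfl⟩ := hy
      exact (Finset.mem_filter.1 hp).2
    have e3 := Set.encard_le_encard e2
    rw [Set.encard_coe_eq_coe_finsetCard, Finset.card_image_of_injective _ hinj] at e3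
    rw [e1]
    have := ENat.toENNReal_le.2 e3
    simpa using this
  have hae : ∀ᵐ x ∂mu, ∑ p, (A p).indicator (fun _ => (1 : ℝ≥0∞)) x ≤
      ENat.toENNReal (Set.encard {y | (x, y) ∈ H}) := by
    have : ∀ᵐ x ∂mu, x ∈ Fr := by
      rw [ae_iff]
      exact h6
    exact this.mono hpt
  refine le_trans (le_of_eq ?_) (lintegral_mono_ae hae)
  rw [lintegral_finsetSum _ (fun p _ => measurable_const.indicator (hmA _))]
  have e4 : ∀ p, ∫⁻ x, (A p).indicator (fun _ => (1 : ℝ≥0∞)) x ∂mu = mu (A p) := fun p => by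
    rw [lintegral_indicator (hmA _)]
    simp [hA]
  rw [Finset.sum_congr rfl (fun p _ => e4 p), Fintype.sum_prod_type]
  refine Finset.sum_congr rfl fun i _ => ?_
  rw [Fintype.sum_prod_type]
  simp only [Fintype.sum_bool, hA, s, hinv]
  ring

end Pool.Agent.H194.CG
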