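import Pool.Agent.H194.CG.Defs

/-!
Task R8: the lower bound.
-/

set_option autoImplicit false
open MeasureTheory
open scoped ENNReal

namespace Pool.Agent.H194.CG

namespace R8

theorem act_mul (g h : Gam) (x : X) : act g (act h x) = act (g * h) x := by
  funext d
  show x (h⁻¹ * (g⁻¹ * d)) = x ((g * h)⁻¹ * d)
  rw [mul_inv_rev, mul_assoc]

theorem dd_mul_cc (i : Fin 2) (L : ℕ) : dd i L * cc i L = gb i := by
  unfold dd
  rw [inv_mul_cancel_right]

end R8

open R8 in
theorem thm_low (h1 : S_mp) (h2 : S_base) (h3 : S_deg) : S_low := by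
  intro L hL H hH hm hs hgen
  have hdeg := h3 L (by omega) H hH hm hs
  refine le_trans ?_ hdeg
  have hb := h2 L hL H hH hm hs hgen
  have hbb : ∀ i : Fin 2, ENNReal.ofReal (4 / 5) ≤ mu (Base i L H) := fun i =>
    ENNReal.ofReal_le_of_le_toReal (hb i)
  have hc : ∀ i : Fin 2, ENNReal.ofReal (4 / 5) ≤ mu {x | (x, act (cc i L) x) ∈ H} := fun i =>
    (hbb i).trans (measure_mono fun x hx => hx.1)
  have hd : ∀ i : Fin 2, ENNReal.ofReal (4 / 5) ≤ mu {x | (x, act (dd i L) x) ∈ H} := by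
    intro i
    have hmeas : MeasurableSet {x | (x, act (dd i L) x) ∈ H} :=
      hm.preimage (measurable_id.prodMk (h1 (dd i L)).measurable)
    rw [← (h1 (cc i L)).measure_preimage hmeas.nullMeasurableSet]
    refine (hbb i).trans (measure_mono fun x hx => ?_)
    show (act (cc i L) x, act (dd i L) (act (cc i L) x)) ∈ H
    rw [act_mul, dd_mul_cc]
    exact hx.2
  have h45 : ENNReal.ofReal (4 / 5) = 4 / 5 := by
    rw [ENNReal.ofReal_div_of_pos (by norm_num)]
    norm_num
  have hsum : ∀ i : Fin 2, (2 * ENNReal.ofReal (4 / 5) + 2 * ENNReal.ofReal (4 / 5)) ≤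
      2 * mu {x | (x, act (cc i L) x) ∈ H} + 2 * mu {x | (x, act (dd i L) x) ∈ H} := fun i =>
    add_le_add (mul_le_mul_right (hc i) 2) (mul_le_mul_right (hd i) 2)
  refine le_trans ?_ (Finset.sum_le_sum fun i _ => hsum i)
  rw [Finset.sum_const, Finset.card_univ, Fintype.card_fin]
  have e1 : (2 : ℝ≥0∞) = ENNReal.ofReal 2 := by norm_num
  have e2 : (32 : ℝ≥0∞) / 5 = ENNReal.ofReal (32 / 5) := by
    rw [ENNReal.ofReal_div_of_pos (by norm_num)]
    norm_num
  rw [e2, two_nsmul, e1, ← ENNReal.ofReal_mul (by norm_num), ← ENNReal.ofReal_add (by norm_num)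
    (by norm_num), ← ENNReal.ofReal_add (by norm_num) (by norm_num)]
  exact ENNReal.ofReal_le_ofReal (by norm_num)

end Pool.Agent.H194.CG
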