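import Pool.Agent.H194.CG.Defs

/-!
Task W1 (helper662): the first letter of the reduced word after multiplication with a generator
from the left.
-/

set_option autoImplicit false

namespace Pool.Agent.H194.CG

namespace W1

/-- no cancellation: the word of `p * g` is `p` followed by the word of `g` -/
theorem toWord_cons (x : Fin 3) (e : Bool) (g : Gam) (h : fst g ≠ some (x, !e)) :
    (FreeGroup.mk [(x, e)] * g).toWord = (x, e) :: g.toWord := by
  rw [FreeGroup.toWord_mul]
  have h1 : (FreeGroup.mk [(x, e)]).toWord = [(x, e)] := by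
    simp [FreeGroup.toWord_mk]
  rw [h1, List.singleton_append, FreeGroup.reduce.cons, FreeGroup.reduce_toWord]
  unfold fst at h
  cases hw : g.toWord with
  | nil => rfl
  | cons hd tl =>
    rw [hw] at h
    have h2 : ¬ ((x, e).1 = hd.1 ∧ (x, e).2 = !hd.2) := by
      rintro ⟨h3, h4⟩
      apply h
      simp only [List.head?_cons, Option.some.injEq]
      refine Prod.ext_iff.2 ⟨h3.symm, ?_⟩
      simp only at h4
      rw [h4]
      simp
    exact if_neg h2

theorem fst_cons (x : Fin 3) (e : Bool) (g : Gam) (h : fst g ≠ some (x, !e)) :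
    fst (FreeGroup.mk [(x, e)] * g) = some (x, e) := by
  unfold fst
  rw [toWord_cons x e g h]
  rfl

theorem inv_of (x : Fin 3) : (FreeGroup.of x)⁻¹ = FreeGroup.mk [(x, false)] := by
  rw [FreeGroup.of, FreeGroup.inv_mk]
  rfl

theorem fst_a (g : Gam) (h : fst g ≠ some (0, false)) : fst (ga * g) = some (0, true) :=
  fst_cons 0 true g h

theorem fst_ai (g : Gam) (h : fst g ≠ some (0, true)) : fst (ga⁻¹ * g) = some (0, false) := by
  rw [ga, inv_of]
  exact fst_cons 0 false g h

end W1

theorem thm_fstb : S_fstb := by
  intro i g h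
  exact W1.fst_cons i.succ true g h

theorem thm_fstbi : S_fstbi := by
  intro i g h
  rw [gb, W1.inv_of]
  exact W1.fst_cons i.succ false g h

theorem thm_fsta : S_fsta := by
  intro n g i e hn hg
  induction n, hn using Nat.le_induction with
  | base =>
    rw [pow_one]
    apply W1.fst_a
    rw [hg]
    simp
  | succ n hn ih =>
    rw [pow_succ', mul_assoc]
    apply W1.fst_a
    rw [ih]
    simp

theorem thm_fstai : S_fstai := by
  intro n g i e hn hg
  rw [← inv_pow]
  induction n, hn using Nat.le_induction with
  | base =>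
    rw [pow_one]
    apply W1.fst_ai
    rw [hg]
    simp
  | succ n hn ih =>
    rw [pow_succ', mul_assoc]
    apply W1.fst_ai
    rw [ih]
    simp

end Pool.Agent.H194.CG
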