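import Pool.Agent.H194.CG.Defs

/-!
Last letters of the reduced words.
-/

set_option autoImplicit false

namespace Pool.Agent.H194.CG

namespace W2

theorem toWord_mul_letter (p : Fin 3 × Bool) (g : Gam) :
    (FreeGroup.mk [p] * g).toWord = match g.toWord with
      | [] => [p]
      | y :: ys => if p.1 = y.1 ∧ p.2 = !y.2 then ys else p :: y :: ys := by
  rw [FreeGroup.toWord_mul, FreeGroup.toWord_mk, FreeGroup.reduce_singleton, List.singleton_append,
    FreeGroup.reduce.cons, FreeGroup.reduce_toWord]
  cases g.toWord <;> rfl

theorem side_mul (i : Fin 2) (p : Fin 3 × Bool) (g : Gam) (hy : (p.1, !p.2) ≠ (i.succ, true))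
    (hp : g ≠ 1 ∨ p ≠ (i.succ, true)) : side i (FreeGroup.mk [p] * g) ↔ side i g := by
  unfold side lst
  rw [toWord_mul_letter]
  cases hg : g.toWord with
  | nil =>
    have hg1 : g = 1 := FreeGroup.toWord_eq_nil_iff.1 hg
    rcases hp with hp | hp
    · exact absurd hg1 hp
    · simp only [List.getLast?_singleton, List.getLast?_nil, Option.some.injEq, reduceCtorEq,
        iff_false]
      exact hp
  | cons y ys =>
    simp only
    split_ifs with h
    · cases ys with
      | nil =>
        simp only [List.getLast?_nil, List.getLast?_singleton, Option.some.injEq, reduceCtorEq,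
          false_iff]
        intro h2
        apply hy
        rw [← h2, h.1, h.2, Bool.not_not]
      | cons z zs => rw [List.getLast?_cons_cons]
    · rw [List.getLast?_cons_cons]

end W2

open W2

theorem thm_sidea : S_sidea := by
  intro i g
  have h : ga = FreeGroup.mk [((0 : Fin 3), true)] := rfl
  rw [h]
  apply side_mul
  · intro h2
    exact absurd (Prod.mk.inj h2).2 (by simp)
  · right
    intro h2
    exact absurd (Prod.mk.inj h2).1 (Fin.succ_ne_zero i).symm

theorem thm_sideo : S_sideo := by
  intro i g
  have h : gb (i + 1) = FreeGroup.mk [((i + 1).succ, true)] := rfl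
  rw [h]
  apply side_mul
  · intro h2
    exact absurd (Prod.mk.inj h2).2 (by simp)
  · right
    intro h2
    have h3 := Fin.succ_injective _ (Prod.mk.inj h2).1
    revert h3
    fin_cases i <;> decide

theorem thm_sideb : S_sideb := by
  refine ⟨fun i g hg => ?_, fun i => ?_, fun i => ?_⟩
  · have h : gb i = FreeGroup.mk [(i.succ, true)] := rfl
    rw [h]
    apply side_mul
    · intro h2
      exact absurd (Prod.mk.inj h2).2 (by simp)
    · exact Or.inl hg
  · unfold side lst
    rw [FreeGroup.toWord_one]
    simp
  · unfold side lst gb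
    rw [FreeGroup.toWord_of]
    rfl

end Pool.Agent.H194.CG
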