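import Pool.Agent.H194.CG.Defs

/-!
W3: the ping-pong regions for the elements `ww i j`, `j ≥ 1`.
-/

set_option autoImplicit false

namespace Pool.Agent.H194.CG

namespace W3

theorem nn_zero : nn 0 = 1 := by simp [nn, ee]

theorem nn_succ (j : ℕ) : nn (j + 1) = 2 * 3 ^ j := by
  simp only [nn, ee, pow_succ]
  omega

theorem nn_strictMono : StrictMono nn := by
  apply strictMono_nat_of_lt_succ
  intro j
  rcases j with _ | j
  · rw [nn_zero, nn_succ]; norm_num
  · rw [nn_succ, nn_succ, pow_succ]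
    have : 0 < 3 ^ j := by positivity
    omega

theorem nn_pos (j : ℕ) : 1 ≤ nn j := by
  rcases j with _ | j
  · rw [nn_zero]
  · rw [nn_succ]
    have : 0 < 3 ^ j := by positivity
    omega

/-- first letter of `ww i j * g` is `b⁻¹` -/
def P (i : Fin 2) (j : ℕ) : Set Gam := {g | fst (ww i j * g) = some (i.succ, false)}

/-- elements of the first kind -/
def RA (i : Fin 2) (j : ℕ) : Set Gam :=
  {x | ∃ s : Gam, fst s = some (i.succ, true) ∧ x = ga ^ nn (j - 1) * s}

/-- elements of the second kind -/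
def RB (i : Fin 2) (j : ℕ) : Set Gam :=
  {x | ∃ s : Gam, fst s = some (i.succ, false) ∧ x = (gb i)⁻¹ * ((ga ^ nn j)⁻¹ * s)}

theorem ww_succ (i : Fin 2) (j : ℕ) (g : Gam) :
    ww i (j + 1) * g = ga ^ nn j * (gb i * (ww i j * g)) := by
  simp only [ww, mul_assoc]

theorem P_succ (h1 : S_fstb) (h3 : S_fsta) (i : Fin 2) (j : ℕ) : P i (j + 1) ⊆ P i j := by
  intro g hg
  by_contra hn
  have e1 : fst (gb i * (ww i j * g)) = some (i.succ, true) := h1 i _ hn
  have e2 := h3 (nn j) _ i true (nn_pos j) e1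
  rw [← ww_succ] at e2
  have e3 : fst (ww i (j + 1) * g) = some (i.succ, false) := hg
  rw [e2] at e3
  simp at e3

theorem P_anti (h1 : S_fstb) (h3 : S_fsta) (i : Fin 2) {j k : ℕ} (h : j ≤ k) :
    P i k ⊆ P i j := by
  induction h with
  | refl => exact le_rfl
  | step _ ih => exact (P_succ h1 h3 i _).trans ih

theorem fst_RA (h3 : S_fsta) {i : Fin 2} {j : ℕ} {x : Gam} (hx : x ∈ RA i j) :
    fst x = some (0, true) := by
  obtain ⟨s, hs, rfl⟩ := hx
  exact h3 _ _ i true (nn_pos _) hs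

theorem fst_RB (h2 : S_fstbi) (h4 : S_fstai) {i : Fin 2} {j : ℕ} {x : Gam} (hx : x ∈ RB i j) :
    fst x = some (i.succ, false) := by
  obtain ⟨s, hs, rfl⟩ := hx
  apply h2
  rw [h4 _ _ i false (nn_pos _) hs]
  simp

theorem RA_lt (h3 : S_fsta) {i : Fin 2} {j k : ℕ} (hj : 1 ≤ j) (hjk : j < k) {x : Gam}
    (hx : x ∈ RA i j) (hy : x ∈ RA i k) : False := by
  obtain ⟨s, hs, rfl⟩ := hx
  obtain ⟨t, ht, e⟩ := hy
  have hlt : nn (j - 1) < nn (k - 1) := nn_strictMono (by omega)
  obtain ⟨d, hd⟩ : ∃ d, nn (k - 1) = nn (j - 1) + d := ⟨nn (k - 1) - nn (j - 1), by omega⟩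
  rw [hd, pow_add, mul_assoc] at e
  have e1 := mul_left_cancel e
  rw [e1, h3 d t i true (by omega) ht] at hs
  simp only [Option.some.injEq, Prod.mk.injEq, and_true] at hs
  exact Fin.succ_ne_zero i hs.symm

theorem RB_lt (h4 : S_fstai) {i : Fin 2} {j k : ℕ} (hjk : j < k) {x : Gam}
    (hx : x ∈ RB i j) (hy : x ∈ RB i k) : False := by
  obtain ⟨s, hs, rfl⟩ := hx
  obtain ⟨t, ht, e⟩ := hy
  have hlt : nn j < nn k := nn_strictMono hjk
  obtain ⟨d, hd⟩ : ∃ d, nn k = d + nn j := ⟨nn k - nn j, by omega⟩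
  have e1 := mul_left_cancel e
  rw [hd, pow_add, mul_inv_rev, mul_assoc] at e1
  have e2 := mul_left_cancel e1
  rw [e2, h4 d t i false (by omega) ht] at hs
  simp only [Option.some.injEq, Prod.mk.injEq, and_true] at hs
  exact Fin.succ_ne_zero i hs.symm

end W3

open W3 in
theorem thm_regions (h1 : S_fstb) (h2 : S_fstbi) (h3 : S_fsta) (h4 : S_fstai) : S_regions := by
  intro i
  refine ⟨fun j => RA i j ∪ RB i j, fun j => P i (j - 1) \ P i (j + 1), ?_, ?_, ?_⟩
  · intro j k hj hk hjk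
    rw [Set.disjoint_left]
    intro x hx hy
    rcases hx with hx | hx <;> rcases hy with hy | hy
    · rcases lt_or_gt_of_ne hjk with h | h
      · exact RA_lt h3 hj h hx hy
      · exact RA_lt h3 hk h hy hx
    · have e1 := fst_RA h3 hx
      rw [fst_RB h2 h4 hy] at e1
      simp at e1
    · have e1 := fst_RA h3 hy
      rw [fst_RB h2 h4 hx] at e1
      simp at e1
    · rcases lt_or_gt_of_ne hjk with h | h
      · exact RB_lt h4 h hx hy
      · exact RB_lt h4 h hy hx
  · intro g s hs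
    rcases s.eq_empty_or_nonempty with rfl | hne
    · simp
    · have hsub : s ⊆ {s.min' hne, s.min' hne + 1} := by
        intro k hk
        rw [Finset.mem_insert, Finset.mem_singleton]
        by_contra hc
        push Not at hc
        have h5 := s.min'_le k hk
        have h6 : s.min' hne + 1 ≤ k - 1 := by omega
        have h7 := (hs _ (s.min'_mem hne)).2.2
        exact h7 (P_anti h1 h3 i h6 (hs k hk).2.1)
      exact (Finset.card_le_card hsub).trans Finset.card_le_two
  · intro j hj g hg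
    have hg' : g ∉ P i (j - 1) ∨ g ∈ P i (j + 1) := by
      by_contra hc
      push Not at hc
      exact hg ⟨hc.1, hc.2⟩
    rcases hg' with h | h
    · left
      refine ⟨gb i * (ww i (j - 1) * g), h1 i _ h, ?_⟩
      rw [← ww_succ, show j - 1 + 1 = j by omega]
    · right
      refine ⟨ww i (j + 1) * g, h, ?_⟩
      rw [ww_succ]
      simp

end Pool.Agent.H194.CG
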