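import Pool.Agent.H194.CG.Defs

/-! Walls crossed by moves of `Lam` and by `b`. -/

set_option autoImplicit false

namespace Pool.Agent.H194.CG

theorem thm_sepL (h1 : S_sidea) (h2 : S_sideo) : S_sepL := by
  intro i u l hl
  have key : ∀ g : Gam, side i (l * g) ↔ side i g := by
    unfold Lam at hl
    induction hl using Subgroup.closure_induction with
    | mem x hx =>
      intro g
      rcases hx with rfl | hx
      · exact h1 i g
      · rw [Set.mem_singleton_iff] at hx
        subst hx
        exact h2 i g
    | one => intro g; rw [one_mul]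
    | mul x y _ _ ihx ihy => intro g; rw [mul_assoc, ihx, ihy]
    | inv x _ ih =>
      intro g
      have := ih (x⁻¹ * g)
      rw [mul_inv_cancel_left] at this
      exact this.symm
  ext γ
  simp only [Sep, Set.mem_ofPred_eq, Set.mem_empty_iff_false, iff_false, not_not]
  rw [mul_assoc]
  exact (key _).symm

theorem thm_sepB (h : S_sideb) : S_sepB := by
  intro i u
  ext γ
  simp only [Sep, Set.mem_ofPred_eq, Set.mem_singleton_iff]
  rw [mul_assoc]
  by_cases hg : u * γ⁻¹ = 1
  · have hγ : γ = u := (mul_inv_eq_one.1 hg).symm
    rw [hg, mul_one]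
    refine ⟨fun _ => hγ, fun _ hc => h.2.1 i (hc.2 (h.2.2 i))⟩
  · constructor
    · intro hc
      exact absurd (h.1 i _ hg).symm hc
    · intro hγ
      exact absurd (mul_inv_eq_one.2 hγ.symm) hg

end Pool.Agent.H194.CG
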