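import Pool.Agent.H194.CG.Defs

/-!
Task W5: the walls crossed by a jump.
-/

set_option autoImplicit false

namespace Pool.Agent.H194.CG

namespace W5

/-- the height: the exponent sum of `a` -/
noncomputable def ht : Gam →* Multiplicative ℤ :=
  FreeGroup.lift (fun k : Fin 3 => if k = 0 then Multiplicative.ofAdd (1 : ℤ) else 1)

lemma ht_ga : ht ga = Multiplicative.ofAdd (1 : ℤ) := by
  simp [ht, ga]

lemma ht_gb (i : Fin 2) : ht (gb i) = 1 := by
  simp [ht, gb]

lemma ee_le (j : ℕ) : ee j ≤ ee (j + 1) := by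
  cases j with
  | zero => simp [ee]
  | succ j =>
    simp only [ee]
    exact Nat.pow_le_pow_right (by norm_num) (Nat.le_succ j)

lemma nn_add (j : ℕ) : nn j + ee j = ee (j + 1) := by
  unfold nn
  have := ee_le j
  omega

lemma ht_ww (i : Fin 2) (j : ℕ) : ht (ww i j) = Multiplicative.ofAdd ((ee j : ℕ) : ℤ) := by
  induction j with
  | zero => simp [ww, ht_gb, ee]
  | succ j ih =>
    rw [ww, map_mul, map_mul, map_pow, ht_ga, ht_gb, ih, mul_one, ← ofAdd_nsmul, ← ofAdd_add]
    congr 1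
    rw [← nn_add j]
    push_cast
    simp

lemma ww_inj (i : Fin 2) (j k : ℕ) (hj : 1 ≤ j) (hk : 1 ≤ k) (h : ww i j = ww i k) : j = k := by
  have h1 : ht (ww i j) = ht (ww i k) := by rw [h]
  rw [ht_ww, ht_ww] at h1
  have h2 : ((ee j : ℕ) : ℤ) = ((ee k : ℕ) : ℤ) := Multiplicative.ofAdd.injective h1
  have h3 : ee j = ee k := by exact_mod_cast h2
  obtain ⟨j, rfl⟩ : ∃ j', j = j' + 1 := ⟨j - 1, by omega⟩
  obtain ⟨k, rfl⟩ : ∃ k', k = k' + 1 := ⟨k - 1, by omega⟩
  simp only [ee] at h3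
  have := Nat.pow_right_injective (le_refl 2 |>.trans (by norm_num : 2 ≤ 3)) h3
  omega

lemma sep_xor (i : Fin 2) (u v w γ : Gam) :
    γ ∈ Sep i u w ↔ ¬ (γ ∈ Sep i u v ↔ γ ∈ Sep i v w) := by
  simp only [Sep, Set.mem_setOf_eq]
  by_cases ha : side i (u * γ⁻¹) <;> by_cases hb : side i (v * γ⁻¹) <;>
    by_cases hc : side i (w * γ⁻¹) <;> simp [ha, hb, hc]

lemma ga_mem (i : Fin 2) (n : ℕ) : ga ^ n ∈ Lam i :=
  Subgroup.pow_mem _ (Subgroup.subset_closure (by simp)) n

lemma step (h1 : S_sepL) (h2 : S_sepB) (i : Fin 2) (u v γ : Gam) :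
    γ ∈ Sep i u (gb i * v) ↔ ¬ (γ ∈ Sep i u v ↔ γ = v) := by
  rw [sep_xor i u v (gb i * v), h2 i v, Set.mem_singleton_iff]

lemma stepL (h1 : S_sepL) (i : Fin 2) (u v l γ : Gam) (hl : l ∈ Lam i) :
    γ ∈ Sep i u (l * v) ↔ γ ∈ Sep i u v := by
  rw [sep_xor i u v (l * v), h1 i v l hl]
  simp

lemma main (h1 : S_sepL) (h2 : S_sepB) (i : Fin 2) (u : Gam) (j : ℕ) (hj : 1 ≤ j) (γ : Gam) :
    γ ∈ Sep i u (ww i j * u) ↔ ∃ k, 1 ≤ k ∧ k < j ∧ γ = ww i k * u := by
  induction j, hj using Nat.le_induction with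
  | base =>
    have : ww i 1 * u = ga ^ nn 0 * u := by
      simp [ww]
    rw [this, h1 i u _ (ga_mem i _)]
    constructor
    · intro h; exact absurd h (Set.notMem_empty _)
    · rintro ⟨k, hk1, hk2, _⟩; omega
  | succ j hj ih =>
    have : ww i (j + 1) * u = ga ^ nn j * (gb i * (ww i j * u)) := by
      simp only [ww]; group
    rw [this, stepL h1 i u _ _ γ (ga_mem i _), step h1 h2, ih]
    constructor
    · intro h
      by_cases hγ : γ = ww i j * u
      · exact ⟨j, hj, Nat.lt_succ_self j, hγ⟩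
      · by_contra hcon
        apply h
        constructor
        · rintro ⟨k, hk1, hk2, hk3⟩
          exact absurd ⟨k, hk1, by omega, hk3⟩ hcon
        · intro h'; exact absurd h' hγ
    · rintro ⟨k, hk1, hk2, hk3⟩ hiff
      rcases Nat.lt_succ_iff_lt_or_eq.1 hk2 with hlt | heq
      · have hγ : γ = ww i j * u := hiff.1 ⟨k, hk1, hlt, hk3⟩
        have : ww i k = ww i j := mul_right_cancel (hk3.symm.trans hγ)
        have := ww_inj i k j hk1 hj this
        omega
      · subst heq
        obtain ⟨k', hk1', hk2', hk3'⟩ := hiff.2 hk3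
        have : ww i k' = ww i k := mul_right_cancel (hk3'.symm.trans hk3)
        have := ww_inj i k' k hk1' hk1 this
        omega

end W5

theorem thm_sepC (h1 : S_sepL) (h2 : S_sepB) : S_sepC := by
  intro i L u
  ext γ
  rw [Set.mem_setOf_eq]
  rcases Nat.eq_zero_or_pos L with hL | hL
  · subst hL
    have : cc i 0 * u = u := by simp [cc, ww]
    rw [this]
    constructor
    · intro h
      exact absurd Iff.rfl h
    · rintro ⟨j, hj1, hj2, _⟩; omega
  · have hc : cc i L * u = gb i * (ww i L * u) := by simp only [cc]; group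
    rw [hc, W5.step h1 h2, W5.main h1 h2 i u L hL]
    constructor
    · intro h
      by_cases hγ : γ = ww i L * u
      · exact ⟨L, hL, le_refl L, hγ⟩
      · by_contra hcon
        apply h
        constructor
        · rintro ⟨k, hk1, hk2, hk3⟩
          exact absurd ⟨k, hk1, by omega, hk3⟩ hcon
        · intro h'; exact absurd h' hγ
    · rintro ⟨k, hk1, hk2, hk3⟩ hiff
      rcases lt_or_eq_of_le hk2 with hlt | heq
      · have hγ : γ = ww i L * u := hiff.1 ⟨k, hk1, hlt, hk3⟩
        have : ww i k = ww i L := mul_right_cancel (hk3.symm.trans hγ)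
        have := W5.ww_inj i k L hk1 hL this
        omega
      · subst heq
        obtain ⟨k', hk1', hk2', hk3'⟩ := hiff.2 hk3
        have : ww i k' = ww i k := mul_right_cancel (hk3'.symm.trans hk3)
        have := W5.ww_inj i k' k hk1' hk1 this
        omega

end Pool.Agent.H194.CG
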