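import Pool.Agent.H194.CG.Defs

/-! Two different walls do not cross (task W6, helper879). -/

set_option autoImplicit false

namespace Pool.Agent.H194.CG

namespace W6

theorem head_invRev (w : List (Fin 3 × Bool)) :
    (FreeGroup.invRev w).head? = w.getLast?.map (fun x => (x.1, !x.2)) := by
  rcases List.eq_nil_or_concat w with rfl | ⟨l, a, rfl⟩
  · simp [FreeGroup.invRev]
  · simp [FreeGroup.invRev]

theorem last_mul (u g : Gam) (hg : g ≠ 1) (h : lst u ≠ lst g) : lst (u * g⁻¹) = lst g⁻¹ := by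
  unfold lst at *
  have hne : (g⁻¹).toWord ≠ [] := by
    intro h0
    rw [FreeGroup.toWord_eq_nil_iff, inv_eq_one] at h0
    exact hg h0
  have hred : FreeGroup.IsReduced (u.toWord ++ (g⁻¹).toWord) := by
    unfold FreeGroup.IsReduced
    rw [List.isChain_append]
    refine ⟨FreeGroup.isReduced_toWord, FreeGroup.isReduced_toWord, ?_⟩
    intro x hx y hy hxy
    by_contra hne2
    rw [FreeGroup.toWord_inv, head_invRev] at hy
    apply h
    rw [Option.mem_def] at hx hy
    rw [hx]
    rw [Option.map_eq_some_iff] at hy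
    obtain ⟨z, hz, hzy⟩ := hy
    rw [hz]
    congr 1
    have h1 : z.1 = y.1 := by rw [← hzy]
    have h2 : (!z.2) = y.2 := by rw [← hzy]
    refine Prod.ext (hxy.trans h1.symm) ?_
    rw [← h2] at hne2
    cases hx2 : x.2 <;> cases hz2 : z.2 <;> simp_all
  rw [FreeGroup.toWord_mul, hred.reduce_eq, List.getLast?_append_of_ne_nil _ hne]

end W6

theorem thm_cross : S_cross := by
  intro i α β hαβ v p q r ⟨h1, h2, h3, h4, h5, h6⟩
  have hg : β * α⁻¹ ≠ 1 := by
    intro h
    exact hαβ (mul_inv_eq_one.1 h).symm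
  have key : ∀ u : Gam, ¬ (side i (u * α⁻¹) ↔ side i (β * α⁻¹)) →
      (side i (u * β⁻¹) ↔ side i (β * α⁻¹)⁻¹) := by
    intro u hu
    have h := W6.last_mul (u * α⁻¹) (β * α⁻¹) hg (by
      intro h
      apply hu
      unfold side
      rw [h])
    have e : u * α⁻¹ * (β * α⁻¹)⁻¹ = u * β⁻¹ := by group
    rw [e] at h
    unfold side
    rw [h]
  have h1' : ¬ (side i (v * α⁻¹) ↔ side i (p * α⁻¹)) := h1
  have h2' : side i (v * β⁻¹) ↔ side i (p * β⁻¹) := not_not.1 h2
  have h3' : side i (v * α⁻¹) ↔ side i (q * α⁻¹) := not_not.1 h3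
  have h4' : ¬ (side i (v * β⁻¹) ↔ side i (q * β⁻¹)) := h4
  have h5' : ¬ (side i (v * α⁻¹) ↔ side i (r * α⁻¹)) := h5
  have h6' : ¬ (side i (v * β⁻¹) ↔ side i (r * β⁻¹)) := h6
  by_cases hA : side i (v * α⁻¹) ↔ side i (β * α⁻¹)
  · have hp := key p (fun h => h1' (hA.trans h.symm))
    have hr := key r (fun h => h5' (hA.trans h.symm))
    exact h6' (h2'.trans (hp.trans hr.symm))
  · have hv := key v hA
    have hq := key q (fun h => hA (h3'.trans h))
    exact h4' (hv.trans hq.symm)

end Pool.Agent.H194.CG
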