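import Pool.Agent.H194.CG.Defs

/-!
# W7: the Sidon property of `{1, w_1, w_2, ...}`
-/

set_option autoImplicit false

namespace Pool.Agent.H194.CG

namespace W7

theorem ee_lt (n : ℕ) : 2 * ee n < ee (n + 1) := by
  cases n with
  | zero => simp [ee]
  | succ n =>
    simp only [ee]
    rw [pow_succ]
    have : 0 < 3 ^ n := by positivity
    omega

theorem ee_mono : StrictMono ee := strictMono_nat_of_lt_succ fun n => by
  have := ee_lt n
  omega

theorem le_lemma {a b c d : ℕ} (hab : a ≤ b) (hcd : c ≤ d) (h : ee a + ee b = ee c + ee d) :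
    a = c ∧ b = d := by
  have h1 : ee a ≤ ee b := ee_mono.monotone hab
  have h2 : ee c ≤ ee d := ee_mono.monotone hcd
  have hbd : b = d := by
    rcases lt_trichotomy b d with hlt | heq | hgt
    · have h3 : ee (b + 1) ≤ ee d := ee_mono.monotone hlt
      have h4 := ee_lt b
      omega
    · exact heq
    · have h3 : ee (d + 1) ≤ ee b := ee_mono.monotone hgt
      have h4 := ee_lt d
      omega
  subst hbd
  have h5 : ee a = ee c := by omega
  exact ⟨ee_mono.injective h5, rfl⟩

theorem sidon {a b c d : ℕ} (h : ee a + ee b = ee c + ee d) : (a = c ∧ b = d) ∨ (a = d ∧ b = c) := by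
  rcases le_total a b with hab | hab <;> rcases le_total c d with hcd | hcd
  · exact Or.inl (le_lemma hab hcd h)
  · have := le_lemma hab hcd (by omega : ee a + ee b = ee d + ee c)
    exact Or.inr this
  · have := le_lemma hab hcd (by omega : ee b + ee a = ee c + ee d)
    exact Or.inr ⟨this.2, this.1⟩
  · have := le_lemma hab hcd (by omega : ee b + ee a = ee d + ee c)
    exact Or.inl ⟨this.2, this.1⟩

/-- the exponent sum of `a` -/
noncomputable def phi : Gam →* Multiplicative ℤ :=
  FreeGroup.lift fun x : Fin 3 => if x = 0 then Multiplicative.ofAdd 1 else 1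

theorem phi_ga : phi ga = Multiplicative.ofAdd 1 := by
  simp [phi, ga]

theorem phi_gb (i : Fin 2) : phi (gb i) = 1 := by
  simp [phi, gb]

theorem phi_ww (i : Fin 2) (j : ℕ) : Multiplicative.toAdd (phi (ww i j)) = (ee j : ℤ) := by
  induction j with
  | zero => simp [ww, phi_gb, ee]
  | succ j ih =>
    have h1 : ee j ≤ ee (j + 1) := ee_mono.monotone (Nat.le_succ j)
    simp only [ww, map_mul, map_pow, phi_ga, phi_gb, mul_one, toAdd_mul, toAdd_pow, toAdd_ofAdd, ih]
    unfold nn
    rw [nsmul_eq_mul, mul_one]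
    push_cast [Nat.cast_sub h1]
    ring

theorem phi_tt (i : Fin 2) (j : ℕ) : Multiplicative.toAdd (phi (tt i j)) = (ee j : ℤ) := by
  unfold tt
  split_ifs with h
  · subst h; simp [ee]
  · exact phi_ww i j

end W7

theorem thm_sidon : S_sidon := by
  intro i j k j' k' h hjk
  have h1 := congrArg (fun g => Multiplicative.toAdd (W7.phi g)) h
  simp only [map_mul, map_inv, toAdd_mul, toAdd_inv, W7.phi_tt] at h1
  have h2 : ee j + ee k' = ee j' + ee k := by omega
  rcases W7.sidon h2 with h3 | h3
  · exact ⟨h3.1, h3.2.symm⟩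
  · exact absurd h3.1 hjk

end Pool.Agent.H194.CG
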