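import Pool.Agent.H194.CG.Defs

/-!
# The small cancellation lemma
-/

set_option autoImplicit false

namespace Pool.Agent.H194.CG

namespace W8

/-- the walls of `M` which separate -/
def D (i : Fin 2) (M : Set Gam) (u v : Gam) : Set Gam := {γ | γ ∈ Sep i u v ∧ γ ∈ M}

variable {i : Fin 2} {M : Set Gam} {u v w : Gam} {L : ℕ}

theorem mem_D {γ : Gam} : γ ∈ D i M u v ↔
    ¬ (side i (u * γ⁻¹) ↔ side i (v * γ⁻¹)) ∧ γ ∈ M := Iff.rfl

theorem D_symm (i : Fin 2) (M : Set Gam) (u v : Gam) : D i M u v = D i M v u := by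
  ext γ
  rw [mem_D, mem_D]
  tauto

theorem D_self (i : Fin 2) (M : Set Gam) (u : Gam) : D i M u u = ∅ := by
  ext γ
  rw [mem_D]
  simp

theorem D_left (h : D i M u v = ∅) (w : Gam) : D i M u w = D i M v w := by
  ext γ
  have h1 := Set.eq_empty_iff_forall_notMem.1 h γ
  rw [mem_D] at h1
  rw [mem_D, mem_D]
  tauto

theorem D_right (h : D i M u v = ∅) (w : Gam) : D i M w u = D i M w v := by
  rw [D_symm i M w u, D_symm i M w v, D_left h]

theorem D_tri (v : Gam) {γ : Gam} : γ ∈ D i M u w ↔ ¬ (γ ∈ D i M u v ↔ γ ∈ D i M v w) := by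
  rw [mem_D, mem_D, mem_D]
  tauto

theorem card_lemma {α : Type} (W C S : Set α) (hW : W.Finite) (hC : C.Finite)
    (hS : ∀ x, x ∈ S ↔ ¬ (x ∈ W ↔ x ∈ C)) (h : S.ncard ≤ W.ncard) (h3 : 3 ≤ C.ncard) :
    2 ≤ (W ∩ C).ncard := by
  have e1 : S = (W \ C) ∪ (C \ W) := by
    ext x
    rw [hS, Set.mem_union, Set.mem_sdiff, Set.mem_sdiff]
    tauto
  have e2 : S.ncard = (W \ C).ncard + (C \ W).ncard := by
    rw [e1]
    refine Set.ncard_union_eq ?_ (hW.subset Set.sdiff_subset) (hC.subset Set.sdiff_subset)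
    rw [Set.disjoint_left]
    intro x hx hx'
    exact hx.2 hx'.1
  have e3 := Set.ncard_inter_add_ncard_sdiff_eq_ncard W C hW
  have e4 := Set.ncard_inter_add_ncard_sdiff_eq_ncard C W hC
  rw [Set.inter_comm C W] at e4
  omega

theorem two_common {α : Type} (W C C' : Set α) (hW : W.Finite) (h1 : 2 ≤ (W ∩ C).ncard)
    (h2 : 2 ≤ (W ∩ C').ncard)
    (hn : ∀ a b, a ∈ W → a ∈ C → a ∉ C' → b ∈ W → b ∈ C' → b ∉ C → False) :
    ∃ a b, a ≠ b ∧ a ∈ C ∧ a ∈ C' ∧ b ∈ C ∧ b ∈ C' := by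
  by_cases h : ∀ a, a ∈ W → a ∈ C → a ∈ C'
  · obtain ⟨a, b, ha, hb, hab⟩ :=
      (Set.one_lt_ncard_iff (hW.subset Set.inter_subset_left)).1 (show 1 < (W ∩ C).ncard by omega)
    exact ⟨a, b, hab, ha.2, h a ha.1 ha.2, hb.2, h b hb.1 hb.2⟩
  · push Not at h
    obtain ⟨a0, ha1, ha2, ha3⟩ := h
    have h' : ∀ b, b ∈ W → b ∈ C' → b ∈ C := by
      intro b hb1 hb2
      by_contra hb3
      exact hn a0 b ha1 ha2 ha3 hb1 hb2 hb3
    obtain ⟨a, b, ha, hb, hab⟩ :=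
      (Set.one_lt_ncard_iff (hW.subset Set.inter_subset_left)).1 (show 1 < (W ∩ C').ncard by omega)
    exact ⟨a, b, hab, h' a ha.1 ha.2, ha.2, h' b hb.1 hb.2, hb.2⟩

theorem tt_inj (h5 : S_sidon) (i : Fin 2) {j k : ℕ} (h : tt i j = tt i k) : j = k := by
  by_contra hne
  exact hne (h5 i j k k k (by rw [h]) hne).1

theorem tt_zero (i : Fin 2) : tt i 0 = 1 := rfl

theorem tt_pos (i : Fin 2) {j : ℕ} (h : 1 ≤ j) : tt i j = ww i j := by
  unfold tt
  rw [if_neg (by omega)]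

/-- the shape of a jump with base `x` -/
def Shape (i : Fin 2) (L : ℕ) (x p q : Gam) : Prop :=
  (p = x ∧ q = cc i L * x) ∨ (p = cc i L * x ∧ q = x) ∨ (p = cc i L * x ∧ q = gb i * x) ∨
    (p = gb i * x ∧ q = cc i L * x)

theorem D_c (h3 : S_sepC) (x γ : Gam) : γ ∈ D i M x (cc i L * x) ↔
    (∃ j, 1 ≤ j ∧ j ≤ L ∧ γ = ww i j * x) ∧ γ ∈ M := by
  have h := h3 i L x
  show γ ∈ Sep i x (cc i L * x) ∧ γ ∈ M ↔ _
  rw [h]
  rfl

theorem D_b (h2 : S_sepB) (x γ : Gam) : γ ∈ D i M x (gb i * x) ↔ γ = x ∧ γ ∈ M := by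
  have h := h2 i x
  show γ ∈ Sep i x (gb i * x) ∧ γ ∈ M ↔ _
  rw [h]
  rfl

/-- the walls of a jump -/
theorem shape_sub (h2 : S_sepB) (h3 : S_sepC) {x p q : Gam} (hs : Shape i L x p q) :
    D i M p q ⊆ {γ | ∃ j ≤ L, γ = tt i j * x} := by
  have hc : ∀ γ ∈ D i M x (cc i L * x), ∃ j ≤ L, γ = tt i j * x := by
    intro γ hγ
    rw [D_c h3] at hγ
    obtain ⟨⟨j, hj1, hj2, rfl⟩, _⟩ := hγ
    exact ⟨j, hj2, by rw [tt_pos i hj1]⟩
  have hb : ∀ γ ∈ D i M (cc i L * x) (gb i * x), ∃ j ≤ L, γ = tt i j * x := by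
    intro γ hγ
    rw [D_tri x] at hγ
    by_cases h : γ ∈ D i M x (gb i * x)
    · rw [D_b h2] at h
      exact ⟨0, Nat.zero_le _, by rw [tt_zero, one_mul]; exact h.1⟩
    · refine hc γ ?_
      rw [D_symm i M x]
      tauto
  rcases hs with ⟨rfl, rfl⟩ | ⟨rfl, rfl⟩ | ⟨rfl, rfl⟩ | ⟨rfl, rfl⟩
  · exact hc
  · rw [D_symm]; exact hc
  · exact hb
  · rw [D_symm]; exact hb

theorem base_finite (i : Fin 2) (L : ℕ) (x : Gam) : {γ : Gam | ∃ j ≤ L, γ = tt i j * x}.Finite := by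
  have : {γ : Gam | ∃ j ≤ L, γ = tt i j * x} ⊆ (fun j => tt i j * x) '' Set.Iic L := by
    rintro γ ⟨j, hj, rfl⟩
    exact ⟨j, hj, rfl⟩
  exact ((Set.finite_Iic L).image _).subset this

/-- a jump crosses no wall or at least three walls -/
theorem shape_card (h2 : S_sepB) (h3 : S_sepC) (h5 : S_sidon)
    (hM : ∀ γ, cnt i L M γ ≤ 2 → cnt i L M γ = 0 ∧ γ ∉ M) {x p q : Gam} (hs : Shape i L x p q)
    (hne : D i M p q ≠ ∅) : 3 ≤ (D i M p q).ncard := by
  classical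
  have hfin : (D i M p q).Finite := (base_finite i L x).subset (shape_sub h2 h3 hs)
  have hww : ∀ j, 1 ≤ j → j ≤ L → ww i j * x ∈ M → ww i j * x ∈ D i M p q := by
    intro j hj1 hj2 hjM
    have hc : ww i j * x ∈ D i M x (cc i L * x) := by
      rw [D_c h3]
      exact ⟨⟨j, hj1, hj2, rfl⟩, hjM⟩
    have hnb : ww i j * x ∉ D i M x (gb i * x) := by
      rw [D_b h2]
      rintro ⟨h, _⟩
      have h1 : ww i j = 1 := by
        have := congrArg (fun g => g * x⁻¹) h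
        simpa using this
      rw [← tt_pos i hj1, ← tt_zero i] at h1
      have := tt_inj h5 i h1
      omega
    have hb : ww i j * x ∈ D i M (cc i L * x) (gb i * x) := by
      rw [D_tri x, D_symm i M (cc i L * x)]
      tauto
    rcases hs with ⟨rfl, rfl⟩ | ⟨rfl, rfl⟩ | ⟨rfl, rfl⟩ | ⟨rfl, rfl⟩
    · exact hc
    · rw [D_symm]; exact hc
    · exact hb
    · rw [D_symm]; exact hb
  have hcnt : 3 ≤ cnt i L M x := by
    by_contra hlt
    obtain ⟨h0, hxM⟩ := hM x (by omega)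
    apply hne
    rw [Set.eq_empty_iff_forall_notMem]
    intro γ hγ
    obtain ⟨j, hj, rfl⟩ := shape_sub h2 h3 hs hγ
    have hjM : tt i j * x ∈ M := hγ.2
    rcases Nat.eq_zero_or_pos j with rfl | hj1
    · rw [tt_zero, one_mul] at hjM
      exact hxM hjM
    · rw [tt_pos i hj1] at hjM
      unfold cnt at h0
      rw [Finset.card_eq_zero] at h0
      have : j ∈ (Finset.Icc 1 L).filter (fun j => ww i j * x ∈ M) := by
        rw [Finset.mem_filter, Finset.mem_Icc]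
        exact ⟨⟨hj1, hj⟩, hjM⟩
      rw [h0] at this
      exact absurd this (Finset.notMem_empty _)
  have hinj : Set.InjOn (fun j => ww i j * x)
      ((Finset.Icc 1 L).filter (fun j => ww i j * x ∈ M) : Set ℕ) := by
    intro j hj k hk hjk
    rw [Finset.mem_coe, Finset.mem_filter, Finset.mem_Icc] at hj hk
    have h1 : ww i j = ww i k := mul_right_cancel hjk
    rw [← tt_pos i hj.1.1, ← tt_pos i hk.1.1] at h1
    exact tt_inj h5 i h1
  have hcard : (((Finset.Icc 1 L).filter (fun j => ww i j * x ∈ M)).image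
      (fun j => ww i j * x)).card = cnt i L M x := by
    rw [Finset.card_image_of_injOn hinj]
    rfl
  have hsub : ((((Finset.Icc 1 L).filter (fun j => ww i j * x ∈ M)).image
      (fun j => ww i j * x) : Finset Gam) : Set Gam) ⊆ D i M p q := by
    intro γ hγ
    rw [Finset.mem_coe, Finset.mem_image] at hγ
    obtain ⟨j, hj, rfl⟩ := hγ
    rw [Finset.mem_filter, Finset.mem_Icc] at hj
    exact hww j hj.1.1 hj.1.2 hj.2
  have := Set.ncard_le_ncard hsub hfin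
  rw [Set.ncard_coe_finset, hcard] at this
  omega

/-- sequences of jumps -/
def Path (i : Fin 2) (M : Set Gam) (R : Gam → Gam → Prop) : List (Gam × Gam) → Gam → Gam → Prop
  | [], u, v => D i M u v = ∅
  | e :: l, u, v => D i M u e.1 = ∅ ∧ R e.1 e.2 ∧ D i M e.1 e.2 ≠ ∅ ∧ Path i M R l e.2 v

variable {R : Gam → Gam → Prop}

theorem Path.left {l : List (Gam × Gam)} {u u' v : Gam} (h : D i M u u' = ∅)
    (hp : Path i M R l u' v) : Path i M R l u v := by
  cases l with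
  | nil =>
    show D i M u v = ∅
    rw [D_left h]
    exact hp
  | cons e l =>
    refine ⟨?_, hp.2⟩
    rw [D_left h]
    exact hp.1

theorem Path.append {l1 l2 : List (Gam × Gam)} {u w v : Gam}
    (h1 : Path i M R l1 u w) (h2 : Path i M R l2 w v) : Path i M R (l1 ++ l2) u v := by
  induction l1 generalizing u with
  | nil => exact h2.left h1
  | cons e l ih => exact ⟨h1.1, h1.2.1, h1.2.2.1, ih h1.2.2.2⟩

theorem Path.split {l1 l2 : List (Gam × Gam)} {u v : Gam} (h : Path i M R (l1 ++ l2) u v) :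
    ∃ w, Path i M R l1 u w ∧ Path i M R l2 w v := by
  induction l1 generalizing u with
  | nil => exact ⟨u, D_self i M u, h⟩
  | cons e l ih =>
    obtain ⟨w, hw1, hw2⟩ := ih h.2.2.2
    exact ⟨w, ⟨h.1, h.2.1, h.2.2.1, hw1⟩, hw2⟩

theorem Path.last {l : List (Gam × Gam)} {u w : Gam} (h : Path i M R l u w) :
    D i M u w = ∅ ∨ ∃ e ∈ l, D i M e.2 w = ∅ := by
  induction l generalizing u with
  | nil => exact Or.inl h
  | cons e l ih =>
    rcases ih h.2.2.2 with h1 | ⟨e', he', h1⟩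
    · exact Or.inr ⟨e, by simp, h1⟩
    · exact Or.inr ⟨e', by simp [he'], h1⟩

theorem path_exists {u v : Gam} (h : Relation.ReflTransGen R u v) :
    ∃ l, Path i M R l u v := by
  induction h using Relation.ReflTransGen.head_induction_on with
  | refl => exact ⟨[], D_self i M _⟩
  | @head a c hac _ ih =>
    obtain ⟨l, hl⟩ := ih
    by_cases h : D i M a c = ∅
    · exact ⟨l, hl.left h⟩
    · exact ⟨(a, c) :: l, D_self i M a, hac, h, hl⟩

theorem Path.finite (hfin : ∀ p q, R p q → D i M p q ≠ ∅ → (D i M p q).Finite)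
    {l : List (Gam × Gam)} {u w : Gam} (h : Path i M R l u w) :
    ∀ e ∈ l, (D i M u e.2).Finite := by
  induction l generalizing u with
  | nil => intro e he; exact absurd he (by simp)
  | cons e l ih =>
    have h0 : (D i M u e.2).Finite := by
      rw [D_left h.1]
      exact hfin _ _ h.2.1 h.2.2.1
    intro e' he'
    rcases List.mem_cons.1 he' with rfl | he'
    · exact h0
    · refine (h0.union (ih h.2.2.2 e' he')).subset ?_
      intro γ hγ
      rw [D_tri e.2] at hγ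
      rw [Set.mem_union]
      tauto

/-- two consecutive jumps with the same base -/
theorem key (h2 : S_sepB) (hsym : ∀ u v, R u v → R v u)
    (hR : ∀ γ ∈ M, ¬ (R γ (cc i L * γ) ∧ R (cc i L * γ) (gb i * γ))) {x p q p' q' : Gam}
    (hs : Shape i L x p q) (hs' : Shape i L x p' q') (hpq : R p q) (hpq' : R p' q')
    (hD : D i M p q ≠ ∅) (h : D i M q p' = ∅) : D i M p q' = ∅ := by
  obtain ⟨y, h1, h2⟩ : ∃ y, ((p = cc i L * x ∧ D i M q y = ∅) ∨ (D i M p y = ∅ ∧ q = cc i L * x)) ∧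
      ((p' = cc i L * x ∧ D i M q' y = ∅) ∨ (D i M p' y = ∅ ∧ q' = cc i L * x)) := by
    by_cases hx : x ∈ M
    · have hno := hR x hx
      rcases hs with ⟨rfl, rfl⟩ | ⟨rfl, rfl⟩ | ⟨rfl, rfl⟩ | ⟨rfl, rfl⟩
      · rcases hs' with ⟨rfl, rfl⟩ | ⟨rfl, rfl⟩ | ⟨rfl, rfl⟩ | ⟨rfl, rfl⟩
        · exact ⟨_, Or.inr ⟨D_self i M _, rfl⟩, Or.inr ⟨D_self i M _, rfl⟩⟩
        · exact ⟨_, Or.inr ⟨D_self i M _, rfl⟩, Or.inl ⟨rfl, D_self i M _⟩⟩
        · exact absurd ⟨hpq, hpq'⟩ hno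
        · exact absurd ⟨hpq, hsym _ _ hpq'⟩ hno
      · rcases hs' with ⟨rfl, rfl⟩ | ⟨rfl, rfl⟩ | ⟨rfl, rfl⟩ | ⟨rfl, rfl⟩
        · exact ⟨_, Or.inl ⟨rfl, D_self i M _⟩, Or.inr ⟨D_self i M _, rfl⟩⟩
        · exact ⟨_, Or.inl ⟨rfl, D_self i M _⟩, Or.inl ⟨rfl, D_self i M _⟩⟩
        · exact absurd ⟨hsym _ _ hpq, hpq'⟩ hno
        · exact absurd ⟨hsym _ _ hpq, hsym _ _ hpq'⟩ hno
      · rcases hs' with ⟨rfl, rfl⟩ | ⟨rfl, rfl⟩ | ⟨rfl, rfl⟩ | ⟨rfl, rfl⟩
        · exact absurd ⟨hpq', hpq⟩ hno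
        · exact absurd ⟨hsym _ _ hpq', hpq⟩ hno
        · exact ⟨_, Or.inl ⟨rfl, D_self i M _⟩, Or.inl ⟨rfl, D_self i M _⟩⟩
        · exact ⟨_, Or.inl ⟨rfl, D_self i M _⟩, Or.inr ⟨D_self i M _, rfl⟩⟩
      · rcases hs' with ⟨rfl, rfl⟩ | ⟨rfl, rfl⟩ | ⟨rfl, rfl⟩ | ⟨rfl, rfl⟩
        · exact absurd ⟨hpq', hsym _ _ hpq⟩ hno
        · exact absurd ⟨hsym _ _ hpq', hsym _ _ hpq⟩ hno
        · exact ⟨_, Or.inr ⟨D_self i M _, rfl⟩, Or.inl ⟨rfl, D_self i M _⟩⟩
        · exact ⟨_, Or.inr ⟨D_self i M _, rfl⟩, Or.inr ⟨D_self i M _, rfl⟩⟩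
    · have hb : D i M (gb i * x) x = ∅ := by
        rw [D_symm, Set.eq_empty_iff_forall_notMem]
        intro γ hγ
        rw [D_b h2] at hγ
        rw [hγ.1] at hγ
        exact hx hγ.2
      have hgen : ∀ p q, Shape i L x p q →
          ((p = cc i L * x ∧ D i M q x = ∅) ∨ (D i M p x = ∅ ∧ q = cc i L * x)) := by
        rintro p q (⟨rfl, rfl⟩ | ⟨rfl, rfl⟩ | ⟨rfl, rfl⟩ | ⟨rfl, rfl⟩)
        · exact Or.inr ⟨D_self i M _, rfl⟩
        · exact Or.inl ⟨rfl, D_self i M _⟩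
        · exact Or.inl ⟨rfl, hb⟩
        · exact Or.inr ⟨hb, rfl⟩
      exact ⟨x, hgen p q hs, hgen p' q' hs'⟩
  rcases h1 with ⟨h1, h1'⟩ | ⟨h1, h1'⟩
  · rcases h2 with ⟨h2, h2'⟩ | ⟨h2, h2'⟩
    · exfalso
      apply hD
      rw [D_symm, h1, ← h2]
      exact h
    · rw [h1, h2']
      exact D_self i M _
  · rcases h2 with ⟨h2, h2'⟩ | ⟨h2, h2'⟩
    · rw [D_left h1, D_symm]
      exact h2'
    · exfalso
      apply hD
      rw [D_left h1, ← D_left h2, D_symm]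
      exact h

end W8

open W8 in
theorem thm_lemC (h1 : S_sepL) (h2 : S_sepB) (h3 : S_sepC) (h4 : S_cross) (h5 : S_sidon) :
    S_lemC := by
  classical
  intro i L M hM R hsym hR hno γ₀ hγ₀ hpath
  -- every jump has a shape
  have hshape : ∀ p q, R p q → D i M p q ≠ ∅ → ∃ x, Shape i L x p q := by
    intro p q hpq hne
    rcases hR p q hpq with ⟨l, hl, rfl⟩ | ⟨γ, ⟨rfl, rfl⟩ | ⟨rfl, rfl⟩⟩ | ⟨γ, ⟨rfl, rfl⟩ | ⟨rfl, rfl⟩⟩
    · exfalso
      apply hne
      rw [Set.eq_empty_iff_forall_notMem]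
      intro γ hγ
      have : γ ∈ Sep i p (l * p) := hγ.1
      rw [h1 i p l hl] at this
      exact this
    · exact ⟨_, Or.inl ⟨rfl, rfl⟩⟩
    · exact ⟨_, Or.inr (Or.inl ⟨rfl, rfl⟩)⟩
    · exact ⟨_, Or.inr (Or.inr (Or.inl ⟨rfl, rfl⟩))⟩
    · exact ⟨_, Or.inr (Or.inr (Or.inr ⟨rfl, rfl⟩))⟩
  have hfin : ∀ p q, R p q → D i M p q ≠ ∅ → (D i M p q).Finite := by
    intro p q hpq hne
    obtain ⟨x, hx⟩ := hshape p q hpq hne
    exact (base_finite i L x).subset (shape_sub h2 h3 hx)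
  have hcard : ∀ p q, R p q → D i M p q ≠ ∅ → 3 ≤ (D i M p q).ncard := by
    intro p q hpq hne
    obtain ⟨x, hx⟩ := hshape p q hpq hne
    exact shape_card h2 h3 h5 hM hx hne
  have hb : D i M γ₀ (gb i * γ₀) = {γ₀} := by
    ext γ
    rw [D_b h2, Set.mem_singleton_iff]
    constructor
    · exact fun h => h.1
    · rintro rfl
      exact ⟨rfl, hγ₀⟩
  -- no sequence of jumps
  have main : ∀ (n : ℕ) (l : List (Gam × Gam)), l.length = n →
      ¬ Path i M R l γ₀ (gb i * γ₀) := by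
    intro n
    induction n using Nat.strong_induction_on with
    | _ n ih =>
    intro l hl hp
    have hne : l ≠ [] := by
      rintro rfl
      have : D i M γ₀ (gb i * γ₀) = ∅ := hp
      rw [hb] at this
      exact absurd this (Set.singleton_ne_empty _)
    obtain ⟨e, hel, hmax⟩ : ∃ e ∈ l, ∀ e' ∈ l,
        (D i M γ₀ e'.2).ncard ≤ (D i M γ₀ e.2).ncard := by
      obtain ⟨e, he, hmax⟩ := Finset.exists_max_image l.toFinset
        (fun e => (D i M γ₀ e.2).ncard) (by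
          obtain ⟨e, he⟩ := List.exists_mem_of_ne_nil l hne
          exact ⟨e, List.mem_toFinset.2 he⟩)
      exact ⟨e, List.mem_toFinset.1 he, fun e' he' => hmax e' (List.mem_toFinset.2 he')⟩
    have hWfin : (D i M γ₀ e.2).Finite := hp.finite hfin e hel
    obtain ⟨l1, l2, rfl⟩ := List.append_of_mem hel
    obtain ⟨w, hp1, hp2⟩ := hp.split
    obtain ⟨hwe, hRe, hDe, hp3⟩ := hp2
    -- the jump before
    have hS : (D i M γ₀ e.1).ncard ≤ (D i M γ₀ e.2).ncard := by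
      rw [← D_right hwe]
      rcases hp1.last with h | ⟨e', he', h⟩
      · rw [h, Set.ncard_empty]
        exact Nat.zero_le _
      · rw [← D_right h]
        exact hmax e' (by simp [he'])
    have hWC : 2 ≤ (D i M γ₀ e.2 ∩ D i M e.1 e.2).ncard := by
      refine card_lemma _ _ (D i M γ₀ e.1) hWfin (hfin _ _ hRe hDe) ?_ hS (hcard _ _ hRe hDe)
      intro x
      rw [D_tri e.2, D_symm i M e.2 e.1]
    have hW2 : 2 ≤ (D i M γ₀ e.2).ncard :=
      hWC.trans (Set.ncard_le_ncard Set.inter_subset_left hWfin)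
    cases l2 with
    | nil =>
      have h6 : D i M e.2 (gb i * γ₀) = ∅ := hp3
      rw [D_right h6, hb, Set.ncard_singleton] at hW2
      omega
    | cons e' l3 =>
      obtain ⟨hee, hRe', hDe', hp4⟩ := hp3
      have hS' : (D i M γ₀ e'.2).ncard ≤ (D i M γ₀ e.2).ncard := hmax e' (by simp)
      have hC' : D i M e.2 e'.2 = D i M e'.1 e'.2 := D_left hee _
      have hWC' : 2 ≤ (D i M γ₀ e.2 ∩ D i M e'.1 e'.2).ncard := by
        refine card_lemma _ _ (D i M γ₀ e'.2) hWfin (hfin _ _ hRe' hDe') ?_ hS'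
          (hcard _ _ hRe' hDe')
        intro x
        rw [D_tri e.2, hC']
      obtain ⟨α, β, hαβ, hαC, hαC', hβC, hβC'⟩ := two_common _ _ _ hWfin hWC hWC' (by
        intro α β ha1 ha2 ha3 hb1 hb2 hb3
        have hne : α ≠ β := by
          rintro rfl
          exact ha3 hb2
        rw [← hC'] at ha3 hb2
        rw [D_symm] at ha1 hb1 ha2
        rw [D_symm i M e.1] at hb3
        refine h4 i α β hne e.2 e.1 e'.2 γ₀ ⟨ha2.1, ?_, ?_, hb2.1, ha1.1, hb1.1⟩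
        · exact fun h => hb3 ⟨h, hb1.2⟩
        · exact fun h => ha3 ⟨h, ha1.2⟩)
      obtain ⟨x, hx⟩ := hshape _ _ hRe hDe
      obtain ⟨x', hx'⟩ := hshape _ _ hRe' hDe'
      obtain ⟨a, _, ha⟩ := shape_sub h2 h3 hx hαC
      obtain ⟨b, _, hb'⟩ := shape_sub h2 h3 hx hβC
      obtain ⟨a', _, ha'⟩ := shape_sub h2 h3 hx' hαC'
      obtain ⟨b', _, hb''⟩ := shape_sub h2 h3 hx' hβC'
      have hab : a ≠ b := by
        rintro rfl
        exact hαβ (ha.trans hb'.symm)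
      have e1 : tt i a * (tt i b)⁻¹ = α * β⁻¹ := by rw [ha, hb']; group
      have e2 : tt i a' * (tt i b')⁻¹ = α * β⁻¹ := by rw [ha', hb'']; group
      obtain ⟨haa, _⟩ := h5 i a b a' b' (e1.trans e2.symm) hab
      have hxx : x = x' := by
        rw [← haa] at ha'
        exact mul_left_cancel (ha.symm.trans ha')
      subst hxx
      have hk := key h2 hsym hno hx hx' hRe hRe' hDe hee
      have hnew : Path i M R (l1 ++ l3) γ₀ (gb i * γ₀) := by
        refine hp1.append (hp4.left ?_)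
        rw [D_left hwe]
        exact hk
      exact ih (l1 ++ l3).length (by rw [← hl]; simp) _ rfl hnew
  obtain ⟨l, hl⟩ := path_exists (i := i) (M := M) hpath
  exact main _ l rfl hl

end Pool.Agent.H194.CG
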