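import Pool.Agent.H194.CG.Defs
import Pool.Agent.H194.CG.W1
import Pool.Agent.H194.CG.W2
import Pool.Agent.H194.CG.W3
import Pool.Agent.H194.CG.W4
import Pool.Agent.H194.CG.W5
import Pool.Agent.H194.CG.W6
import Pool.Agent.H194.CG.W7
import Pool.Agent.H194.CG.W8
import Pool.Agent.H194.CG.P1
import Pool.Agent.H194.CG.B1
import Pool.Agent.H194.CG.B2
import Pool.Agent.H194.CG.B3
import Pool.Agent.H194.CG.B4
import Pool.Agent.H194.CG.B5
import Pool.Agent.H194.CG.B6
import Pool.Agent.H194.CG.R1
import Pool.Agent.H194.CG.R2
import Pool.Agent.H194.CG.R3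
import Pool.Agent.H194.CG.R4
import Pool.Agent.H194.CG.R5
import Pool.Agent.H194.CG.R6
import Pool.Agent.H194.CG.R7
import Pool.Agent.H194.CG.R8

/-! Assembly of the first part. -/

set_option autoImplicit false
open MeasureTheory
open scoped ENNReal

namespace Pool.Agent.H194.CG

theorem pp_holds : S_pp := thm_pp (thm_regions thm_fstb thm_fstbi thm_fsta thm_fstai)
theorem sepL_holds : S_sepL := thm_sepL thm_sidea thm_sideo
theorem sepB_holds : S_sepB := thm_sepB thm_sideb
theorem sepC_holds : S_sepC := thm_sepC sepL_holds sepB_holds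
theorem lemC_holds : S_lemC := thm_lemC sepL_holds sepB_holds sepC_holds thm_cross thm_sidon
theorem parseval_holds : S_parseval := thm_parseval thm_chiInt
theorem var_holds : S_var := thm_var thm_mp parseval_holds (thm_coef thm_mp) pp_holds
theorem bad_holds : S_bad := thm_bad thm_mp var_holds
theorem clos_holds : S_clos := thm_clos thm_mp bad_holds
theorem base_holds : S_base := thm_base thm_mp clos_holds lemC_holds thm_frM thm_frI thm_frN
theorem deg_holds : S_deg := thm_deg thm_mp thm_frM thm_frI thm_frN
theorem low_holds : S_low := thm_low thm_mp base_holds deg_holds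

end Pool.Agent.H194.CG
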