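import Pool.Agent.H194.CG.Defs

/-! R3 (helper338): the relation preserves the Bernoulli measure. -/

set_option autoImplicit false
open MeasureTheory
open scoped ENNReal

namespace Pool.Agent.H194.CG

namespace R3

theorem act_inj (g : Gam) : Function.Injective (act g) := by
  intro x y h
  funext d
  have := congrFun h (g * d)
  simpa [act] using this

theorem act_one (x : X) : act 1 x = x := by
  funext d
  simp [act]

theorem meas_eq (φ ψ : X → X) (hφ : Measurable φ) (hψ : Measurable ψ) :
    MeasurableSet {x | φ x = ψ x} := by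
  have : {x | φ x = ψ x} = ⋂ d : Gam, {x | φ x d = ψ x d} := by
    ext x
    simp only [Set.mem_ofPred_eq, Set.mem_iInter]
    exact ⟨fun h d => by rw [h], fun h => funext h⟩
  rw [this]
  have hc : Countable Gam := by
    unfold Gam FreeGroup
    infer_instance
  refine MeasurableSet.iInter fun d => ?_
  exact measurableSet_eq_fun ((measurable_pi_apply d).comp hφ)
    ((measurable_pi_apply d).comp hψ)

end R3

open R3 in
theorem thm_pmp (h1 : S_mp) (h2 : S_frM) (h3 : S_frI) : S_pmp := by
  intro φ hφ
  have hc : Countable Gam := by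
    unfold Gam FreeGroup
    infer_instance
  obtain ⟨f, hf⟩ := exists_surjective_nat Gam
  have hex : ∀ x, ∃ g : Gam, φ x = act g x := by
    intro x
    rcases hφ x with h | ⟨_, g, h⟩
    · exact ⟨1, by rw [act_one]; exact h.symm⟩
    · exact ⟨g, h⟩
  set S : ℕ → Set X := fun n => {x | φ x = act (f n) x} with hS
  have hSm : ∀ n, MeasurableSet (S n) := fun n => meas_eq _ _ φ.measurable (h1 (f n)).measurable
  set A : ℕ → Set X := disjointed S with hA
  have hAm : ∀ n, MeasurableSet (A n) := fun n => MeasurableSet.disjointed hSm n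
  have hAd : Pairwise (Function.onFun Disjoint A) := disjoint_disjointed S
  have hAu : ⋃ n, A n = Set.univ := by
    rw [hA, iUnion_disjointed]
    ext x
    simp only [Set.mem_iUnion, Set.mem_univ, iff_true]
    obtain ⟨g, hg⟩ := hex x
    obtain ⟨n, hn⟩ := hf g
    exact ⟨n, by rw [hS]; simp only [Set.mem_ofPred_eq]; rw [hn]; exact hg⟩
  have hAS : ∀ n, ∀ x ∈ A n, φ x = act (f n) x := fun n x hx => disjointed_subset S n hx
  refine Measure.ext fun B hB => ?_
  rw [Measure.map_apply φ.measurable hB]
  have e1 : φ ⁻¹' B = ⋃ n, (A n ∩ φ ⁻¹' B) := by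
    rw [← Set.iUnion_inter, hAu, Set.univ_inter]
  have e2 : B = ⋃ n, (φ '' A n ∩ B) := by
    rw [← Set.iUnion_inter, ← Set.image_iUnion, hAu, Set.image_univ, φ.surjective.range_eq,
      Set.univ_inter]
  have hIm : ∀ n, MeasurableSet (φ '' A n) := fun n => (φ.measurableSet_image).2 (hAm n)
  have e3 : ∀ n, mu (A n ∩ φ ⁻¹' B) = mu (φ '' A n ∩ B) := by
    intro n
    rw [← (h1 (f n)).measure_preimage ((hIm n).inter hB).nullMeasurableSet]
    congr 1
    ext x
    constructor
    · rintro ⟨hx, hxB⟩
      have := hAS n x hx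
      refine ⟨⟨x, hx, this⟩, ?_⟩
      rw [← this]; exact hxB
    · rintro ⟨⟨y, hy, hyx⟩, hxB⟩
      have h4 := hAS n y hy
      rw [h4] at hyx
      have : y = x := act_inj _ hyx
      subst this
      refine ⟨hy, ?_⟩
      show φ y ∈ B
      rw [h4]; exact hxB
  conv_lhs => rw [e1]
  conv_rhs => rw [e2]
  rw [measure_iUnion (fun i j hij => (hAd hij).mono Set.inter_subset_left Set.inter_subset_left)
      (fun n => (hAm n).inter (φ.measurable hB)),
    measure_iUnion (fun i j hij => ((Set.disjoint_image_iff φ.injective).2 (hAd hij)).mono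
      Set.inter_subset_left Set.inter_subset_left) (fun n => (hIm n).inter hB)]
  exact tsum_congr e3

end Pool.Agent.H194.CG
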